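import Pool.Agent.H42.BX.Lgd
import Pool.Agent.H62.BL.Lgp
import Pool.Agent.H62.BM.KpbE

/-!
# [BLX LGP] properties of the group data of a general filtration

`bru l u = [c_(n+1), [.., [c_2, c_1]]]`, `c_k = u_k g_k u_k⁻¹`. `lkd_pair`: of two tuples of labels which differ only in the character of the
label `0`, with different values at some iterated commutator, one is linked. `ugm_le`, `ugd_le`: the orders of the groups of words.
-/

set_option autoImplicit false

open scoped Classical commutatorElement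

noncomputable section

namespace H42.BX

open H62.BL

/-- bound for the orders of the groups of words -/
def blX (q m : ℕ) : ℕ := m * q ^ (((m + 2) * (m * q ^ m) + 1) ^ (m + 1))

section

variable {q n : ℕ} {P Qg : Type} [Group P] [Group Qg]

/-- the iterated commutator of conjugates of the values of the labels `1, .., n+1` -/
def bru (l : Fin (n + 2) → Lt q P Qg) (u : Fin (n + 1) → P) : P :=
  rn (List.ofFn fun j : Fin (n + 1) => u j.rev * (l j.rev.succ).g * (u j.rev)⁻¹)

theorem rn_mem {f : ℕ → Subgroup P} (hf : Fl f) (w : List P) :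
    ∀ m : ℕ, w.length = m + 1 → (∀ a ∈ w, a ∈ f 1) → rn w ∈ f (m + 1) := by
  induction w with
  | nil =>
    intro m hm
    rw [List.length_nil] at hm
    omega
  | cons a w ih =>
    intro m hm h
    cases w with
    | nil =>
      rw [List.length_singleton] at hm
      obtain rfl : m = 0 := by omega
      exact h a (by simp)
    | cons b w =>
      rw [List.length_cons, List.length_cons] at hm
      obtain ⟨k, rfl⟩ : ∃ k, m = k + 1 := ⟨m - 1, by omega⟩
      have h1 := ih k (by rw [List.length_cons]; omega) fun c hc => h c (List.mem_cons_of_mem _ hc)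
      have h2 := hf.com 1 (k + 1) a (h a (by simp)) _ h1
      have h3 : 1 + (k + 1) = k + 1 + 1 := by omega
      rw [h3] at h2
      exact h2

variable {F : FG q n P Qg}

theorem bru_mem (l : Fin (n + 2) → Lt q P Qg) (h : ∀ k, (l k).g ∈ F.f 1) (u : Fin (n + 1) → P) :
    bru l u ∈ F.f (n + 1) := by
  rw [bru]
  refine rn_mem F.fl _ n (by rw [List.length_ofFn]) ?_
  intro a ha
  rw [List.mem_ofFn] at ha
  obtain ⟨j, rfl⟩ := ha
  exact fl_conj F.fl 1 _ _ (h _)

private theorem lgp_lb {a b : Lt q P Qg} (ha : a.ok F) (hb : b.ok F)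
    (h : a = b) : lbL F a ha = lbL F b hb := by
  subst h
  rfl

private theorem lgp_cc (x y : P) (h : (x : P ⧸ F.f 2) = (y : P ⧸ F.f 2)) : x * y⁻¹ ∈ F.f 2 := by
  rw [← QuotientGroup.eq_one_iff, QuotientGroup.mk_mul, QuotientGroup.mk_inv, h, mul_inv_cancel]

theorem lkd_pair [Finite P] [NeZero q] (F : FG q n P Qg) (l : Fin (n + 2) → Lt q P Qg)
    (χ' : P → ZMod q) (h : ∀ k, (l k).ok F) (h' : (Lt.mk (l 0).g (l 0).f χ').ok F)
    (hu : ∃ u : Fin (n + 1) → P, (l 0).χ (bru l u) ≠ χ' (bru l u)) :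
    LkN F l ∨ LkN F (Function.update l 0 ⟨(l 0).g, (l 0).f, χ'⟩) := by
  obtain ⟨u, hu⟩ := hu
  obtain ⟨D, hD⟩ : ∃ D, D = F.lg := ⟨_, rfl⟩
  obtain ⟨la, hla⟩ : ∃ la : Fin (n + 2) → Lb F, la = fun k => lbL F (l k) (h k) := ⟨_, rfl⟩
  obtain ⟨l₁, hl₁⟩ : ∃ l₁ : Lb F, l₁ = lbL F ⟨(l 0).g, (l 0).f, χ'⟩ h' := ⟨_, rfl⟩
  have hs : ∀ a : Lb F, ((D.s a : P) : P ⧸ F.f 2) = a.c := by
    intro a
    rw [hD]
    exact lg_s a
  have h01 : D.s (la 0) * (D.s l₁)⁻¹ ∈ D.f 2 := by
    have h1 : D.s (la 0) * (D.s l₁)⁻¹ ∈ F.f 2 := by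
      refine lgp_cc _ _ ?_
      rw [hs, hs, hla, hl₁]
      rfl
    rw [hD] at h1 ⊢
    exact h1
  obtain ⟨lab, hlab⟩ : ∃ lab : Fin (n + 1) → Lb F,
      lab = fun i => F.pi (u i.rev) • la i.rev.succ := ⟨_, rfl⟩
  have hlc : ∀ i : Fin (n + 1), (lab i).c =
      ((u i.rev * (l i.rev.succ).g * (u i.rev)⁻¹ : P) : P ⧸ F.f 2) := by
    intro i
    rw [hlab]
    change (F.pi (u i.rev) • la i.rev.succ : Lb F).c = _
    rw [lb_smul, hla]
    rfl
  have hmem := bru_mem (F := F) l (fun k => (h k).1) u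
  have hrw : D.rw (List.ofFn fun i : Fin (n + 1) => (⟨i.rev.succ, lab i⟩ : Lr (Fin (n + 2)) (Lb F))) =
      bru l u := by
    have h1 : D.rw (List.ofFn fun i : Fin (n + 1) => (⟨i.rev.succ, lab i⟩ : Lr (Fin (n + 2)) (Lb F))) =
        rn (List.ofFn fun i : Fin (n + 1) => D.s (lab i)) := by
      unfold LG.rw
      rw [List.map_ofFn]
      rfl
    rw [h1, bru]
    have h2 := rn_cg F.fl (List.ofFn fun j : Fin (n + 1) => u j.rev * (l j.rev.succ).g * (u j.rev)⁻¹)
      (List.ofFn fun i : Fin (n + 1) => D.s (lab i)) (by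
        rw [List.forall₂_iff_get]
        refine ⟨by rw [List.length_ofFn, List.length_ofFn], fun i h1 h2 => ?_⟩
        rw [List.get_ofFn, List.get_ofFn]
        refine ⟨fl_conj F.fl 1 _ _ (h _).1, ?_⟩
        refine lgp_cc _ _ ?_
        rw [hs]
        exact hlc _) (by
        intro h3
        have h4 := congrArg List.length h3
        rw [List.length_ofFn] at h4
        simp at h4)
    rw [List.length_ofFn] at h2
    have h3 : rn (List.ofFn fun i : Fin (n + 1) => D.s (lab i)) *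
        (rn (List.ofFn fun j : Fin (n + 1) => u j.rev * (l j.rev.succ).g * (u j.rev)⁻¹))⁻¹ ∈ F.f (n + 2) := h2
    rw [F.bot, Subgroup.mem_bot, mul_inv_eq_one] at h3
    exact h3
  have hk := H62.BM.kp_br D lab (la 0) l₁ h01
  rw [hrw] at hk
  have hc0 : D.ch (la 0) (bru l u) = (l 0).χ (bru l u) := by
    rw [hD, hla]
    exact if_pos hmem
  have hc1 : D.ch l₁ (bru l u) = χ' (bru l u) := by
    rw [hD, hl₁]
    exact if_pos hmem
  rw [hc0, hc1] at hk
  by_cases h0 : D.kp (la 0) (br (List.ofFn fun i : Fin (n + 1) =>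
      (⟨i.rev.succ, lab i⟩ : Lr (Fin (n + 2)) (Lb F)))) = 0
  · right
    have h1 : D.kp l₁ (br (List.ofFn fun i : Fin (n + 1) =>
        (⟨i.rev.succ, lab i⟩ : Lr (Fin (n + 2)) (Lb F)))) ≠ 0 := by
      intro h1
      rw [h0, h1, sub_zero] at hk
      exact hu (sub_eq_zero.1 hk.symm)
    have h2 : ∀ k, (Function.update l 0 (⟨(l 0).g, (l 0).f, χ'⟩ : Lt q P Qg) k).ok F := by
      intro k
      by_cases hk0 : k = 0
      · subst hk0
        rw [Function.update_self]
        exact h'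
      · rw [Function.update_of_ne hk0]
        exact h k
    refine ⟨h2, fun i => F.pi (u i.rev), ?_⟩
    have h3 : lbL F (Function.update l 0 (⟨(l 0).g, (l 0).f, χ'⟩ : Lt q P Qg) 0) (h2 0) = l₁ := by
      rw [hl₁]
      exact lgp_lb _ _ (Function.update_self _ _ _)
    have h4 : ∀ k : Fin (n + 1), lbL F (Function.update l 0 (⟨(l 0).g, (l 0).f, χ'⟩ : Lt q P Qg) k.succ)
        (h2 k.succ) = la k.succ := by
      intro k
      rw [hla]
      exact lgp_lb _ _ (Function.update_of_ne (Fin.succ_ne_zero k) _ _)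
    have h5 : (fun i : Fin (n + 1) => (⟨i.rev.succ, F.pi (u i.rev) •
        lbL F (Function.update l 0 (⟨(l 0).g, (l 0).f, χ'⟩ : Lt q P Qg) i.rev.succ) (h2 i.rev.succ)⟩ :
          Lr (Fin (n + 2)) (Lb F))) = fun i : Fin (n + 1) => ⟨i.rev.succ, lab i⟩ := by
      funext i
      rw [h4, hlab]
    beta_reduce
    rw [h3, h5, ← hD]
    exact h1
  · left
    refine ⟨h, fun i => F.pi (u i.rev), ?_⟩
    rw [hlab, hla, hD] at h0
    exact h0

theorem lb_card [Finite P] [NeZero q] : Nat.card (Lb F) ≤ Nat.card P * q ^ Nat.card P := by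
  have h1 : Nat.card (Lb F) ≤ Nat.card ((P ⧸ F.f 2) × (P → ZMod q)) := by
    refine Nat.card_le_card_of_injective (fun a : Lb F => (a.c, a.χ)) fun a b h => ?_
    obtain ⟨h1, h2⟩ := Prod.mk.inj h
    exact Lb.ext h1 h2
  refine h1.trans ?_
  rw [Nat.card_prod, Nat.card_fun, Nat.card_zmod]
  exact Nat.mul_le_mul_right _ (Nat.card_le_card_of_surjective _ (QuotientGroup.mk_surjective))

private theorem lgp_words {α : Type} [Finite α] (S : Set (List α)) (k : ℕ)
    (hS : ∀ w ∈ S, w.length ≤ k) : Nat.card S ≤ (Nat.card α + 1) ^ k := by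
  have h1 : Nat.card S ≤ Nat.card (Fin k → Option α) := by
    refine Nat.card_le_card_of_injective (fun (w : S) (i : Fin k) => w.1[i.1]?) fun w v h => ?_
    refine Subtype.ext (List.ext_getElem? fun i => ?_)
    by_cases hi : i < k
    · exact congrFun h ⟨i, hi⟩
    · have hw := hS w.1 w.2
      have hv := hS v.1 v.2
      rw [List.getElem?_eq_none (by omega), List.getElem?_eq_none (by omega)]
  refine h1.trans (le_of_eq ?_)
  rw [Nat.card_fun, Nat.card_eq_fintype_card (α := Fin k), Fintype.card_fin, Finite.card_option]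

theorem ug_le [Finite P] [NeZero q] (F : FG q n P Qg) {m : ℕ} (hm : Nat.card P ≤ m) (hnm : n ≤ m)
    (S : Set (Fin (n + 2))) :
    Nat.card (UG Qg (Lr (Fin (n + 2)) (Lb F)) (ZMod q) (WN Qg (Lb F) S (n + 1))) ≤
      blX q m := by
  have : Finite Qg := Finite.of_surjective _ F.sur
  have hq : 0 < q := Nat.pos_of_ne_zero (NeZero.ne q)
  rw [ug_card (wn_finite _ _)]
  have h1 : Nat.card Qg ≤ m :=
    (Nat.card_le_card_of_surjective _ F.sur).trans hm
  have h2 : Nat.card (Lb F) ≤ m * q ^ m :=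
    lb_card.trans (Nat.mul_le_mul hm (Nat.pow_le_pow_right hq hm))
  have h3 : Nat.card (Lr (Fin (n + 2)) (Lb F)) ≤ (m + 2) * (m * q ^ m) := by
    have h4 : Nat.card (Lr (Fin (n + 2)) (Lb F)) = (n + 2) * Nat.card (Lb F) := by
      rw [Nat.card_congr (⟨fun a => (a.i, a.l), fun x => ⟨x.1, x.2⟩, fun _ => rfl, fun _ => rfl⟩ :
        Lr (Fin (n + 2)) (Lb F) ≃ Fin (n + 2) × Lb F), Nat.card_prod,
        Nat.card_eq_fintype_card (α := Fin (n + 2)), Fintype.card_fin]
    rw [h4]
    exact Nat.mul_le_mul (by omega) h2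
  have h4 : Nat.card (WN Qg (Lb F) S (n + 1)).s ≤ ((m + 2) * (m * q ^ m) + 1) ^ (m + 1) := by
    refine (lgp_words _ (n + 1) fun w hw => hw.1).trans ?_
    refine (Nat.pow_le_pow_left (Nat.add_le_add_right h3 1) _).trans ?_
    exact Nat.pow_le_pow_right (Nat.succ_pos _) (by omega)
  exact Nat.mul_le_mul h1 (Nat.pow_le_pow_right hq ((Nat.sub_le _ _).trans h4))

theorem ugm_le [Finite P] [NeZero q] (F : FG q n P Qg) {m : ℕ} (hm : Nat.card P ≤ m) (hnm : n ≤ m) :
    Nat.card (UGm q n Qg (Lb F)) ≤ blX q m :=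
  ug_le F hm hnm _

theorem ugd_le [Finite P] [NeZero q] (F : FG q n P Qg) {m : ℕ} (hm : Nat.card P ≤ m) (hnm : n ≤ m) :
    Nat.card (UGd q n Qg (Lb F)) ≤ blX q m :=
  ug_le F hm hnm _

end

end H42.BX
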