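import Pool.Agent.H42.BX.Tpl

/-!
# [BLG LAM] the twisted functionals

`D : LG q (n + 1) P Qg Lm` (`f (n + 3) = ⊥`; its characters `ch` are not used), `Tw D`: `ka` = a crossed homomorphism on `Qg` with values in the functionals on
`f (n + 2)`, `ch` = characters of `f (n + 1)` which are trivial on `f (n + 2)`, twisted equivariance.
* `Lam` on the words of length `n + 2` with the last index `0`; `lam_act`.
* `Kw l₀`, `Kp l₀` as in `LG.kw`, `LG.kp`; `kp_br_act`: `Kp l₀ (br (z w)) = Kp l₀ (br w)` if `z` fixes `l₀` and the last index of `w` is `1`;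
  `kp_eq`: `Kp l₀ (br w) = Lam (br w · X₀) + ch l₀ (rw w)`; `kl_inv`, `inv_kl`: the functional `kl (Kw l₀)` is invariant.
* `lie_ev`: `sum_t br v t * φ [t_1, [t_2, .. [t_m, y]]] = φ [rn v, y]`.
-/

set_option autoImplicit false

open scoped Classical

noncomputable section

namespace H42.BX

open H62.BL

/-! ### Jacobi -/

section jac

variable {P : Type} [Group P] {f : ℕ → Subgroup P}

/-- an additive function on `f m` which vanishes on `f (m + 1)` -/
structure Ad {A : Type} [AddCommGroup A] (f : ℕ → Subgroup P) (m : ℕ) (φ : P → A) : Prop where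
  add : ∀ u ∈ f m, ∀ v ∈ f m, φ (u * v) = φ u + φ v
  zero : ∀ u ∈ f (m + 1), φ u = 0

variable {A : Type} [AddCommGroup A]

theorem fl_cm' (hf : Fl f) {i j k : ℕ} (h : k ≤ i + j) {a b : P} (ha : a ∈ f i) (hb : b ∈ f j) :
    a * b * a⁻¹ * b⁻¹ ∈ f k := fl_anti' hf h (hf.com i j a ha b hb)
where
  fl_anti' (hf : Fl f) {i j : ℕ} (h : i ≤ j) : f j ≤ f i := by
    induction j, h using Nat.le_induction with
    | base => exact le_rfl
    | succ j _ ih => exact (hf.anti j).trans ih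

theorem fl_anti'' (hf : Fl f) {i j : ℕ} (h : i ≤ j) : f j ≤ f i := by
  induction j, h using Nat.le_induction with
  | base => exact le_rfl
  | succ j _ ih => exact (hf.anti j).trans ih

theorem fl_conj' (hf : Fl f) (i : ℕ) (a b : P) (hb : b ∈ f i) : a * b * a⁻¹ ∈ f i := by
  have h1 := hf.com 0 i a (by rw [hf.top]; trivial) b hb
  rw [Nat.zero_add] at h1
  have h2 := (f i).mul_mem h1 hb
  rwa [inv_mul_cancel_right] at h2

theorem fl_nor' (hf : Fl f) (i : ℕ) : (f i).Normal := ⟨fun b hb a => fl_conj' hf i a b hb⟩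

theorem Ad.cg {m : ℕ} {φ : P → A} (h : Ad f m φ) (hf : Fl f) {u v : P} (hv : v ∈ f m) (huv : u * v⁻¹ ∈ f (m + 1)) :
    φ u = φ v := by
  have h1 : u = u * v⁻¹ * v := by group
  rw [h1, h.add _ (hf.anti m huv) _ hv, h.zero _ huv, zero_add]

theorem Ad.one {m : ℕ} {φ : P → A} (h : Ad f m φ) : φ 1 = 0 := h.zero 1 (one_mem _)

theorem Ad.inv {m : ℕ} {φ : P → A} (h : Ad f m φ) {u : P} (hu : u ∈ f m) : φ u⁻¹ = -φ u := by
  have h1 := h.add u hu u⁻¹ (inv_mem hu)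
  rw [mul_inv_cancel, h.one] at h1
  exact (neg_eq_of_add_eq_zero_right h1.symm).symm

theorem Ad.com {m i : ℕ} {φ : P → A} (h : Ad f (m + i) φ) (hf : Fl f) {a : P} (ha : a ∈ f i) (hm : 1 ≤ m) :
    Ad f m fun u => φ (a * u * a⁻¹ * u⁻¹) where
  add u hu v hv := by
    have h1 : a * (u * v) * a⁻¹ * (u * v)⁻¹ = a * u * a⁻¹ * u⁻¹ * (u * (a * v * a⁻¹ * v⁻¹) * u⁻¹ * (a * v * a⁻¹ * v⁻¹)⁻¹) *
        (a * v * a⁻¹ * v⁻¹) := by group
    have h2 : a * u * a⁻¹ * u⁻¹ ∈ f (m + i) := fl_cm' hf (by omega) ha hu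
    have h3 : a * v * a⁻¹ * v⁻¹ ∈ f (m + i) := fl_cm' hf (by omega) ha hv
    have h4 : u * (a * v * a⁻¹ * v⁻¹) * u⁻¹ * (a * v * a⁻¹ * v⁻¹)⁻¹ ∈ f (m + i + 1) := fl_cm' hf (by omega) hu h3
    rw [h1, h.add _ (mul_mem h2 (hf.anti _ h4)) _ h3, h.add _ h2 _ (hf.anti _ h4), h.zero _ h4, add_zero]
  zero u hu := h.zero _ (fl_cm' hf (by omega) ha hu)

private theorem jac_id {H : Type} [Group H] {B C D X Y u v : H} (hX : X * v = v * X) (hXY : X * Y = Y * X)
    (hXD : X * D = D * X) (hYD : Y * D = D * Y) (huY : u * Y = Y * u) (huD : u * D = D * u)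
    (hD : B * C * B⁻¹ * C⁻¹ = D) (hu : X * C * X⁻¹ * C⁻¹ = u) (hv : B * Y * B⁻¹ * Y⁻¹ = v) :
    X * B * (Y * C) * (X * B)⁻¹ * (Y * C)⁻¹ * D⁻¹ = v * u := by
  have h1 : B * Y = v * Y * B := by rw [← hv]; group
  have h2 : B * C * B⁻¹ = D * C := by rw [← hD]; group
  have h3 : C * X⁻¹ * C⁻¹ = X⁻¹ * u := by rw [← hu]; group
  calc X * B * (Y * C) * (X * B)⁻¹ * (Y * C)⁻¹ * D⁻¹
      = X * (B * Y) * C * B⁻¹ * X⁻¹ * C⁻¹ * Y⁻¹ * D⁻¹ := by group
    _ = X * v * Y * (B * C * B⁻¹) * X⁻¹ * C⁻¹ * Y⁻¹ * D⁻¹ := by rw [h1]; group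
    _ = X * v * Y * D * (C * X⁻¹ * C⁻¹) * Y⁻¹ * D⁻¹ := by rw [h2]; group
    _ = X * v * Y * D * X⁻¹ * u * Y⁻¹ * D⁻¹ := by rw [h3]; group
    _ = v * (X * Y) * D * X⁻¹ * u * Y⁻¹ * D⁻¹ := by rw [hX]; group
    _ = v * Y * (X * D) * X⁻¹ * u * Y⁻¹ * D⁻¹ := by rw [hXY]; group
    _ = v * (Y * D) * u * Y⁻¹ * D⁻¹ := by rw [hXD]; group
    _ = v * D * (Y * u) * Y⁻¹ * D⁻¹ := by rw [hYD]; group
    _ = v * D * u * D⁻¹ := by rw [← huY]; group
    _ = v * (D * u) * D⁻¹ := by group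
    _ = v * u := by rw [← huD]; group

/-- the Jacobi identity -/
theorem Ad.jac {i j k : ℕ} {φ : P → A} (h : Ad f (i + j + k) φ) (hf : Fl f) (hi : 1 ≤ i) (hj : 1 ≤ j) (hk : 1 ≤ k)
    {a b c : P} (ha : a ∈ f i) (hb : b ∈ f j) (hc : c ∈ f k) :
    φ (a * (b * c * b⁻¹ * c⁻¹) * a⁻¹ * (b * c * b⁻¹ * c⁻¹)⁻¹) =
      φ (a * b * a⁻¹ * b⁻¹ * c * (a * b * a⁻¹ * b⁻¹)⁻¹ * c⁻¹) +
        φ (b * (a * c * a⁻¹ * c⁻¹) * b⁻¹ * (a * c * a⁻¹ * c⁻¹)⁻¹) := by
  have := fl_nor' hf (i + j + k + 1)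
  obtain ⟨X, hX⟩ : ∃ X, X = a * b * a⁻¹ * b⁻¹ := ⟨_, rfl⟩
  obtain ⟨Y, hY⟩ : ∃ Y, Y = a * c * a⁻¹ * c⁻¹ := ⟨_, rfl⟩
  obtain ⟨D, hD⟩ : ∃ D, D = b * c * b⁻¹ * c⁻¹ := ⟨_, rfl⟩
  obtain ⟨u, hu⟩ : ∃ u, u = X * c * X⁻¹ * c⁻¹ := ⟨_, rfl⟩
  obtain ⟨v, hv⟩ : ∃ v, v = b * Y * b⁻¹ * Y⁻¹ := ⟨_, rfl⟩
  have mX : X ∈ f (i + j) := by rw [hX]; exact fl_cm' hf le_rfl ha hb
  have mY : Y ∈ f (i + k) := by rw [hY]; exact fl_cm' hf le_rfl ha hc
  have mD : D ∈ f (j + k) := by rw [hD]; exact fl_cm' hf le_rfl hb hc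
  have mu : u ∈ f (i + j + k) := by rw [hu]; exact fl_cm' hf (by omega) mX hc
  have mv : v ∈ f (i + j + k) := by rw [hv]; exact fl_cm' hf (by omega) hb mY
  have key : ∀ {s t : ℕ} {x y : P}, x ∈ f s → y ∈ f t → i + j + k + 1 ≤ s + t →
      (x : P ⧸ f (i + j + k + 1)) * (y : P ⧸ f (i + j + k + 1)) =
        (y : P ⧸ f (i + j + k + 1)) * (x : P ⧸ f (i + j + k + 1)) := by
    intro s t x y hx hy hst
    rw [← QuotientGroup.mk_mul, ← QuotientGroup.mk_mul, QuotientGroup.eq_iff_div_mem, div_eq_mul_inv,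
      mul_inv_rev, ← mul_assoc]
    exact fl_cm' hf hst hx hy
  have h1 : a * D * a⁻¹ * D⁻¹ = X * b * (Y * c) * (X * b)⁻¹ * (Y * c)⁻¹ * D⁻¹ := by
    rw [hX, hY, hD]
    group
  have h2 : (a * D * a⁻¹ * D⁻¹) * (v * u)⁻¹ ∈ f (i + j + k + 1) := by
    rw [← div_eq_mul_inv, ← QuotientGroup.eq_iff_div_mem, h1]
    simp only [QuotientGroup.mk_mul, QuotientGroup.mk_inv]
    refine jac_id (key mX mv (by omega)) (key mX mY (by omega)) (key mX mD (by omega)) (key mY mD (by omega))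
      (key mu mY (by omega)) (key mu mD (by omega)) ?_ ?_ ?_
    · rw [hD]
      simp only [QuotientGroup.mk_mul, QuotientGroup.mk_inv]
    · rw [hu]
      simp only [QuotientGroup.mk_mul, QuotientGroup.mk_inv]
    · rw [hv]
      simp only [QuotientGroup.mk_mul, QuotientGroup.mk_inv]
  rw [← hX, ← hY, ← hD, h.cg hf (mul_mem mv mu) h2, h.add _ mv _ mu, hu, hv, add_comm]

end jac

/-! ### evaluation of brackets -/

section ev

variable {α R : Type} [Fintype α] [CommRing R]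

/-- pairing of functions on words of length `m` -/
def pr (m : ℕ) (c ψ : List α → R) : R := ∑ t : Fin m → α, c (List.ofFn t) * ψ (List.ofFn t)

theorem pr_sub (m : ℕ) (c c' ψ : List α → R) : pr m (c - c') ψ = pr m c ψ - pr m c' ψ := by
  unfold pr
  rw [← Finset.sum_sub_distrib]
  exact Finset.sum_congr rfl fun t _ => by rw [Pi.sub_apply, sub_mul]

theorem pr_sub_right (m : ℕ) (c ψ ψ' : List α → R) : pr m c (fun t => ψ t - ψ' t) = pr m c ψ - pr m c ψ' := by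
  unfold pr
  rw [← Finset.sum_sub_distrib]
  exact Finset.sum_congr rfl fun t _ => mul_sub _ _ _

theorem pr_el_left (m : ℕ) (a : α) (c ψ : List α → R) :
    pr (m + 1) (cv (el a) c) ψ = pr m c fun t => ψ (a :: t) := by
  unfold pr
  rw [← (Fin.consEquiv fun _ : Fin (m + 1) => α).sum_comp, Fintype.sum_prod_type, Finset.sum_eq_single a]
  · refine Finset.sum_congr rfl fun t _ => ?_
    have h1 : List.ofFn ((Fin.consEquiv fun _ : Fin (m + 1) => α) (a, t)) = a :: List.ofFn t := by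
      rw [List.ofFn_succ]
      simp [Fin.consEquiv]
    rw [h1, cv_el_left]
    congr 1
    exact if_pos rfl
  · intro y _ hy
    refine Finset.sum_eq_zero fun t _ => ?_
    have h1 : List.ofFn ((Fin.consEquiv fun _ : Fin (m + 1) => α) (y, t)) = y :: List.ofFn t := by
      rw [List.ofFn_succ]
      simp [Fin.consEquiv]
    rw [h1, cv_el_left]
    have h2 : (if y = a then c (List.ofFn t) else 0) = 0 := if_neg hy
    exact (congrArg (· * ψ (y :: List.ofFn t)) h2).trans (zero_mul _)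
  · intro h
    exact absurd (Finset.mem_univ _) h

theorem pr_el_right (m : ℕ) (a : α) (c ψ : List α → R) :
    pr (m + 1) (cv c (el a)) ψ = pr m c fun t => ψ (t ++ [a]) := by
  unfold pr
  rw [← (Fin.snocEquiv fun _ : Fin (m + 1) => α).sum_comp, Fintype.sum_prod_type, Finset.sum_eq_single a]
  · refine Finset.sum_congr rfl fun t _ => ?_
    have h1 : List.ofFn ((Fin.snocEquiv fun _ : Fin (m + 1) => α) (a, t)) = List.ofFn t ++ [a] := by
      rw [List.ofFn_succ', List.concat_eq_append]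
      simp [Fin.snocEquiv]
    rw [h1, cv_el_right a c _ _ rfl]
  · intro y _ hy
    refine Finset.sum_eq_zero fun t _ => ?_
    have h1 : List.ofFn ((Fin.snocEquiv fun _ : Fin (m + 1) => α) (y, t)) = List.ofFn t ++ [y] := by
      rw [List.ofFn_succ', List.concat_eq_append]
      simp [Fin.snocEquiv]
    rw [h1, cv_el_right' a c _ (fun v hv => hy ?_), zero_mul]
    have h2 := congrArg List.getLast? hv
    rw [List.getLast?_append, List.getLast?_append] at h2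
    simpa using h2
  · intro h
    exact absurd (Finset.mem_univ _) h

theorem pr_br_cons (m : ℕ) (a b : α) (w : List α) (ψ : List α → R) :
    pr (m + 1) (br (a :: b :: w)) ψ = pr m (br (b :: w)) fun t => ψ (a :: t) - ψ (t ++ [a]) := by
  have h1 : (br (a :: b :: w) : List α → R) = cv (el a) (br (b :: w)) - cv (br (b :: w)) (el a) := rfl
  rw [h1, pr_sub, pr_el_left, pr_el_right, pr_sub_right]

variable {P : Type} [Group P] {f : ℕ → Subgroup P}

theorem rn_app_mem (hf : Fl f) {k : ℕ} {y : P} (hy : y ∈ f k) : ∀ w : List P, (∀ a ∈ w, a ∈ f 1) →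
    rn (w ++ [y]) ∈ f (w.length + k)
  | [], _ => by
    rw [List.nil_append, List.length_nil, Nat.zero_add]
    exact hy
  | [a], h => by
    have h1 : a ∈ f 1 := h a (by simp)
    exact hf.com 1 k a h1 y hy
  | a :: b :: w, h => by
    have ih := rn_app_mem hf hy (b :: w) fun c hc => h c (List.mem_cons_of_mem _ hc)
    have h1 : a ∈ f 1 := h a (by simp)
    have h2 := hf.com 1 _ a h1 _ ih
    refine fl_anti'' hf ?_ h2
    simp only [List.length_cons]
    omega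

theorem rn_mem' (hf : Fl f) : ∀ w : List P, w ≠ [] → (∀ a ∈ w, a ∈ f 1) → rn w ∈ f w.length
  | [], h, _ => absurd rfl h
  | [a], _, h => h a (by simp)
  | a :: b :: w, _, h => by
    have ih := rn_mem' hf (b :: w) (by simp) fun c hc => h c (List.mem_cons_of_mem _ hc)
    have h1 : a ∈ f 1 := h a (by simp)
    refine fl_anti'' hf ?_ (hf.com 1 _ a h1 _ ih)
    simp only [List.length_cons]
    omega

theorem rn_cons_app (a : P) (w : List P) (y : P) :
    rn (a :: (w ++ [y])) = a * rn (w ++ [y]) * a⁻¹ * (rn (w ++ [y]))⁻¹ := by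
  cases w with
  | nil => rfl
  | cons b w => rfl

theorem rn_app_app (w : List P) (a y : P) : rn (w ++ [a] ++ [y]) = rn (w ++ [a * y * a⁻¹ * y⁻¹]) := by
  induction w with
  | nil => rfl
  | cons b w ih =>
    have h1 : b :: w ++ [a] ++ [y] = b :: (w ++ [a] ++ [y]) := rfl
    have h2 : b :: w ++ [a * y * a⁻¹ * y⁻¹] = b :: (w ++ [a * y * a⁻¹ * y⁻¹]) := rfl
    rw [h1, h2, rn_cons_app, rn_cons_app, ih]

/-- EVALUATION of a bracket: `sum_t br v t * φ [t_1, [t_2, .. [t_m, y]]] = φ [rn v, y]` -/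
theorem lie_ev (hf : Fl f) (g : α → P) (hg : ∀ a, g a ∈ f 1) : ∀ (m : ℕ) (v : List α), v.length = m + 1 →
    ∀ (k : ℕ) (y : P), 1 ≤ k → y ∈ f k → ∀ φ : P → R, Ad f (m + 1 + k) φ →
      pr (m + 1) (br v) (fun t => φ (rn (t.map g ++ [y]))) =
        φ (rn (v.map g) * y * (rn (v.map g))⁻¹ * y⁻¹) := by
  intro m
  induction m with
  | zero =>
    intro v hv k y hk hy φ hφ
    obtain ⟨a, rfl⟩ := List.length_eq_one_iff.1 hv
    unfold pr
    rw [Finset.sum_eq_single fun _ => a]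
    · have h1 : (List.ofFn fun _ : Fin (0 + 1) => a) = [a] := by simp
      rw [h1]
      have h2 : (br [a] : List α → R) [a] = 1 := if_pos rfl
      rw [h2, one_mul]
      rfl
    · intro t _ ht
      have h1 : (br [a] : List α → R) (List.ofFn t) = 0 := by
        refine if_neg (c := List.ofFn t = [a]) (t := (1 : R)) fun h => ht ?_
        funext i
        have h2 : List.ofFn t = List.ofFn fun _ : Fin (0 + 1) => a := by rw [h]; simp
        exact congrFun (List.ofFn_injective h2) i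
      rw [h1, zero_mul]
    · intro h
      exact absurd (Finset.mem_univ _) h
  | succ m ih =>
    intro v hv k y hk hy φ hφ
    cases v with
    | nil => simp at hv
    | cons a v =>
      cases v with
      | nil => simp at hv
      | cons b w =>
        have hl : (b :: w).length = m + 1 := by
          rw [List.length_cons] at hv
          omega
        have ha := hg a
        have hR : rn ((b :: w).map g) ∈ f (m + 1) := by
          have h1 := rn_mem' hf ((b :: w).map g) (by simp) fun c hc => by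
            obtain ⟨d, _, rfl⟩ := List.mem_map.1 hc
            exact hg d
          rwa [List.length_map, hl] at h1
        have hφ1 : Ad f (m + 1 + k + 1) φ := by
          have h1 : m + 1 + 1 + k = m + 1 + k + 1 := by omega
          rwa [h1] at hφ
        have hφ2 : Ad f (m + 1 + (k + 1)) φ := by
          have h1 : m + 1 + 1 + k = m + 1 + (k + 1) := by omega
          rwa [h1] at hφ
        have hφ3 : Ad f (1 + (m + 1) + k) φ := by
          have h1 : m + 1 + 1 + k = 1 + (m + 1) + k := by omega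
          rwa [h1] at hφ
        have e1 := ih (b :: w) hl k y hk hy (fun u => φ (g a * u * (g a)⁻¹ * u⁻¹)) (hφ1.com hf ha (by omega))
        have e2 := ih (b :: w) hl (k + 1) (g a * y * (g a)⁻¹ * y⁻¹) (by omega)
          (fl_cm' hf (by omega) ha hy) φ hφ2
        have e3 := hφ3.jac hf le_rfl (by omega) hk ha hR hy
        rw [pr_br_cons, pr_sub_right]
        have e4 : (fun t : List α => φ (rn ((a :: t).map g ++ [y]))) =
            fun t => φ (g a * rn (t.map g ++ [y]) * (g a)⁻¹ * (rn (t.map g ++ [y]))⁻¹) := by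
          funext t
          rw [List.map_cons, List.cons_append, rn_cons_app]
        have e5 : (fun t : List α => φ (rn ((t ++ [a]).map g ++ [y]))) =
            fun t => φ (rn (t.map g ++ [g a * y * (g a)⁻¹ * y⁻¹])) := by
          funext t
          rw [List.map_append, List.map_cons, List.map_nil, rn_app_app]
        rw [e4, e5, e1, e2, e3, add_sub_cancel_right]
        rfl

end ev

/-! ### congruences -/

section grp

variable {P : Type} [Group P] {f : ℕ → Subgroup P}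

private theorem ll_ab {H : Type} [Group H] {Z A Y R : H} (h1 : Z * (Y * R) = Y * R * Z)
    (h2 : Z * (A * (Y * R) * A⁻¹ * (Y * R)⁻¹) = A * (Y * R) * A⁻¹ * (Y * R)⁻¹ * Z) (h3 : A * Y = Y * A)
    (h4 : Y * (A * R * A⁻¹ * R⁻¹) = A * R * A⁻¹ * R⁻¹ * Y) :
    Z * A * (Y * R) * (Z * A)⁻¹ * (Y * R)⁻¹ = A * R * A⁻¹ * R⁻¹ := by
  have h6 : Y * R * Z⁻¹ * (Y * R)⁻¹ = Z⁻¹ := by
    rw [mul_inv_eq_iff_eq_mul, mul_inv_eq_iff_eq_mul, mul_assoc, ← h1, inv_mul_cancel_left]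
  calc Z * A * (Y * R) * (Z * A)⁻¹ * (Y * R)⁻¹
      = Z * (A * (Y * R) * A⁻¹ * (Y * R)⁻¹) * (Y * R * Z⁻¹ * (Y * R)⁻¹) := by group
    _ = A * (Y * R) * A⁻¹ * (Y * R)⁻¹ := by rw [h2, h6, mul_inv_cancel_right]
    _ = A * Y * R * A⁻¹ * R⁻¹ * Y⁻¹ := by group
    _ = Y * A * R * A⁻¹ * R⁻¹ * Y⁻¹ := by rw [h3]
    _ = Y * (A * R * A⁻¹ * R⁻¹) * Y⁻¹ := by group
    _ = A * R * A⁻¹ * R⁻¹ := by rw [h4, mul_inv_cancel_right]

/-- the commutator depends on `a ∈ f 1` modulo `f 2` and on `r ∈ f (m + 1)` modulo `f (m + 2)` only -/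
theorem cm_cg (hf : Fl f) (m : ℕ) {a a' r r' : P} (ha : a ∈ f 1) (haa : a' * a⁻¹ ∈ f 2)
    (hr : r ∈ f (m + 1)) (hrr : r' * r⁻¹ ∈ f (m + 2)) :
    (a' * r' * a'⁻¹ * r'⁻¹) * (a * r * a⁻¹ * r⁻¹)⁻¹ ∈ f (m + 3) := by
  have := fl_nor' hf (m + 3)
  obtain ⟨z, hz⟩ : ∃ z, z = a' * a⁻¹ := ⟨_, rfl⟩
  obtain ⟨y, hy⟩ : ∃ y, y = r' * r⁻¹ := ⟨_, rfl⟩
  rw [← hz] at haa
  rw [← hy] at hrr
  have ea : a' = z * a := by rw [hz, inv_mul_cancel_right]
  have er : r' = y * r := by rw [hy, inv_mul_cancel_right]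
  have hr' : r' ∈ f (m + 1) := by
    rw [er]
    exact (f (m + 1)).mul_mem (fl_anti'' hf (by omega) hrr) hr
  have key : ∀ x x' : P, x * x' * x⁻¹ * x'⁻¹ ∈ f (m + 3) →
      (x : P ⧸ f (m + 3)) * (x' : P ⧸ f (m + 3)) = (x' : P ⧸ f (m + 3)) * (x : P ⧸ f (m + 3)) := by
    intro x x' h
    rw [← QuotientGroup.mk_mul, ← QuotientGroup.mk_mul, QuotientGroup.eq_iff_div_mem, div_eq_mul_inv,
      mul_inv_rev, ← mul_assoc]
    exact h
  rw [← div_eq_mul_inv, ← QuotientGroup.eq_iff_div_mem]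
  have h1 := key z r' (fl_cm' hf (by omega) haa hr')
  have h2 := key z (a * r' * a⁻¹ * r'⁻¹)
    (fl_cm' (i := 2) (j := m + 2) hf (by omega) haa (fl_cm' hf (by omega) ha hr'))
  have h3 := key a y (fl_cm' hf (by omega) ha hrr)
  have h4 := key y (a * r * a⁻¹ * r⁻¹)
    (fl_cm' (i := m + 2) (j := m + 2) hf (by omega) hrr (fl_cm' hf (by omega) ha hr))
  rw [er] at h1 h2
  simp only [QuotientGroup.mk_mul, QuotientGroup.mk_inv] at h1 h2 h3 h4
  rw [ea, er]
  simp only [QuotientGroup.mk_mul, QuotientGroup.mk_inv]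
  exact ll_ab h1 h2 h3 h4

private theorem ll_rn (hf : Fl f) : ∀ (u v : List P), List.Forall₂ (fun a b => a ∈ f 1 ∧ b * a⁻¹ ∈ f 2) u v →
    ∀ m, u.length = m + 1 → rn u ∈ f (m + 1) ∧ rn v * (rn u)⁻¹ ∈ f (m + 2) := by
  intro u v h
  induction h with
  | nil =>
    intro m hm
    rw [List.length_nil] at hm
    omega
  | @cons a b u v hab huv ih =>
    intro m hm
    cases huv with
    | nil =>
      rw [List.length_singleton] at hm
      obtain rfl : m = 0 := by omega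
      exact hab
    | @cons c d u v hcd huv =>
      rw [List.length_cons, List.length_cons] at hm
      obtain ⟨k, rfl⟩ : ∃ k, m = k + 1 := ⟨m - 1, by omega⟩
      obtain ⟨h1, h2⟩ := ih k (by rw [List.length_cons]; omega)
      refine ⟨?_, ?_⟩
      · exact fl_cm' (i := 1) (j := k + 1) hf (by omega) hab.1 h1
      · exact cm_cg hf k hab.1 hab.2 h1 h2

theorem rn_cj (x : P) : ∀ u : List P, x * rn u * x⁻¹ = rn (u.map fun a => x * a * x⁻¹)
  | [] => by
    show x * 1 * x⁻¹ = 1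
    rw [mul_one, mul_inv_cancel]
  | [a] => rfl
  | a :: b :: w => by
    have ih := rn_cj x (b :: w)
    rw [List.map_cons] at ih
    rw [List.map_cons, List.map_cons]
    show x * (a * rn (b :: w) * a⁻¹ * (rn (b :: w))⁻¹) * x⁻¹ = _
    rw [rn, ← ih]
    group

end grp

/-! ### the twisted functionals -/

section E

variable {P Qg Lm : Type} [Group P] [Group Qg] [MulAction Qg Lm] {q n : ℕ}

/-- the twisted characters -/
structure Tw (D : LG q (n + 1) P Qg Lm) where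
  ka : Qg → P → ZMod q
  ka_add : ∀ z, ∀ u ∈ D.f (n + 2), ∀ v ∈ D.f (n + 2), ka z (u * v) = ka z u + ka z v
  ka_mul : ∀ z z' x, D.pi x = z → ∀ u ∈ D.f (n + 2), ka (z * z') u = ka z u + ka z' (x⁻¹ * u * x)
  ch : Lm → P → ZMod q
  ch_add : ∀ a, ∀ u ∈ D.f (n + 1), ∀ v ∈ D.f (n + 1), ch a (u * v) = ch a u + ch a v
  ch_zero : ∀ a, ∀ u ∈ D.f (n + 2), ch a u = 0
  ch_act : ∀ (x : P) a, ∀ y ∈ D.f (n + 1), ch (D.pi x • a) (x * y * x⁻¹) = ch a y +
    ka (D.pi x) (D.s (D.pi x • a) * (x * y * x⁻¹) * (D.s (D.pi x • a))⁻¹ * (x * y * x⁻¹)⁻¹)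

variable {D : LG q (n + 1) P Qg Lm} (T : Tw D)

theorem Tw.ad_ka (z : Qg) : Ad D.f (n + 2) (T.ka z) where
  add := T.ka_add z
  zero u hu := by
    rw [D.bot, Subgroup.mem_bot] at hu
    have h1 := T.ka_add z 1 (one_mem _) 1 (one_mem _)
    rw [one_mul, left_eq_add] at h1
    rw [hu, h1]

theorem Tw.ad_ch (a : Lm) : Ad D.f (n + 1) (T.ch a) where
  add := T.ch_add a
  zero := T.ch_zero a

theorem Tw.ka_conj (x : P) {u : P} (hu : u ∈ D.f (n + 2)) :
    T.ka (D.pi x) (x * u * x⁻¹) = -T.ka (D.pi x)⁻¹ u := by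
  have h1 : T.ka 1 u = 0 := by
    have h2 := T.ka_mul 1 1 1 (map_one _) u hu
    rw [one_mul] at h2
    simpa using h2
  have h3 := T.ka_mul (D.pi x)⁻¹ (D.pi x) x⁻¹ (map_inv _ _) u hu
  rw [inv_mul_cancel, h1, inv_inv] at h3
  exact (neg_eq_of_add_eq_zero_right h3.symm).symm

/-- the functional on the words of length `n + 2` -/
def Tw.Lam : List (Lr (Fin (n + 2)) Lm) → ZMod q
  | [] => 0
  | a :: w => if ((a :: w).map Lr.i).Nodup ∧ w.length = n + 1 ∧ (w.map Lr.i).getLast? = some 0 then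
      T.ch a.l (D.rw w) else 0

/-- the functional on the words of length `n + 1` -/
def Tw.Kw (l₀ : Lm) : List (Lr (Fin (n + 2)) Lm) → ZMod q
  | [] => 0
  | a :: w => if ((a :: w).map Lr.i).Nodup ∧ w.length = n ∧ (∀ b ∈ a :: w, b.i ≠ 0) then
      (if ((a :: w).map Lr.i).getLast? = some 1 then T.ch l₀ (D.rw (a :: w)) else 0) +
        T.ch a.l (D.rw (w ++ [⟨0, l₀⟩])) else 0

/-- the functional on functions -/
def Tw.Kp [Fintype Lm] (l₀ : Lm) (c : List (Lr (Fin (n + 2)) Lm) → ZMod q) : ZMod q :=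
  ∑ t : Fin (n + 1) → Lr (Fin (n + 2)) Lm, c (List.ofFn t) * T.Kw l₀ (List.ofFn t)

theorem rw_cg {I : Type} (D : LG q (n + 1) P Qg Lm) (x : P) (w : List (Lr I Lm)) (m : ℕ) (hw : w.length = m + 1) :
    D.rw (w.map fun a => D.pi x • a) * (x * D.rw w * x⁻¹)⁻¹ ∈ D.f (m + 2) ∧ D.rw w ∈ D.f (m + 1) := by
  have h1 : List.Forall₂ (fun a b => a ∈ D.f 1 ∧ b * a⁻¹ ∈ D.f 2) (w.map fun a => x * D.s a.l * x⁻¹)
      ((w.map fun a => D.pi x • a).map fun a => D.s a.l) := by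
    rw [List.map_map]
    clear hw
    induction w with
    | nil => exact List.Forall₂.nil
    | cons a w ih => exact List.Forall₂.cons ⟨fl_conj' D.fl 1 x _ (D.s_mem _), D.s_act x a.l⟩ ih
  have h2 := ll_rn D.fl _ _ h1 m (by rw [List.length_map, hw])
  have h3 : (w.map fun a => x * D.s a.l * x⁻¹) = (w.map fun a => D.s a.l).map fun a => x * a * x⁻¹ := by
    rw [List.map_map]
    rfl
  rw [h3, ← rn_cj] at h2
  refine ⟨h2.2, ?_⟩
  have h4 := fl_conj' D.fl (m + 1) x⁻¹ _ h2.1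
  rw [inv_inv] at h4
  have h5 : x⁻¹ * (x * D.rw w * x⁻¹) * x = D.rw w := by group
  rw [← h5]
  exact h4

theorem rw_cons {I : Type} (D : LG q (n + 1) P Qg Lm) (a : Lr I Lm) (w : List (Lr I Lm)) (hw : w ≠ []) :
    D.rw (a :: w) = D.s a.l * D.rw w * (D.s a.l)⁻¹ * (D.rw w)⁻¹ := by
  cases w with
  | nil => exact absurd rfl hw
  | cons b w => rfl

/-- the change of `ch` of the first letter -/
theorem Tw.ch_word (x : P) (a : Lm) {I : Type} (w : List (Lr I Lm)) (hw : w.length = n + 1) :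
    T.ch (D.pi x • a) (D.rw (w.map fun a => D.pi x • a)) =
      T.ch a (D.rw w) - T.ka (D.pi x)⁻¹ (D.s a * D.rw w * (D.s a)⁻¹ * (D.rw w)⁻¹) := by
  obtain ⟨h1, h2⟩ := rw_cg D x w n hw
  have h3 : x * D.rw w * x⁻¹ ∈ D.f (n + 1) := fl_conj' D.fl (n + 1) x _ h2
  rw [(T.ad_ch _).cg D.fl h3 h1, T.ch_act x a _ h2]
  have h4 : D.s (D.pi x • a) * (x * D.rw w * x⁻¹) * (D.s (D.pi x • a))⁻¹ * (x * D.rw w * x⁻¹)⁻¹ =
      x * (D.s a * D.rw w * (D.s a)⁻¹ * (D.rw w)⁻¹) * x⁻¹ := by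
    have h5 := cm_cg D.fl n (a := x * D.s a * x⁻¹) (a' := D.s (D.pi x • a)) (r := x * D.rw w * x⁻¹)
      (r' := x * D.rw w * x⁻¹) (fl_conj' D.fl 1 x _ (D.s_mem a)) (D.s_act x a) h3
      (by rw [mul_inv_cancel]; exact one_mem _)
    have h6 : D.f (n + 3) = ⊥ := D.bot
    rw [h6, Subgroup.mem_bot, mul_inv_eq_one] at h5
    rw [h5]
    group
  have h7 : D.s a * D.rw w * (D.s a)⁻¹ * (D.rw w)⁻¹ ∈ D.f (n + 2) := fl_cm' D.fl (by omega) (D.s_mem a) h2
  rw [h4, T.ka_conj x h7, sub_eq_add_neg]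

private theorem map_i (x : Qg) (v : List (Lr (Fin (n + 2)) Lm)) : (v.map fun a => x • a).map Lr.i = v.map Lr.i := by
  rw [List.map_map]
  rfl

/-- EQUIVARIANCE of `Lam` -/
theorem Tw.lam_act (z : Qg) (w : List (Lr (Fin (n + 2)) Lm)) :
    T.Lam (w.map fun a => z • a) = T.Lam w -
      (if (w.map Lr.i).Nodup ∧ w.length = n + 2 ∧ (w.map Lr.i).getLast? = some 0 then T.ka z⁻¹ (D.rw w) else 0) := by
  obtain ⟨x, rfl⟩ := D.sur z
  cases w with
  | nil =>
    rw [if_neg (by simp), sub_zero]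
    rfl
  | cons a w =>
    have h1 := map_i (D.pi x) (a :: w)
    have h2 := map_i (D.pi x) w
    rw [List.map_cons] at h1
    rw [List.map_cons, Tw.Lam, Tw.Lam, h1, h2, List.length_map]
    by_cases hc : (List.map Lr.i (a :: w)).Nodup ∧ w.length = n + 1 ∧ (List.map Lr.i w).getLast? = some 0
    · have hw : w ≠ [] := by
        intro h
        rw [h] at hc
        simp at hc
      have hc' : (List.map Lr.i (a :: w)).Nodup ∧ (a :: w).length = n + 2 ∧
          (List.map Lr.i (a :: w)).getLast? = some 0 := by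
        refine ⟨hc.1, by rw [List.length_cons]; omega, ?_⟩
        cases w with
        | nil => exact absurd rfl hw
        | cons b w => exact hc.2.2
      rw [if_pos hc, if_pos hc, if_pos hc', rw_cons D a w hw]
      exact T.ch_word x a.l w hc.2.1
    · rw [if_neg hc, if_neg hc, if_neg, sub_zero]
      rintro ⟨h3, h4, h5⟩
      rw [List.length_cons] at h4
      refine hc ⟨h3, by omega, ?_⟩
      cases w with
      | nil =>
        rw [List.length_nil] at h4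
        omega
      | cons b w => exact h5

/-- `Kw` from `Lam` -/
theorem Tw.kw_eq (l₀ : Lm) (w : List (Lr (Fin (n + 2)) Lm)) (h1 : (w.map Lr.i).Nodup) (h2 : w.length = n + 1)
    (h3 : ∀ b ∈ w, b.i ≠ 0) :
    T.Kw l₀ w = (if (w.map Lr.i).getLast? = some 1 then T.ch l₀ (D.rw w) else 0) + T.Lam (w ++ [⟨0, l₀⟩]) := by
  cases w with
  | nil => simp at h2
  | cons a w =>
    have hc : ((a :: (w ++ [(⟨0, l₀⟩ : Lr (Fin (n + 2)) Lm)])).map Lr.i).Nodup ∧
        (w ++ [(⟨0, l₀⟩ : Lr (Fin (n + 2)) Lm)]).length = n + 1 ∧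
        ((w ++ [(⟨0, l₀⟩ : Lr (Fin (n + 2)) Lm)]).map Lr.i).getLast? = some 0 := by
      refine ⟨?_, ?_, ?_⟩
      · have h4 : a :: (w ++ [(⟨0, l₀⟩ : Lr (Fin (n + 2)) Lm)]) = (a :: w) ++ [⟨0, l₀⟩] := rfl
        rw [h4, List.map_append, List.nodup_append]
        refine ⟨h1, by simp, ?_⟩
        intro i hi j hj
        obtain ⟨b, hb, rfl⟩ := List.mem_map.1 hi
        rw [List.map_cons, List.map_nil, List.mem_singleton] at hj
        rw [hj]
        exact h3 b hb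
      · rw [List.length_append, List.length_singleton]
        rw [List.length_cons] at h2
        omega
      · rw [List.map_append]
        simp
    rw [Tw.Kw, if_pos ⟨h1, by rw [List.length_cons] at h2; omega, h3⟩, List.cons_append, Tw.Lam, if_pos hc]

theorem Tw.kw_out (l₀ : Lm) (w : List (Lr (Fin (n + 2)) Lm))
    (h : ¬ ((w.map Lr.i).Nodup ∧ w.length = n + 1 ∧ ∀ b ∈ w, b.i ≠ 0)) : T.Kw l₀ w = 0 := by
  cases w with
  | nil => rfl
  | cons a w =>
    rw [Tw.Kw, if_neg]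
    rintro ⟨h1, h2, h3⟩
    exact h ⟨h1, by rw [List.length_cons]; omega, h3⟩

/-- the change of `Kw` -/
theorem Tw.kw_act (l₀ : Lm) (z : Qg) (hz : z • l₀ = l₀) (w : List (Lr (Fin (n + 2)) Lm)) (h1 : (w.map Lr.i).Nodup)
    (h2 : w.length = n + 1) (h3 : ∀ b ∈ w, b.i ≠ 0) :
    T.Kw l₀ (w.map fun a => z • a) = T.Kw l₀ w -
      (T.ka z⁻¹ (D.rw (w ++ [(⟨0, l₀⟩ : Lr (Fin (n + 2)) Lm)])) + if (w.map Lr.i).getLast? = some 1 then
        T.ka z⁻¹ (D.s l₀ * D.rw w * (D.s l₀)⁻¹ * (D.rw w)⁻¹) else 0) := by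
  obtain ⟨x, rfl⟩ := D.sur z
  have h4 : ∀ b ∈ w.map (fun a => D.pi x • a), b.i ≠ 0 := by
    intro b hb
    obtain ⟨c, hc, rfl⟩ := List.mem_map.1 hb
    exact h3 c hc
  rw [T.kw_eq l₀ w h1 h2 h3, T.kw_eq l₀ (w.map fun a => D.pi x • a) (by rw [map_i]; exact h1)
    (by rw [List.length_map, h2]) h4, map_i]
  have h5 : (w.map fun a => D.pi x • a) ++ [(⟨0, l₀⟩ : Lr (Fin (n + 2)) Lm)] =
      (w ++ [(⟨0, l₀⟩ : Lr (Fin (n + 2)) Lm)]).map fun a => D.pi x • a := by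
    rw [List.map_append, List.map_cons, List.map_nil, lr_smul, hz]
  have h6 : ((w ++ [(⟨0, l₀⟩ : Lr (Fin (n + 2)) Lm)]).map Lr.i).Nodup ∧
      (w ++ [(⟨0, l₀⟩ : Lr (Fin (n + 2)) Lm)]).length = n + 2 ∧
      ((w ++ [(⟨0, l₀⟩ : Lr (Fin (n + 2)) Lm)]).map Lr.i).getLast? = some 0 := by
    refine ⟨?_, ?_, ?_⟩
    · rw [List.map_append, List.nodup_append]
      refine ⟨h1, by simp, ?_⟩
      intro i hi j hj
      obtain ⟨b, hb, rfl⟩ := List.mem_map.1 hi
      rw [List.map_cons, List.map_nil, List.mem_singleton] at hj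
      rw [hj]
      exact h3 b hb
    · rw [List.length_append, List.length_singleton, h2]
    · rw [List.map_append]
      simp
  rw [h5, T.lam_act, if_pos h6]
  by_cases h7 : (w.map Lr.i).getLast? = some 1
  · rw [if_pos h7, if_pos h7, if_pos h7]
    have h8 := T.ch_word x l₀ w h2
    rw [hz] at h8
    rw [h8]
    ring
  · rw [if_neg h7, if_neg h7, if_neg h7]
    ring

variable [Fintype Lm]

theorem Tw.kp_pr (l₀ : Lm) (c : List (Lr (Fin (n + 2)) Lm) → ZMod q) : T.Kp l₀ c = pr (n + 1) c (T.Kw l₀) := rfl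

/-- INVARIANCE of `Kp` on brackets -/
theorem Tw.kp_br_act (l₀ : Lm) (z : Qg) (hz : z • l₀ = l₀) (v : List (Lr (Fin (n + 2)) Lm))
    (h1 : (v.map Lr.i).Nodup) (h2 : v.length = n + 1) (h3 : ∀ b ∈ v, b.i ≠ 0)
    (h4 : (v.map Lr.i).getLast? = some 1) :
    T.Kp l₀ (br (v.map fun a => z • a)) = T.Kp l₀ (br v) := by
  have e1 : T.Kp l₀ (br (v.map fun a => z • a)) = pr (n + 1) (br v) fun t => T.Kw l₀ (t.map fun a => z • a) := by
    unfold Tw.Kp pr
    rw [← qa_br]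
    refine Fintype.sum_equiv (Equiv.piCongrRight fun _ => MulAction.toPerm z⁻¹) _ _ fun t => ?_
    have h5 : List.ofFn (Equiv.piCongrRight (fun _ => MulAction.toPerm z⁻¹) t) =
        (List.ofFn t).map fun a => z⁻¹ • a := by
      rw [List.map_ofFn]
      rfl
    rw [h5]
    unfold qa
    congr 2
    rw [List.map_map]
    have h6 : ((fun a : Lr (Fin (n + 2)) Lm => z • a) ∘ fun a => z⁻¹ • a) = id := by
      funext a
      exact smul_inv_smul _ _
    rw [h6, List.map_id]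
  have e2 : (pr (n + 1) (br v) fun t => T.Kw l₀ (t.map fun a => z • a)) =
      pr (n + 1) (br v) (T.Kw l₀) - (pr (n + 1) (br v) (fun t => T.ka z⁻¹ (rn (t.map (fun a => D.s a.l) ++ [D.s l₀]))) +
        T.ka z⁻¹ (D.s l₀ * D.rw v * (D.s l₀)⁻¹ * (D.rw v)⁻¹)) := by
    have e3 : T.ka z⁻¹ (D.s l₀ * D.rw v * (D.s l₀)⁻¹ * (D.rw v)⁻¹) = pr (n + 1) (br v) fun t =>
        if (t.map Lr.i).getLast? = some 1 then T.ka z⁻¹ (D.s l₀ * D.rw t * (D.s l₀)⁻¹ * (D.rw t)⁻¹) else 0 := by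
      obtain ⟨v0, rfl⟩ : ∃ v0 : Fin (n + 1) → Lr (Fin (n + 2)) Lm, v = List.ofFn v0 := by
        have h5 : ∀ (m : ℕ), v.length = m → ∃ v0 : Fin m → Lr (Fin (n + 2)) Lm, v = List.ofFn v0 := by
          intro m hm
          subst hm
          exact ⟨v.get, (List.ofFn_get v).symm⟩
        exact h5 _ h2
      unfold pr
      rw [Finset.sum_eq_single v0]
      · dsimp only
        rw [if_pos h4, br_dual _ h1 h4 _ h4, if_pos rfl, one_mul]
      · intro u _ hu
        dsimp only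
        by_cases h5 : ((List.ofFn u).map Lr.i).getLast? = some 1
        · rw [br_dual _ h1 h4 _ h5, if_neg (fun h => hu (List.ofFn_injective h)), zero_mul]
        · rw [if_neg h5, mul_zero]
      · intro h
        exact absurd (Finset.mem_univ _) h
    rw [e3]
    unfold pr
    rw [← Finset.sum_add_distrib, ← Finset.sum_sub_distrib]
    refine Finset.sum_congr rfl fun t _ => ?_
    dsimp only
    by_cases h5 : (br v : List (Lr (Fin (n + 2)) Lm) → ZMod q) (List.ofFn t) = 0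
    · rw [h5, zero_mul, zero_mul, zero_mul, zero_mul, add_zero, sub_zero]
    · have h6 := br_perm v _ h5
      rw [T.kw_act l₀ z hz _ (((h6.map Lr.i).nodup_iff).2 h1) (by rw [h6.length_eq, h2])
        fun b hb => h3 b (h6.mem_iff.1 hb)]
      have h7 : D.rw (List.ofFn t ++ [(⟨0, l₀⟩ : Lr (Fin (n + 2)) Lm)]) =
          rn ((List.ofFn t).map (fun a => D.s a.l) ++ [D.s l₀]) := by
        unfold LG.rw
        rw [List.map_append]
        rfl
      rw [h7]
      ring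
  have e4 := lie_ev D.fl (fun a : Lr (Fin (n + 2)) Lm => D.s a.l) (fun a => D.s_mem _) n v h2 1 (D.s l₀) le_rfl
    (D.s_mem _) (T.ka z⁻¹) (T.ad_ka _)
  have e5 : T.ka z⁻¹ (D.rw v * D.s l₀ * (D.rw v)⁻¹ * (D.s l₀)⁻¹) +
      T.ka z⁻¹ (D.s l₀ * D.rw v * (D.s l₀)⁻¹ * (D.rw v)⁻¹) = 0 := by
    have h5 := (rw_cg D 1 v n h2).2
    have h6 : D.s l₀ * D.rw v * (D.s l₀)⁻¹ * (D.rw v)⁻¹ ∈ D.f (n + 2) := fl_cm' D.fl (by omega) (D.s_mem l₀) h5
    have h7 : D.rw v * D.s l₀ * (D.rw v)⁻¹ * (D.s l₀)⁻¹ = (D.s l₀ * D.rw v * (D.s l₀)⁻¹ * (D.rw v)⁻¹)⁻¹ := by group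
    rw [h7, (T.ad_ka _).inv h6, neg_add_cancel]
  rw [e1, e2, e4, T.kp_pr]
  have e6 : T.ka z⁻¹ (rn (v.map fun a => D.s a.l) * D.s l₀ * (rn (v.map fun a => D.s a.l))⁻¹ * (D.s l₀)⁻¹) =
      T.ka z⁻¹ (D.rw v * D.s l₀ * (D.rw v)⁻¹ * (D.s l₀)⁻¹) := rfl
  rw [e6, e5, sub_zero]

/-- `Kp` of a bracket from `Lam` -/
theorem Tw.kp_eq (l₀ : Lm) (v : List (Lr (Fin (n + 2)) Lm))
    (h1 : (v.map Lr.i).Nodup) (h2 : v.length = n + 1) (h3 : ∀ b ∈ v, b.i ≠ 0)
    (h4 : (v.map Lr.i).getLast? = some 1) :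
    T.Kp l₀ (br v) = T.ch l₀ (D.rw v) + pr (n + 1) (br v) fun t => T.Lam (t ++ [⟨0, l₀⟩]) := by
  have e3 : T.ch l₀ (D.rw v) = pr (n + 1) (br v) fun t =>
      if (t.map Lr.i).getLast? = some 1 then T.ch l₀ (D.rw t) else 0 := by
    obtain ⟨v0, rfl⟩ : ∃ v0 : Fin (n + 1) → Lr (Fin (n + 2)) Lm, v = List.ofFn v0 := by
      have h5 : ∀ (m : ℕ), v.length = m → ∃ v0 : Fin m → Lr (Fin (n + 2)) Lm, v = List.ofFn v0 := by
        intro m hm
        subst hm
        exact ⟨v.get, (List.ofFn_get v).symm⟩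
      exact h5 _ h2
    unfold pr
    rw [Finset.sum_eq_single v0]
    · dsimp only
      rw [if_pos h4, br_dual _ h1 h4 _ h4, if_pos rfl, one_mul]
    · intro u _ hu
      dsimp only
      by_cases h5 : ((List.ofFn u).map Lr.i).getLast? = some 1
      · rw [br_dual _ h1 h4 _ h5, if_neg (fun h => hu (List.ofFn_injective h)), zero_mul]
      · rw [if_neg h5, mul_zero]
    · intro h
      exact absurd (Finset.mem_univ _) h
  rw [e3, T.kp_pr]
  unfold pr
  rw [← Finset.sum_add_distrib]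
  refine Finset.sum_congr rfl fun t _ => ?_
  dsimp only
  by_cases h5 : (br v : List (Lr (Fin (n + 2)) Lm) → ZMod q) (List.ofFn t) = 0
  · rw [h5, zero_mul, zero_mul, zero_mul, add_zero]
  · have h6 := br_perm v _ h5
    rw [T.kw_eq l₀ _ (((h6.map Lr.i).nodup_iff).2 h1) (by rw [h6.length_eq, h2])
      fun b hb => h3 b (h6.mem_iff.1 hb), mul_add]

/-- the functional `kl (Kw l₀)` is invariant -/
theorem Tw.kl_act (l₀ : Lm) (z : Qg) (hz : z • l₀ = l₀) (v : List (Lr (Fin (n + 2)) Lm)) (h2 : v.length = n + 1) :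
    kl (T.Kw l₀) (v.map fun a => z • a) = kl (T.Kw l₀) v := by
  unfold kl
  rw [map_i]
  by_cases h4 : (v.map Lr.i).getLast? = some 1
  · rw [if_pos h4, if_pos h4]
    by_cases h5 : (v.map Lr.i).Nodup ∧ ∀ b ∈ v, b.i ≠ 0
    · exact T.kp_br_act l₀ z hz v h5.1 h2 h5.2 h4
    · have h6 : ∀ v' : List (Lr (Fin (n + 2)) Lm), v'.map Lr.i = v.map Lr.i →
          ∑ t : Fin (n + 1) → Lr (Fin (n + 2)) Lm, br v' (List.ofFn t) * T.Kw l₀ (List.ofFn t) = 0 := by
        intro v' hv'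
        refine Finset.sum_eq_zero fun t _ => ?_
        by_cases h7 : (br v' : List (Lr (Fin (n + 2)) Lm) → ZMod q) (List.ofFn t) = 0
        · rw [h7, zero_mul]
        · have h8 := br_perm v' _ h7
          rw [T.kw_out, mul_zero]
          rintro ⟨h9, _, h10⟩
          apply h5
          rw [← hv']
          refine ⟨((h8.map Lr.i).nodup_iff).1 h9, ?_⟩
          have h11 : ∀ i ∈ v'.map Lr.i, i ≠ 0 := by
            intro i hi
            obtain ⟨b, hb, rfl⟩ := List.mem_map.1 hi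
            exact h10 b (h8.mem_iff.2 hb)
          rw [hv'] at h11
          intro b hb
          exact h11 _ (List.mem_map.2 ⟨b, hb, rfl⟩)
      rw [h6 _ (map_i z v), h6 v rfl]
  · rw [if_neg h4, if_neg h4]

/-- invariance on all functions (`Cv.Inv` of H62/BM) -/
theorem Tw.inv_kl (l₀ : Lm) (z : Qg) (hz : z • l₀ = l₀) (c : List (Lr (Fin (n + 2)) Lm) → ZMod q) :
    ∑ t : Fin (n + 1) → Lr (Fin (n + 2)) Lm, qa z c (List.ofFn t) * kl (T.Kw l₀) (List.ofFn t) =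
      ∑ t : Fin (n + 1) → Lr (Fin (n + 2)) Lm, c (List.ofFn t) * kl (T.Kw l₀) (List.ofFn t) := by
  refine Fintype.sum_equiv (Equiv.piCongrRight fun _ => MulAction.toPerm z⁻¹) _ _ fun t => ?_
  have h5 : List.ofFn (Equiv.piCongrRight (fun _ => MulAction.toPerm z⁻¹) t) =
      (List.ofFn t).map fun a => z⁻¹ • a := by
    rw [List.map_ofFn]
    rfl
  rw [h5, T.kl_act l₀ z⁻¹ (by rw [inv_smul_eq_iff, hz]) _ (by rw [List.length_ofFn])]
  rfl

end E

end H42.BX
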