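import Pool.Agent.H24.RK.Rmg

/-!
# [BLX BRX] the product formula for cocycles of a finite group with values in `ZMod (p ^ κ)`, arbitrary inertia

`brgx`: `e` a normalised 2-cocycle of the finite group `R` with values in `ZMod (p ^ κ)`, `ρ : Gal → R`, `e (ρ σ) (ρ τ) = 0` for `σ, τ` in the
decomposition groups at `S0`, inertia of order dividing `p ^ k`: the sum over `T` of `e (F_v) (t_v) - e (t_v) (F_v)` is `0`. From `H24.RK.rmgn`.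
-/

set_option autoImplicit false

open scoped NumberField
open IsDedekindDomain
open scoped Classical

noncomputable section

namespace H42.BX

open H63.MA H38.BB H38.BG H57.PC H57.BRA H89.BRG H57.RQ Pool.Agent.H24.RM H24.RK

variable {K : Type} [Field K] [NumberField K] {Ω : Type} [Field Ω] [Algebra K Ω]
  [IsAlgClosure K Ω] {p : ℕ} {ζ : K}

theorem brgx (hp : p.Prime) {N : ℕ} (hmm : H57.RQ.N.MM p (N + 1) K) (hp2 : MOne p K)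
    (hζ : IsPrimitiveRoot ζ p) {z : K} (hz : IsPrimitiveRoot z (p ^ (N + 1))) (hzζ : z ^ p ^ N = ζ)
    {D : RD0 K p ζ} {L : LDs D Ω} (hL : NL (N + 1) z L) (Q : DP K Ω) (Fr : FR L) {κ k : ℕ}
    (hkm : max k κ + κ ≤ N + 1) {R : Type} [Group R] [Finite R] {e : R → R → ZMod (p ^ κ)}
    (he : Coc (p ^ κ) e) {ρ : Gal(Ω/K) →* R} (hρ : H38.ML.FT ρ)
    (hS : ∀ v ∈ D.S0, ∀ σ ∈ dec (K := K) (Q.P v), ∀ τ ∈ dec (K := K) (Q.P v), e (ρ σ) (ρ τ) = 0)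
    (htm : ∀ v, v ∉ D.S0 → ∀ τ ∈ inr L v, ρ τ ^ (p ^ k) = 1)
    (T : Finset (Pl K)) (hT : ∀ v ∈ T, v ∉ D.S0) (hur : ∀ v, v ∉ D.S0 → v ∉ T → ρ (L.t v) = 1) :
    ∑ v ∈ T, (e (ρ (Fr.F v)) (ρ (L.t v)) - e (ρ (L.t v)) (ρ (Fr.F v))) = 0 := by
  have hne : NeZero (p ^ κ) := ⟨(pow_pos hp.pos _).ne'⟩
  obtain ⟨C, hCdef⟩ : ∃ C : Gal(Ω/K) → Gal(Ω/K) → ℤ, C = fun σ τ => ((e (ρ σ) (ρ τ)).val : ℤ) :=
    ⟨_, rfl⟩
  have hCk : ∀ σ τ, ((C σ τ : ℤ) : ZMod (p ^ κ)) = e (ρ σ) (ρ τ) := fun σ τ => by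
    rw [hCdef]
    show ((((e (ρ σ) (ρ τ)).val : ℕ) : ℤ) : ZMod (p ^ κ)) = _
    rw [Int.cast_natCast, ZMod.natCast_zmod_val]
  have hC0 : ∀ σ τ, e (ρ σ) (ρ τ) = 0 → C σ τ = 0 := fun σ τ h => by
    rw [hCdef]
    show ((e (ρ σ) (ρ τ)).val : ℤ) = 0
    rw [h, ZMod.val_zero, Nat.cast_zero]
  have hpn : ((p ^ κ : ℕ) : ℤ) = (p : ℤ) ^ κ := by push_cast; rfl
  have hC : IZ ((p : ℤ) ^ κ) C := by
    refine ⟨fun σ => hC0 _ _ (by rw [map_one, he.l1]), fun σ => hC0 _ _ (by rw [map_one, he.r1]),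
      fun σ τ υ => ?_⟩
    rw [← hpn]
    apply (ZMod.intCast_zmod_eq_zero_iff_dvd _ (p ^ κ)).1
    rw [Int.cast_sub, Int.cast_add, Int.cast_sub, hCk, hCk, hCk, hCk]
    have h1 := he.co (ρ σ) (ρ τ) (ρ υ)
    rw [map_mul, map_mul]
    linear_combination h1
  have h4 := rmgn hp hmm hp2 hζ hz hzζ hL Q Fr κ (max k κ) (le_max_right k κ) hkm R ρ hρ C hC
    (fun σ σ' τ τ' h h' => by
      rw [hCdef]
      show ((e (ρ σ) (ρ τ)).val : ℤ) = ((e (ρ σ') (ρ τ')).val : ℤ)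
      rw [h, h'])
    (fun v hv => by
      refine ⟨fun _ => 0, ⟨⊥, inferInstance, fun _ _ _ => rfl⟩, fun σ hσ τ hτ => ?_⟩
      rw [hC0 σ τ (hS v hv σ hσ τ hτ)]
      unfold dd
      simp)
    (fun v hv τ hτ => by
      obtain ⟨j, hj⟩ := pow_dvd_pow p (le_max_left k κ)
      rw [hj, pow_mul, htm v hv τ hτ, one_pow]) T hT hur
  rw [← hpn] at h4
  have h6 := (ZMod.intCast_zmod_eq_zero_iff_dvd _ (p ^ κ)).2 h4
  rw [← h6, Int.cast_sum]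
  refine Finset.sum_congr rfl fun v _ => ?_
  rw [Int.cast_sub, hCk, hCk]

end H42.BX
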