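import Pool.Agent.H62.BL.Df

/-!
# [BLX CSH] Cauchy inequality for boxes with factors that miss a variable

`csh`: as `H62.BL.csa`, with factors `h k`, `‖h k‖ ≤ 1`, `h k (update q k x) = h k q`, on the left side only.
PROOF: in the step the factor `h 0` of the first coordinate does not depend on it and is removed by Cauchy-Schwarz in the other
coordinates; the products `h k (x1, ·) conj (h k (x0, ·))`, `k > 0`, miss the variable `k`.
-/

set_option autoImplicit false

open scoped Classical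

noncomputable section

namespace H42.BX

open H62.BL (cj vt)

private theorem csa_sum {X M : Type} [AddCommMonoid M] {m : ℕ} (B : Fin (m + 1) → Finset X)
    (F : (Fin (m + 1) → X) → M) :
    ∑ q ∈ Fintype.piFinset B, F q =
      ∑ x ∈ B 0, ∑ q ∈ Fintype.piFinset (Fin.tail B), F (Fin.cons x q) := by
  rw [← Finset.sum_product']
  refine Finset.sum_nbij' (fun q => (q 0, Fin.tail q)) (fun y => Fin.cons y.1 y.2) ?_ ?_ ?_ ?_ ?_
  · intro q hq
    rw [Fintype.mem_piFinset] at hq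
    rw [Finset.mem_product, Fintype.mem_piFinset]
    exact ⟨hq 0, fun k => hq k.succ⟩
  · rintro ⟨x, q⟩ hq
    rw [Finset.mem_product, Fintype.mem_piFinset] at hq
    rw [Fintype.mem_piFinset]
    intro k
    refine Fin.cases ?_ (fun i => ?_) k
    · exact hq.1
    · exact hq.2 i
  · intro q _
    exact Fin.cons_self_tail q
  · rintro ⟨x, q⟩ _
    rfl
  · intro q _
    show F q = F (Fin.cons (q 0) (Fin.tail q))
    rw [Fin.cons_self_tail]

private theorem csa_prod {m : ℕ} (F : (Fin (m + 1) → Bool) → ℂ) :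
    ∏ e, F e = ∏ e : Fin m → Bool, F (Fin.cons true e) * F (Fin.cons false e) := by
  rw [← (Fin.consEquiv (fun _ : Fin (m + 1) => Bool)).prod_comp, Fintype.prod_prod_type,
    Fintype.prod_bool, ← Finset.prod_mul_distrib]
  rfl

private theorem csa_true {m : ℕ} (e : Fin m → Bool) (z : ℂ) :
    cj (Fin.cons true e : Fin (m + 1) → Bool) z = cj e z := by
  unfold cj
  rw [Finset.card_filter, Fin.sum_univ_succ, Finset.card_filter]
  simp only [Fin.cons_zero, Fin.cons_succ, Bool.true_eq_false, if_false, zero_add]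

private theorem csa_false {m : ℕ} (e : Fin m → Bool) (z : ℂ) :
    cj (Fin.cons false e : Fin (m + 1) → Bool) z = (starRingEnd ℂ) (cj e z) := by
  unfold cj
  rw [Finset.card_filter, Fin.sum_univ_succ, Finset.card_filter]
  simp only [Fin.cons_zero, Fin.cons_succ, if_true]
  by_cases h : Even (∑ i, if e i = false then 1 else 0)
  · rw [if_pos h, if_neg]
    rw [Nat.even_add]
    intro h2
    exact absurd (h2.2 h) (by decide)
  · rw [if_neg h, if_pos, Complex.conj_conj]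
    rw [Nat.even_add]
    exact ⟨fun h2 => absurd h2 (by decide), fun h2 => absurd h2 h⟩

private theorem csa_mul {m : ℕ} (e : Fin m → Bool) (z w : ℂ) :
    cj e (z * w) = cj e z * cj e w := by
  unfold cj
  split_ifs
  · rfl
  · exact map_mul _ _ _

private theorem csa_conj {m : ℕ} (e : Fin m → Bool) (z : ℂ) :
    cj e ((starRingEnd ℂ) z) = (starRingEnd ℂ) (cj e z) := by
  unfold cj
  split_ifs
  · rfl
  · rfl

private theorem csa_vt1 {X : Type} {m : ℕ} (x0 x1 : X) (q0 q1 : Fin m → X) (e : Fin m → Bool) :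
    vt (Fin.cons x0 q0 : Fin (m + 1) → X) (Fin.cons x1 q1) (Fin.cons true e) =
      Fin.cons x1 (vt q0 q1 e) := by
  funext k
  refine Fin.cases ?_ (fun i => ?_) k
  · rfl
  · rfl

private theorem csa_vt0 {X : Type} {m : ℕ} (x0 x1 : X) (q0 q1 : Fin m → X) (e : Fin m → Bool) :
    vt (Fin.cons x0 q0 : Fin (m + 1) → X) (Fin.cons x1 q1) (Fin.cons false e) =
      Fin.cons x0 (vt q0 q1 e) := by
  funext k
  refine Fin.cases ?_ (fun i => ?_) k
  · rfl
  · rfl

/-- the box sum -/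
private def bxs {X : Type} {m : ℕ} (B : Fin m → Finset X) (f : (Fin m → X) → ℂ) : ℂ :=
  ∑ q1 ∈ Fintype.piFinset B, ∑ q0 ∈ Fintype.piFinset B, ∏ e : Fin m → Bool, cj e (f (vt q0 q1 e))

private theorem csa_pt {X : Type} {m : ℕ} (f : (Fin (m + 1) → X) → ℂ) (x0 x1 : X)
    (q0 q1 : Fin m → X) :
    ∏ e, cj e (f (vt (Fin.cons x0 q0 : Fin (m + 1) → X) (Fin.cons x1 q1) e)) =
      (∏ e, cj e (f (Fin.cons x1 (vt q0 q1 e)))) *
        (starRingEnd ℂ) (∏ e, cj e (f (Fin.cons x0 (vt q0 q1 e)))) := by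
  rw [csa_prod, map_prod, ← Finset.prod_mul_distrib]
  refine Finset.prod_congr rfl fun e _ => ?_
  rw [csa_true, csa_false, csa_vt1, csa_vt0]

private theorem bxs_succ {X : Type} {m : ℕ} (B : Fin (m + 1) → Finset X)
    (f : (Fin (m + 1) → X) → ℂ) :
    bxs B f = ∑ x1 ∈ B 0, ∑ x0 ∈ B 0, bxs (Fin.tail B)
      (fun q => f (Fin.cons x1 q) * (starRingEnd ℂ) (f (Fin.cons x0 q))) := by
  unfold bxs
  rw [csa_sum B]
  refine Finset.sum_congr rfl fun x1 _ => ?_
  rw [Finset.sum_congr rfl fun q1 _ => csa_sum B _, Finset.sum_comm]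
  refine Finset.sum_congr rfl fun x0 _ => Finset.sum_congr rfl fun q1 _ =>
    Finset.sum_congr rfl fun q0 _ => ?_
  rw [csa_pt, map_prod, ← Finset.prod_mul_distrib]
  refine Finset.prod_congr rfl fun e _ => ?_
  rw [csa_mul, csa_conj]

private theorem bxs_nonneg {X : Type} {m : ℕ} (B : Fin (m + 1) → Finset X)
    (f : (Fin (m + 1) → X) → ℂ) : ∃ r : ℝ, 0 ≤ r ∧ bxs B f = r := by
  refine ⟨∑ q1 ∈ Fintype.piFinset (Fin.tail B), ∑ q0 ∈ Fintype.piFinset (Fin.tail B),
    ‖∑ x ∈ B 0, ∏ e, cj e (f (Fin.cons x (vt q0 q1 e)))‖ ^ 2, ?_, ?_⟩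
  · exact Finset.sum_nonneg fun _ _ => Finset.sum_nonneg fun _ _ => sq_nonneg _
  · unfold bxs
    rw [csa_sum B, Finset.sum_comm, Complex.ofReal_sum]
    refine Finset.sum_congr rfl fun q1 _ => ?_
    rw [Finset.sum_congr rfl fun x1 _ => (csa_sum B _).trans Finset.sum_comm, Finset.sum_comm,
      Complex.ofReal_sum]
    refine Finset.sum_congr rfl fun q0 _ => ?_
    rw [Complex.ofReal_pow, ← Complex.mul_conj', map_sum, Finset.sum_mul_sum]
    exact Finset.sum_congr rfl fun x1 _ => Finset.sum_congr rfl fun x0 _ => csa_pt f x0 x1 q0 q1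

private theorem bxs_zero {X : Type} (B : Fin 0 → Finset X) (f : (Fin 0 → X) → ℂ) :
    bxs B f = ∑ q ∈ Fintype.piFinset B, f q := by
  have h1 : Fintype.piFinset B = {fun k => k.elim0} := by
    ext q
    rw [Fintype.mem_piFinset, Finset.mem_singleton]
    exact ⟨fun _ => funext fun k => k.elim0, fun _ k => k.elim0⟩
  unfold bxs
  rw [h1, Finset.sum_singleton, Finset.sum_singleton, Finset.sum_singleton, Fintype.prod_unique]
  unfold cj
  rw [if_pos]
  · congr 1
    exact funext fun k => k.elim0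
  · rw [Finset.univ_eq_empty, Finset.filter_empty, Finset.card_empty]
    exact Even.zero

private theorem csa_pm {ι : Type} (s : Finset ι) (a : ι → ℝ) (ha : ∀ i ∈ s, 0 ≤ a i) (n : ℕ) :
    (∑ i ∈ s, a i) ^ (n + 1) ≤ (s.card : ℝ) ^ n * ∑ i ∈ s, a i ^ (n + 1) := by
  rcases s.eq_empty_or_nonempty with rfl | hs
  · rw [Finset.sum_empty, Finset.sum_empty, mul_zero, zero_pow (Nat.succ_ne_zero n)]
  · have h2 := pow_sum_div_card_le_sum_pow (s := s) (f := a) ha n
    have h3 : (0 : ℝ) < (s.card : ℝ) ^ n := pow_pos (Nat.cast_pos.2 hs.card_pos) n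
    rwa [div_le_iff₀ h3, mul_comm] at h2

/-- Cauchy-Schwarz in the first coordinate; the factor which does not depend on it is removed -/
private theorem csh_cs {X : Type} {m : ℕ} (B : Fin (m + 1) → Finset X)
    (f : (Fin (m + 1) → X) → ℂ) (h0 : (Fin m → X) → ℂ) (hb : ∀ q, ‖h0 q‖ ≤ 1) :
    ∃ R : ℝ, 0 ≤ R ∧ ‖∑ q ∈ Fintype.piFinset B, h0 (Fin.tail q) * f q‖ ^ 2 ≤
      (∏ k, ((Fin.tail B k).card : ℝ)) * R ∧
      (R : ℂ) = ∑ x1 ∈ B 0, ∑ x0 ∈ B 0, ∑ q ∈ Fintype.piFinset (Fin.tail B),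
        f (Fin.cons x1 q) * (starRingEnd ℂ) (f (Fin.cons x0 q)) := by
  refine ⟨∑ q ∈ Fintype.piFinset (Fin.tail B), ‖∑ x ∈ B 0, f (Fin.cons x q)‖ ^ 2,
    Finset.sum_nonneg fun _ _ => sq_nonneg _,
    ?_, ?_⟩
  · rw [csa_sum B, Finset.sum_comm]
    have h1 : (∏ k, ((Fin.tail B k).card : ℝ)) = ((Fintype.piFinset (Fin.tail B)).card : ℝ) := by
      rw [Fintype.card_piFinset]
      push_cast
      rfl
    rw [h1]
    refine le_trans (pow_le_pow_left₀ (norm_nonneg _) ?_ 2) sq_sum_le_card_mul_sum_sq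
    refine (norm_sum_le _ _).trans (Finset.sum_le_sum fun q _ => ?_)
    have h2 : ∑ x ∈ B 0, h0 (Fin.tail (Fin.cons x q : Fin (m + 1) → X)) * f (Fin.cons x q) =
        h0 q * ∑ x ∈ B 0, f (Fin.cons x q) := by
      rw [Finset.mul_sum]
      rfl
    rw [h2, norm_mul]
    exact mul_le_of_le_one_left (norm_nonneg _) (hb q)
  · rw [Complex.ofReal_sum, Finset.sum_congr rfl fun x1 _ => Finset.sum_comm, Finset.sum_comm]
    refine Finset.sum_congr rfl fun q _ => ?_
    rw [Complex.ofReal_pow, ← Complex.mul_conj', map_sum, Finset.sum_mul_sum]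

/-- the factors after the first step -/
private def hs {X : Type} {m : ℕ} (h : Fin (m + 1) → (Fin (m + 1) → X) → ℂ) (y : X × X) :
    Fin m → (Fin m → X) → ℂ := fun k q =>
  h k.succ (Fin.cons y.1 q) * (starRingEnd ℂ) (h k.succ (Fin.cons y.2 q))

private theorem hs_le {X : Type} {m : ℕ} {h : Fin (m + 1) → (Fin (m + 1) → X) → ℂ}
    (hb : ∀ k q, ‖h k q‖ ≤ 1) (y : X × X) (k : Fin m) (q : Fin m → X) : ‖hs h y k q‖ ≤ 1 := by
  unfold hs
  rw [norm_mul, RCLike.norm_conj]
  exact mul_le_one₀ (hb _ _) (norm_nonneg _) (hb _ _)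

private theorem cons_upd {X : Type} {m : ℕ} (x : X) (q : Fin m → X) (k : Fin m) (z : X) :
    (Fin.cons x (Function.update q k z) : Fin (m + 1) → X) =
      Function.update (Fin.cons x q : Fin (m + 1) → X) k.succ z := by
  funext i
  refine Fin.cases ?_ (fun i => ?_) i
  · rw [Function.update_of_ne (Fin.succ_ne_zero k).symm]
    rfl
  · by_cases h : i = k
    · subst h
      rw [Function.update_self, Fin.cons_succ, Function.update_self]
    · rw [Function.update_of_ne (fun h2 => h (Fin.succ_injective _ h2)), Fin.cons_succ,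
        Fin.cons_succ, Function.update_of_ne h]

private theorem hs_upd {X : Type} {m : ℕ} {h : Fin (m + 1) → (Fin (m + 1) → X) → ℂ}
    (hm : ∀ k q x, h k (Function.update q k x) = h k q) (y : X × X) (k : Fin m) (q : Fin m → X)
    (x : X) : hs h y k (Function.update q k x) = hs h y k q := by
  unfold hs
  rw [cons_upd, cons_upd, hm, hm]

/-- one step: the factor of the first coordinate is removed -/
private theorem csh_step {X : Type} {m : ℕ} (B : Fin (m + 1) → Finset X)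
    (f : (Fin (m + 1) → X) → ℂ) (h : Fin (m + 1) → (Fin (m + 1) → X) → ℂ)
    (hb : ∀ k q, ‖h k q‖ ≤ 1) (hm : ∀ k q x, h k (Function.update q k x) = h k q) :
    ∃ R : ℝ, 0 ≤ R ∧ ‖∑ q ∈ Fintype.piFinset B, f q * ∏ k, h k q‖ ^ 2 ≤
      (∏ k, ((Fin.tail B k).card : ℝ)) * R ∧
      (R : ℂ) = ∑ x1 ∈ B 0, ∑ x0 ∈ B 0, ∑ q ∈ Fintype.piFinset (Fin.tail B),
        (f (Fin.cons x1 q) * (starRingEnd ℂ) (f (Fin.cons x0 q))) * ∏ k, hs h (x1, x0) k q := by
  rcases (Fintype.piFinset B).eq_empty_or_nonempty with he | ⟨p0, -⟩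
  · rcases (B 0 ×ˢ B 0).eq_empty_or_nonempty with h0 | ⟨y0, hy0⟩
    · refine ⟨0, le_rfl, ?_, ?_⟩
      · rw [he, Finset.sum_empty, norm_zero, mul_zero]
        norm_num
      · have h1 : B 0 = ∅ := by
          rw [Finset.eq_empty_iff_forall_notMem]
          intro x hx
          have : (x, x) ∈ B 0 ×ˢ B 0 := Finset.mem_product.2 ⟨hx, hx⟩
          rw [h0] at this
          exact absurd this (Finset.notMem_empty _)
        rw [h1, Finset.sum_empty, Complex.ofReal_zero]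
    · have h1 : Fintype.piFinset (Fin.tail B) = ∅ := by
        rw [Finset.eq_empty_iff_forall_notMem]
        intro q hq
        have : (Fin.cons y0.1 q : Fin (m + 1) → X) ∈ Fintype.piFinset B := by
          rw [Fintype.mem_piFinset] at hq ⊢
          intro k
          refine Fin.cases ?_ (fun i => ?_) k
          · exact (Finset.mem_product.1 hy0).1
          · exact hq i
        rw [he] at this
        exact absurd this (Finset.notMem_empty _)
      refine ⟨0, le_rfl, ?_, ?_⟩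
      · rw [he, Finset.sum_empty, norm_zero, mul_zero]
        norm_num
      · rw [h1]
        simp
  · obtain ⟨R, hR, h1, h2⟩ := csh_cs B (fun q => f q * ∏ k : Fin m, h k.succ q)
      (fun q => h 0 (Fin.cons (p0 0) q)) (fun q => hb _ _)
    refine ⟨R, hR, ?_, ?_⟩
    · refine le_trans (le_of_eq ?_) h1
      congr 2
      refine Finset.sum_congr rfl fun q _ => ?_
      rw [Fin.prod_univ_succ]
      have h3 : h 0 (Fin.cons (p0 0) (Fin.tail q)) = h 0 q := by
        have h4 : (Fin.cons (p0 0) (Fin.tail q) : Fin (m + 1) → X) = Function.update q 0 (p0 0) := by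
          conv_rhs => rw [← Fin.cons_self_tail q]
          rw [Fin.update_cons_zero]
        rw [h4, hm]
      rw [h3]
      ring
    · rw [h2]
      refine Finset.sum_congr rfl fun x1 _ => Finset.sum_congr rfl fun x0 _ =>
        Finset.sum_congr rfl fun q _ => ?_
      unfold hs
      rw [Finset.prod_mul_distrib, ← map_prod, map_mul]
      ring

private theorem csh_main {X : Type} (m : ℕ) : ∀ (B : Fin (m + 1) → Finset X)
    (f : (Fin (m + 1) → X) → ℂ) (h : Fin (m + 1) → (Fin (m + 1) → X) → ℂ),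
    (∀ k q, ‖h k q‖ ≤ 1) → (∀ k q x, h k (Function.update q k x) = h k q) →
    ‖∑ q ∈ Fintype.piFinset B, f q * ∏ k, h k q‖ ^ (2 ^ (m + 1)) * (∏ k, ((B k).card : ℝ)) ^ 2 ≤
      (∏ k, ((B k).card : ℝ)) ^ (2 ^ (m + 1)) * ‖bxs B f‖ := by
  induction m with
  | zero =>
    intro B f h hb hm
    obtain ⟨R, hR, h1, h2⟩ := csh_step B f h hb hm
    have h3 : bxs B f = R := by
      rw [h2, bxs_succ]
      refine Finset.sum_congr rfl fun x1 _ => Finset.sum_congr rfl fun x0 _ => ?_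
      rw [bxs_zero]
      refine Finset.sum_congr rfl fun q _ => ?_
      rw [Finset.univ_eq_empty, Finset.prod_empty, mul_one]
    have h4 : (∏ k, ((Fin.tail B k).card : ℝ)) = 1 := by
      rw [Finset.univ_eq_empty, Finset.prod_empty]
    rw [h4, one_mul] at h1
    rw [h3, Complex.norm_real, Real.norm_of_nonneg hR, show 2 ^ (0 + 1) = 2 from rfl, mul_comm]
    exact mul_le_mul_of_nonneg_left h1 (sq_nonneg _)
  | succ m ih =>
    intro B f h hb hm
    obtain ⟨R, hR, h1, h2⟩ := csh_step B f h hb hm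
    set k : ℕ := 2 ^ (m + 1) with hk
    have hk1 : 1 ≤ k := Nat.one_le_two_pow
    obtain ⟨j, hj⟩ : ∃ j, k = j + 1 := ⟨k - 1, by omega⟩
    let g : X × X → (Fin (m + 1) → X) → ℂ := fun y q =>
      f (Fin.cons y.1 q) * (starRingEnd ℂ) (f (Fin.cons y.2 q))
    let S : X × X → ℂ := fun y => ∑ q ∈ Fintype.piFinset (Fin.tail B), g y q * ∏ k, hs h y k q
    let n0 : ℝ := ((B 0).card : ℝ)
    let N' : ℝ := ∏ k, ((Fin.tail B k).card : ℝ)
    have hn0 : 0 ≤ n0 := Nat.cast_nonneg _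
    have hN' : 0 ≤ N' := Finset.prod_nonneg fun _ _ => Nat.cast_nonneg _
    have hN : (∏ k, ((B k).card : ℝ)) = n0 * N' := Fin.prod_univ_succ _
    have h3 : R ≤ ∑ y ∈ B 0 ×ˢ B 0, ‖S y‖ := by
      have h4 : (R : ℂ) = ∑ y ∈ B 0 ×ˢ B 0, S y := by
        rw [h2, Finset.sum_product]
      calc R = ‖(R : ℂ)‖ := by rw [Complex.norm_real, Real.norm_of_nonneg hR]
        _ ≤ _ := by
          rw [h4]
          exact norm_sum_le _ _
    have h4 : ∑ y ∈ B 0 ×ˢ B 0, ‖bxs (Fin.tail B) (g y)‖ = ‖bxs B f‖ := by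
      have h5 : ∀ y, ∃ r : ℝ, 0 ≤ r ∧ bxs (Fin.tail B) (g y) = r :=
        fun y => bxs_nonneg (Fin.tail B) (g y)
      choose r hr0 hr using h5
      have h6 : bxs B f = ((∑ y ∈ B 0 ×ˢ B 0, r y : ℝ) : ℂ) := by
        rw [bxs_succ, Complex.ofReal_sum, Finset.sum_product]
        exact Finset.sum_congr rfl fun x1 _ => Finset.sum_congr rfl fun x0 _ => hr (x1, x0)
      rw [h6, Complex.norm_real, Real.norm_of_nonneg (Finset.sum_nonneg fun y _ => hr0 y)]
      refine Finset.sum_congr rfl fun y _ => ?_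
      rw [hr, Complex.norm_real, Real.norm_of_nonneg (hr0 y)]
    have h5 : (∑ y ∈ B 0 ×ˢ B 0, ‖S y‖) ^ k ≤ (n0 ^ 2) ^ j * ∑ y ∈ B 0 ×ˢ B 0, ‖S y‖ ^ k := by
      have h6 := csa_pm (B 0 ×ˢ B 0) (fun y => ‖S y‖) (fun y _ => norm_nonneg _) j
      rw [← hj, Finset.card_product, Nat.cast_mul] at h6
      rw [sq]
      exact h6
    have hpow : (2 : ℕ) ^ (m + 1 + 1) = 2 * k := by
      rw [hk, pow_succ', pow_succ']
    rw [hpow, pow_mul, hN]
    have h7 : (‖∑ q ∈ Fintype.piFinset B, f q * ∏ k, h k q‖ ^ 2) ^ k ≤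
        N' ^ k * ((n0 ^ 2) ^ j * ∑ y ∈ B 0 ×ˢ B 0, ‖S y‖ ^ k) := by
      calc (‖∑ q ∈ Fintype.piFinset B, f q * ∏ k, h k q‖ ^ 2) ^ k ≤ (N' * R) ^ k :=
            pow_le_pow_left₀ (sq_nonneg _) h1 k
        _ = N' ^ k * R ^ k := mul_pow _ _ _
        _ ≤ N' ^ k * (∑ y ∈ B 0 ×ˢ B 0, ‖S y‖) ^ k :=
            mul_le_mul_of_nonneg_left (pow_le_pow_left₀ hR h3 k) (pow_nonneg hN' k)
        _ ≤ _ := mul_le_mul_of_nonneg_left h5 (pow_nonneg hN' k)
    calc (‖∑ q ∈ Fintype.piFinset B, f q * ∏ k, h k q‖ ^ 2) ^ k * (n0 * N') ^ 2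
        ≤ (N' ^ k * ((n0 ^ 2) ^ j * ∑ y ∈ B 0 ×ˢ B 0, ‖S y‖ ^ k)) * (n0 * N') ^ 2 :=
          mul_le_mul_of_nonneg_right h7 (sq_nonneg _)
      _ = N' ^ k * (n0 ^ 2) ^ k * ∑ y ∈ B 0 ×ˢ B 0, ‖S y‖ ^ k * N' ^ 2 := by
          rw [← Finset.sum_mul, hj]
          ring
      _ ≤ N' ^ k * (n0 ^ 2) ^ k * ∑ y ∈ B 0 ×ˢ B 0, N' ^ k * ‖bxs (Fin.tail B) (g y)‖ :=
          mul_le_mul_of_nonneg_left (Finset.sum_le_sum fun y _ => ih (Fin.tail B) (g y) (hs h y)
              (hs_le hb y) (hs_upd hm y))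
            (mul_nonneg (pow_nonneg hN' k) (pow_nonneg (sq_nonneg _) k))
      _ = (n0 * N') ^ (2 * k) * ‖bxs B f‖ := by
          rw [← Finset.mul_sum, h4]
          ring

/-- the box inequality with factors `h k` of norm at most `1` which do not depend on the variable `k` -/
theorem csh {X : Type} (m : ℕ) (B : Fin m → Finset X) (f : (Fin m → X) → ℂ)
    (h : Fin m → (Fin m → X) → ℂ) (hb : ∀ k q, ‖h k q‖ ≤ 1)
    (hm : ∀ k q x, h k (Function.update q k x) = h k q) :
    ‖∑ q ∈ Fintype.piFinset B, f q * ∏ k, h k q‖ ^ (2 ^ m) * (∏ k, ((B k).card : ℝ)) ^ 2 ≤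
      (∏ k, ((B k).card : ℝ)) ^ (2 ^ m) *
        ‖∑ q1 ∈ Fintype.piFinset B, ∑ q0 ∈ Fintype.piFinset B, ∏ e : Fin m → Bool,
          cj e (f (vt q0 q1 e))‖ := by
  rcases m with _ | m
  · have h1 := bxs_zero B f
    unfold bxs at h1
    have h2 : ∑ q ∈ Fintype.piFinset B, f q * ∏ k, h k q = ∑ q ∈ Fintype.piFinset B, f q :=
      Finset.sum_congr rfl fun q _ => by rw [Finset.univ_eq_empty, Finset.prod_empty, mul_one]
    rw [h1, h2, Finset.univ_eq_empty, Finset.prod_empty, pow_zero, one_pow, mul_one, one_pow, one_mul,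
      pow_one]
  · exact csh_main m B f h hb hm

end H42.BX
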