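import Pool.Agent.H62.BL.Df

/-!
# [BLX LGD] the group data of the box lemma from a general filtration

* `FG q n P Qg`: a finite group `P` of exponent dividing `q` with a filtration `f`, `f (n + 2) = ⊥`, `P / f 1 = Qg`.
* `Lb F`: labels: a coset of `f 2` in `f 1` and a character of `f (n + 1)` (extended by `0`), invariant under `f 1`. `Qg` acts by conjugation.
* `Lt q P Qg`: the label of a variable prime. `lbL`: its class in `Lb F`. `FG.lg`: the group data `LG`. `LkN`: linked tuples of labels.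
-/

set_option autoImplicit false

open scoped Classical commutatorElement

noncomputable section

namespace H42.BX

open H62.BL

/-- a group of exponent dividing `q` with a filtration -/
structure FG (q n : ℕ) (P Qg : Type) [Group P] [Group Qg] where
  f : ℕ → Subgroup P
  fl : Fl f
  bot : f (n + 2) = ⊥
  ex : ∀ x : P, x ^ q = 1
  pi : P →* Qg
  sur : Function.Surjective pi
  ker : ∀ x, pi x = 1 ↔ x ∈ f 1

section

variable {q n : ℕ} {P Qg : Type} [Group P] [Group Qg]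

theorem fl_conj {f : ℕ → Subgroup P} (hf : Fl f) (i : ℕ) (a b : P) (hb : b ∈ f i) :
    a * b * a⁻¹ ∈ f i := by
  have h1 := hf.com 0 i a (by rw [hf.top]; trivial) b hb
  rw [Nat.zero_add] at h1
  have h2 := (f i).mul_mem h1 hb
  rwa [inv_mul_cancel_right] at h2

theorem fl_nor {f : ℕ → Subgroup P} (hf : Fl f) (i : ℕ) : (f i).Normal :=
  ⟨fun b hb a => fl_conj hf i a b hb⟩

theorem fl_anti {f : ℕ → Subgroup P} (hf : Fl f) {i j : ℕ} (h : i ≤ j) : f j ≤ f i := by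
  induction j, h using Nat.le_induction with
  | base => exact le_rfl
  | succ j _ ih => exact (hf.anti j).trans ih

instance (F : FG q n P Qg) (i : ℕ) : (F.f i).Normal := fl_nor F.fl i

/-- labels -/
@[ext] structure Lb (F : FG q n P Qg) where
  c : P ⧸ F.f 2
  χ : P → ZMod q
  mem : ∃ g ∈ F.f 1, (g : P ⧸ F.f 2) = c
  add : ∀ u ∈ F.f (n + 1), ∀ v ∈ F.f (n + 1), χ (u * v) = χ u + χ v
  out : ∀ u, u ∉ F.f (n + 1) → χ u = 0
  inv : ∀ x ∈ F.f 1, ∀ u, χ (x * u * x⁻¹) = χ u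

variable {F : FG q n P Qg}

instance [Finite P] [NeZero q] : Finite (Lb F) :=
  Finite.of_injective (fun a : Lb F => (a.c, a.χ)) fun a b h => by
    obtain ⟨h1, h2⟩ := Prod.mk.inj h
    exact Lb.ext h1 h2

instance [Finite P] [NeZero q] : Fintype (Lb F) := Fintype.ofFinite _

/-- conjugation of labels -/
def Lb.act (x : P) (a : Lb F) : Lb F where
  c := (x : P ⧸ F.f 2) * a.c * (x : P ⧸ F.f 2)⁻¹
  χ u := a.χ (x⁻¹ * u * x)
  mem := by
    obtain ⟨g, hg, hc⟩ := a.mem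
    refine ⟨x * g * x⁻¹, fl_conj F.fl 1 x g hg, ?_⟩
    rw [← hc]
    rfl
  add u hu v hv := by
    have h1 := a.add _ (by simpa using fl_conj F.fl (n + 1) x⁻¹ u hu)
      _ (by simpa using fl_conj F.fl (n + 1) x⁻¹ v hv)
    rw [← h1]
    congr 1
    group
  out u hu := a.out _ fun h => hu (by
    have h1 := fl_conj F.fl (n + 1) x _ h
    have h2 : x * (x⁻¹ * u * x) * x⁻¹ = u := by group
    rwa [h2] at h1)
  inv z hz u := by
    have h1 := a.inv (x⁻¹ * z * x) (by simpa using fl_conj F.fl 1 x⁻¹ z hz) (x⁻¹ * u * x)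
    rw [← h1]
    congr 1
    group

/-- conjugation as a permutation -/
def Lb.perm : P →* Equiv.Perm (Lb F) where
  toFun x := ⟨Lb.act x, Lb.act x⁻¹, fun a => by
    refine Lb.ext ?_ (funext fun u => ?_)
    · change ((x⁻¹ : P) : P ⧸ F.f 2) * ((x : P ⧸ F.f 2) * a.c * (x : P ⧸ F.f 2)⁻¹) *
        (((x⁻¹ : P) : P ⧸ F.f 2))⁻¹ = a.c
      rw [QuotientGroup.mk_inv]
      group
    · change a.χ (x⁻¹ * (x⁻¹⁻¹ * u * x⁻¹) * x) = a.χ u
      congr 1
      group, fun a => by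
    refine Lb.ext ?_ (funext fun u => ?_)
    · change (x : P ⧸ F.f 2) * (((x⁻¹ : P) : P ⧸ F.f 2) * a.c * (((x⁻¹ : P) : P ⧸ F.f 2))⁻¹) *
        (x : P ⧸ F.f 2)⁻¹ = a.c
      rw [QuotientGroup.mk_inv]
      group
    · change a.χ (x⁻¹⁻¹ * (x⁻¹ * u * x) * x⁻¹) = a.χ u
      congr 1
      group⟩
  map_one' := by
    refine Equiv.ext fun a => Lb.ext ?_ (funext fun u => ?_)
    · change ((1 : P) : P ⧸ F.f 2) * a.c * (((1 : P) : P ⧸ F.f 2))⁻¹ = a.c
      rw [QuotientGroup.mk_one]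
      group
    · change a.χ ((1 : P)⁻¹ * u * 1) = a.χ u
      congr 1
      group
  map_mul' x y := by
    refine Equiv.ext fun a => Lb.ext ?_ (funext fun u => ?_)
    · change ((x * y : P) : P ⧸ F.f 2) * a.c * (((x * y : P) : P ⧸ F.f 2))⁻¹ =
        (x : P ⧸ F.f 2) * ((y : P ⧸ F.f 2) * a.c * (y : P ⧸ F.f 2)⁻¹) * (x : P ⧸ F.f 2)⁻¹
      rw [QuotientGroup.mk_mul]
      group
    · change a.χ ((x * y)⁻¹ * u * (x * y)) = a.χ (y⁻¹ * (x⁻¹ * u * x) * y)
      congr 1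
      group

theorem lb_fix (x : P) (hx : x ∈ F.f 1) : (Lb.perm x : Equiv.Perm (Lb F)) = 1 := by
  refine Equiv.ext fun a => Lb.ext ?_ (funext fun u => ?_)
  · change (x : P ⧸ F.f 2) * a.c * (x : P ⧸ F.f 2)⁻¹ = a.c
    obtain ⟨g, hg, hc⟩ := a.mem
    rw [← hc, ← QuotientGroup.mk_inv, ← QuotientGroup.mk_mul, ← QuotientGroup.mk_mul,
      QuotientGroup.eq]
    have h2 : x * g * x⁻¹ * g⁻¹ ∈ F.f 2 := F.fl.com 1 1 x hx g hg
    have h3 := fl_conj F.fl 2 g⁻¹ _ (inv_mem h2)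
    have h4 : g⁻¹ * (x * g * x⁻¹ * g⁻¹)⁻¹ * g⁻¹⁻¹ = (x * g * x⁻¹)⁻¹ * g := by
      group
    rwa [h4] at h3
  · change a.χ (x⁻¹ * u * x) = a.χ u
    have h1 := a.inv x⁻¹ (inv_mem hx) u
    rwa [inv_inv] at h1

/-- the action of `Qg` on the labels -/
def Lb.qperm (F : FG q n P Qg) : Qg →* Equiv.Perm (Lb F) :=
  F.pi.liftOfSurjective F.sur ⟨Lb.perm, fun x hx => by
    rw [MonoidHom.mem_ker] at hx ⊢
    exact lb_fix x ((F.ker x).1 hx)⟩

theorem qperm_pi (x : P) : Lb.qperm F (F.pi x) = Lb.perm x :=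
  MonoidHom.liftOfRightInverse_comp_apply _ _ _ _ x

instance : MulAction Qg (Lb F) where
  smul q a := Lb.qperm F q a
  one_smul a := by
    change Lb.qperm F (1 : Qg) a = a
    rw [map_one]
    rfl
  mul_smul q q' a := by
    change Lb.qperm F (q * q') a = Lb.qperm F q (Lb.qperm F q' a)
    rw [map_mul]
    rfl

theorem lb_smul (x : P) (a : Lb F) : F.pi x • a = Lb.act x a := by
  change Lb.qperm F (F.pi x) a = _
  rw [qperm_pi]
  rfl

/-- the group data -/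
def FG.lg (F : FG q n P Qg) : LG q n P Qg (Lb F) where
  f := F.f
  fl := F.fl
  bot := F.bot
  pp i hi x hx := by
    rw [F.ex x]
    exact one_mem _
  pi := F.pi
  sur := F.sur
  ker := F.ker
  s a := a.mem.choose
  s_mem a := a.mem.choose_spec.1
  s_act x a := by
    have h1 := (F.pi x • a : Lb F).mem.choose_spec.2
    have h2 := a.mem.choose_spec.2
    change ((F.pi x • a : Lb F).mem.choose) * (x * a.mem.choose * x⁻¹)⁻¹ ∈ F.f 2
    rw [← QuotientGroup.eq_one_iff, QuotientGroup.mk_mul, QuotientGroup.mk_inv,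
      QuotientGroup.mk_mul, QuotientGroup.mk_mul, QuotientGroup.mk_inv, h1, h2, lb_smul]
    change (x : P ⧸ F.f 2) * a.c * (x : P ⧸ F.f 2)⁻¹ *
      ((x : P ⧸ F.f 2) * a.c * (x : P ⧸ F.f 2)⁻¹)⁻¹ = 1
    group
  ch a := a.χ
  ch_add a := a.add
  ch_act x a y _ := by
    rw [lb_smul]
    change a.χ (x⁻¹ * (x * y * x⁻¹) * x) = a.χ y
    congr 1
    group

theorem lg_s (a : Lb F) : (((F.lg.s a : P)) : P ⧸ F.f 2) = a.c := a.mem.choose_spec.2

/-- the label of a variable prime -/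
structure Lt (q : ℕ) (P Qg : Type) where
  g : P
  f : Qg
  χ : P → ZMod q

/-- the conditions on the labels -/
def Lt.ok (F : FG q n P Qg) (l : Lt q P Qg) : Prop :=
  l.g ∈ F.f 1 ∧ (∀ u ∈ F.f (n + 1), ∀ v ∈ F.f (n + 1), l.χ (u * v) = l.χ u + l.χ v) ∧
  ∀ x : P, F.pi x = l.f → x * l.g * x⁻¹ * l.g⁻¹ ∈ F.f 2 ∧
    ∀ u ∈ F.f (n + 1), l.χ (x * u * x⁻¹) = l.χ u

/-- the label of a variable prime, in `Lb F` -/
def lbL (F : FG q n P Qg) (l : Lt q P Qg) (h : l.ok F) : Lb F where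
  c := (l.g : P ⧸ F.f 2)
  χ u := if u ∈ F.f (n + 1) then l.χ u else 0
  mem := ⟨l.g, h.1, rfl⟩
  add u hu v hv := by
    rw [if_pos hu, if_pos hv, if_pos (mul_mem hu hv)]
    exact h.2.1 u hu v hv
  out u hu := if_neg hu
  inv x hx u := by
    by_cases hu : u ∈ F.f (n + 1)
    · have h1 : x * u * x⁻¹ * u⁻¹ ∈ F.f (1 + (n + 1)) := F.fl.com 1 (n + 1) x hx u hu
      have h0 : 1 + (n + 1) = n + 2 := by omega
      rw [h0, F.bot, Subgroup.mem_bot, mul_inv_eq_one] at h1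
      rw [h1]
    · have h2 : x * u * x⁻¹ ∉ F.f (n + 1) := fun h3 => hu (by
        have h4 := fl_conj F.fl (n + 1) x⁻¹ _ h3
        have h5 : x⁻¹ * (x * u * x⁻¹) * x⁻¹⁻¹ = u := by group
        rwa [h5] at h4)
      rw [if_neg hu, if_neg h2]

/-- the Frobenius of a label fixes it -/
theorem lbL_fix (F : FG q n P Qg) (l : Lt q P Qg) (h : l.ok F) : l.f • lbL F l h = lbL F l h := by
  obtain ⟨x, hx⟩ := F.sur l.f
  rw [← hx, lb_smul]
  obtain ⟨h1, h2⟩ := h.2.2 x hx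
  refine Lb.ext ?_ (funext fun u => ?_)
  · change (x : P ⧸ F.f 2) * (l.g : P ⧸ F.f 2) * (x : P ⧸ F.f 2)⁻¹ = (l.g : P ⧸ F.f 2)
    rw [← QuotientGroup.eq_one_iff, QuotientGroup.mk_mul, QuotientGroup.mk_mul,
      QuotientGroup.mk_mul, QuotientGroup.mk_inv, QuotientGroup.mk_inv] at h1
    exact mul_inv_eq_one.1 h1
  · change (if x⁻¹ * u * x ∈ F.f (n + 1) then l.χ (x⁻¹ * u * x) else 0) =
      if u ∈ F.f (n + 1) then l.χ u else 0
    by_cases hu : u ∈ F.f (n + 1)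
    · have h3 : x⁻¹ * u * x ∈ F.f (n + 1) := by simpa using fl_conj F.fl (n + 1) x⁻¹ u hu
      rw [if_pos hu, if_pos h3, ← h2 _ h3]
      congr 1
      group
    · have h3 : x⁻¹ * u * x ∉ F.f (n + 1) := fun h4 => hu (by
        have h5 := fl_conj F.fl (n + 1) x _ h4
        have h6 : x * (x⁻¹ * u * x) * x⁻¹ = u := by group
        rwa [h6] at h5)
      rw [if_neg hu, if_neg h3]

/-- LINKED tuples of labels -/
def LkN (F : FG q n P Qg) [Finite P] [NeZero q] (l : Fin (n + 2) → Lt q P Qg) : Prop :=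
  ∃ h : ∀ k, (l k).ok F, Lkd F.lg fun k => lbL F (l k) (h k)

end

end H42.BX
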