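import Pool.Agent.H42.BX.Lgp
import Pool.Agent.H93.BY.Df

/-!
# [PBG A1] twisted labels: the group data `LGx` of the box lemma BLG from a filtration and a crossed functional

* `Kx F`: a crossed functional `ka` on the last layer of `F : FG q (n + 1) P Qg` (conditions as in `LGx`).
* `Lbx k`: labels: a coset `c` of `f 2` in `f 1` and a character `χ` of `f (n + 1)`, trivial on `f (n + 2)` (extended by `0`). `lbx_inv`: it is invariant under `f 1`.
  `Qg` acts by the TWISTED action `χ' (x y x⁻¹) = χ y + ka (pi x) [s, x y x⁻¹]`, `s` a representative of `c' = x c x⁻¹`.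
* `Kx.lgx`: the group data `LGx`. `lbx_card`: the number of the labels. `lbxL`: the label given by `g ∈ f 1` and a character.
* `lbx_fix`, `lbxL_fix`: when `f • a = a`.
-/

set_option autoImplicit false

open scoped Classical

noncomputable section

namespace H42.BX

open H62.BL H93.BY

/-- a crossed functional on the last layer -/
structure Kx {q n : ℕ} {P Qg : Type} [Group P] [Group Qg] (F : FG q (n + 1) P Qg) where
  ka : Qg → P → ZMod q
  add : ∀ g, ∀ x ∈ F.f (n + 2), ∀ y ∈ F.f (n + 2), ka g (x * y) = ka g x + ka g y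
  mul : ∀ (x : P) (g : Qg), ∀ u ∈ F.f (n + 2), ka (F.pi x * g) u = ka (F.pi x) u + ka g (x⁻¹ * u * x)

section

variable {q n : ℕ} {P Qg : Type} [Group P] [Group Qg] {F : FG q (n + 1) P Qg}

theorem fg_bot (F : FG q (n + 1) P Qg) {x : P} (h : x ∈ F.f (n + 3)) : x = 1 := by
  rw [F.bot] at h
  exact (Subgroup.mem_bot).1 h

theorem kx_one (k : Kx F) (g : Qg) : k.ka g 1 = 0 := by
  have h := k.add g 1 (one_mem _) 1 (one_mem _)
  rw [mul_one] at h
  exact left_eq_add.1 h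

theorem kx_id (k : Kx F) {u : P} (hu : u ∈ F.f (n + 2)) : k.ka 1 u = 0 := by
  have h := k.mul 1 1 u hu
  rw [map_one, one_mul, inv_one, one_mul, mul_one] at h
  exact left_eq_add.1 h

/-- `[s, u]` is in the last layer -/
theorem cmt_mem (F : FG q (n + 1) P Qg) {s u : P} (hs : s ∈ F.f 1) (hu : u ∈ F.f (n + 1)) :
    s * u * s⁻¹ * u⁻¹ ∈ F.f (n + 2) := by
  have h := F.fl.com 1 (n + 1) s hs u hu
  have h0 : 1 + (n + 1) = n + 2 := by omega
  rwa [h0] at h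

/-- the last layer is central in `f 1` -/
theorem last_cm (F : FG q (n + 1) P Qg) {w u : P} (hw : w ∈ F.f (n + 2)) (hu : u ∈ F.f 1) :
    w * u = u * w := by
  have h := F.fl.com (n + 2) 1 w hw u hu
  have h0 : n + 2 + 1 = n + 3 := by omega
  rw [h0] at h
  have h1 := fg_bot F h
  rw [mul_inv_eq_one, mul_inv_eq_iff_eq_mul] at h1
  exact h1

/-- `[s, u]` depends on `s` modulo `f 2` only -/
theorem cmt_cong (F : FG q (n + 1) P Qg) {s t u : P} (h : (s : P ⧸ F.f 2) = (t : P ⧸ F.f 2))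
    (hu : u ∈ F.f (n + 1)) : s * u * s⁻¹ * u⁻¹ = t * u * t⁻¹ * u⁻¹ := by
  have h1 : t⁻¹ * s ∈ F.f 2 := QuotientGroup.eq.1 h.symm
  have h2 := F.fl.com 2 (n + 1) _ h1 u hu
  have h0 : 2 + (n + 1) = n + 3 := by omega
  rw [h0] at h2
  have h3 := fg_bot F h2
  have h4 : t⁻¹ * s * u * (t⁻¹ * s)⁻¹ = u := mul_inv_eq_one.1 h3
  have h5 : s * u * s⁻¹ = t * (t⁻¹ * s * u * (t⁻¹ * s)⁻¹) * t⁻¹ := by group
  rw [h5, h4]

/-- `[s, u v] = [s, u] [s, v]` -/
theorem cmt_mul (F : FG q (n + 1) P Qg) {s u v : P} (hs : s ∈ F.f 1) (hu : u ∈ F.f (n + 1))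
    (hv : v ∈ F.f (n + 1)) :
    s * (u * v) * s⁻¹ * (u * v)⁻¹ = (s * u * s⁻¹ * u⁻¹) * (s * v * s⁻¹ * v⁻¹) := by
  have h1 : u ∈ F.f 1 := fl_anti F.fl (by omega) hu
  have h2 := last_cm F (cmt_mem F hs hv) h1
  have h3 : s * (u * v) * s⁻¹ * (u * v)⁻¹ = s * u * s⁻¹ * u⁻¹ * (u * (s * v * s⁻¹ * v⁻¹) * u⁻¹) := by group
  rw [h3, ← h2, mul_inv_cancel_right]

/-- the invariance under `f 1` -/
theorem chi_inv (F : FG q (n + 1) P Qg) {χ : P → ZMod q}
    (hadd : ∀ u ∈ F.f (n + 1), ∀ v ∈ F.f (n + 1), χ (u * v) = χ u + χ v)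
    (hbot : ∀ u ∈ F.f (n + 2), χ u = 0) {x u : P} (hx : x ∈ F.f 1) (hu : u ∈ F.f (n + 1)) :
    χ (x * u * x⁻¹) = χ u := by
  have h1 := cmt_mem F hx hu
  have h2 : x * u * x⁻¹ = (x * u * x⁻¹ * u⁻¹) * u := by group
  rw [h2, hadd _ (fl_anti F.fl (Nat.le_succ _) h1) _ hu, hbot _ h1, zero_add]

/-- labels -/
@[ext] structure Lbx (k : Kx F) where
  c : P ⧸ F.f 2
  χ : P → ZMod q
  mem : ∃ g ∈ F.f 1, (g : P ⧸ F.f 2) = c
  add : ∀ u ∈ F.f (n + 1), ∀ v ∈ F.f (n + 1), χ (u * v) = χ u + χ v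
  bot : ∀ u ∈ F.f (n + 2), χ u = 0
  out : ∀ u, u ∉ F.f (n + 1) → χ u = 0

variable {k : Kx F}

instance [Finite P] [NeZero q] : Finite (Lbx k) :=
  Finite.of_injective (fun a : Lbx k => (a.c, a.χ)) fun a b h => by
    obtain ⟨h1, h2⟩ := Prod.mk.inj h
    exact Lbx.ext h1 h2

instance [Finite P] [NeZero q] : Fintype (Lbx k) := Fintype.ofFinite _

theorem lbx_card [Finite P] [NeZero q] : Nat.card (Lbx k) ≤ Nat.card P * q ^ Nat.card P := by
  have h1 : Nat.card (Lbx k) ≤ Nat.card ((P ⧸ F.f 2) × (P → ZMod q)) := by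
    refine Nat.card_le_card_of_injective (fun a : Lbx k => (a.c, a.χ)) fun a b h => ?_
    obtain ⟨h1, h2⟩ := Prod.mk.inj h
    exact Lbx.ext h1 h2
  refine h1.trans ?_
  rw [Nat.card_prod, Nat.card_fun, Nat.card_zmod]
  exact Nat.mul_le_mul_right _ (Nat.card_le_card_of_surjective _ (QuotientGroup.mk_surjective))

/-- the representative -/
def Lbx.s (a : Lbx k) : P := a.mem.choose

theorem lbx_s_mem (a : Lbx k) : a.s ∈ F.f 1 := a.mem.choose_spec.1

theorem lbx_s (a : Lbx k) : (a.s : P ⧸ F.f 2) = a.c := a.mem.choose_spec.2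

theorem lbx_inv (a : Lbx k) {x u : P} (hx : x ∈ F.f 1) (hu : u ∈ F.f (n + 1)) :
    a.χ (x * u * x⁻¹) = a.χ u := chi_inv F a.add a.bot hx hu

/-- the twisted action; the coset is given by the representative `x s x⁻¹` -/
def Lbx.act (x : P) (a : Lbx k) : Lbx k where
  c := (x : P ⧸ F.f 2) * a.c * (x : P ⧸ F.f 2)⁻¹
  χ u := if u ∈ F.f (n + 1) then
    a.χ (x⁻¹ * u * x) + k.ka (F.pi x) (x * a.s * x⁻¹ * u * (x * a.s * x⁻¹)⁻¹ * u⁻¹) else 0
  mem := by
    refine ⟨x * a.s * x⁻¹, fl_conj F.fl 1 x _ (lbx_s_mem a), ?_⟩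
    rw [← lbx_s a]
    rfl
  add u hu v hv := by
    have hs := fl_conj F.fl 1 x _ (lbx_s_mem a)
    have h1 := a.add _ (by simpa using fl_conj F.fl (n + 1) x⁻¹ u hu)
      _ (by simpa using fl_conj F.fl (n + 1) x⁻¹ v hv)
    have h2 : x⁻¹ * (u * v) * x = x⁻¹ * u * x * (x⁻¹ * v * x) := by group
    rw [if_pos hu, if_pos hv, if_pos (mul_mem hu hv), h2, h1, cmt_mul F hs hu hv,
      k.add _ _ (cmt_mem F hs hu) _ (cmt_mem F hs hv)]
    ring
  bot u hu := by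
    have hs := fl_conj F.fl 1 x _ (lbx_s_mem a)
    have h1 : u ∈ F.f (n + 1) := fl_anti F.fl (Nat.le_succ _) hu
    rw [if_pos h1, a.bot _ (by simpa using fl_conj F.fl (n + 2) x⁻¹ u hu), zero_add,
      ← last_cm F hu hs, mul_assoc u, mul_inv_cancel, mul_one, mul_inv_cancel, kx_one]
  out u hu := if_neg hu

theorem act_c (x : P) (a : Lbx k) : (Lbx.act x a).c = (x : P ⧸ F.f 2) * a.c * (x : P ⧸ F.f 2)⁻¹ := rfl

/-- the twisted action, any representative of the coset -/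
theorem act_chi (x : P) (a : Lbx k) {t u : P} (ht : (t : P ⧸ F.f 2) = (Lbx.act x a).c)
    (hu : u ∈ F.f (n + 1)) :
    (Lbx.act x a).χ u = a.χ (x⁻¹ * u * x) + k.ka (F.pi x) (t * u * t⁻¹ * u⁻¹) := by
  change (if u ∈ F.f (n + 1) then _ else _) = _
  rw [if_pos hu, cmt_cong F (t := t) _ hu]
  rw [ht, act_c, ← lbx_s a]
  rfl

theorem act_one (a : Lbx k) : Lbx.act 1 a = a := by
  have hc : (Lbx.act 1 a).c = a.c := by
    rw [act_c, QuotientGroup.mk_one]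
    group
  refine Lbx.ext hc (funext fun u => ?_)
  by_cases hu : u ∈ F.f (n + 1)
  · rw [act_chi 1 a (t := a.s) (by rw [hc, lbx_s]) hu, map_one, kx_id k (cmt_mem F (lbx_s_mem a) hu),
      add_zero, inv_one, one_mul, mul_one]
  · rw [(Lbx.act 1 a).out u hu, a.out u hu]

theorem act_mul (x y : P) (a : Lbx k) : Lbx.act (x * y) a = Lbx.act x (Lbx.act y a) := by
  have hc : (Lbx.act (x * y) a).c = (Lbx.act x (Lbx.act y a)).c := by
    rw [act_c, act_c, act_c, QuotientGroup.mk_mul]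
    group
  refine Lbx.ext hc (funext fun u => ?_)
  by_cases hu : u ∈ F.f (n + 1)
  · obtain ⟨t, ht⟩ : ∃ t, t = (Lbx.act x (Lbx.act y a)).s := ⟨_, rfl⟩
    have h1 : (t : P ⧸ F.f 2) = (Lbx.act x (Lbx.act y a)).c := by rw [ht, lbx_s]
    have htm : t ∈ F.f 1 := by rw [ht]; exact lbx_s_mem _
    have h2 : ((x⁻¹ * t * x : P) : P ⧸ F.f 2) = (Lbx.act y a).c := by
      rw [QuotientGroup.mk_mul, QuotientGroup.mk_mul, QuotientGroup.mk_inv, h1, act_c]
      group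
    have hu' : x⁻¹ * u * x ∈ F.f (n + 1) := by simpa using fl_conj F.fl (n + 1) x⁻¹ u hu
    rw [act_chi (x * y) a (by rw [h1, hc]) hu, act_chi x _ h1 hu, act_chi y a h2 hu', map_mul,
      k.mul x (F.pi y) _ (cmt_mem F htm hu)]
    have h3 : (x * y)⁻¹ * u * (x * y) = y⁻¹ * (x⁻¹ * u * x) * y := by group
    have h4 : x⁻¹ * (t * u * t⁻¹ * u⁻¹) * x =
      x⁻¹ * t * x * (x⁻¹ * u * x) * (x⁻¹ * t * x)⁻¹ * (x⁻¹ * u * x)⁻¹ := by group
    rw [h3, h4]
    ring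
  · rw [(Lbx.act (x * y) a).out u hu, (Lbx.act x (Lbx.act y a)).out u hu]

theorem act_fix {x : P} (hx : x ∈ F.f 1) (a : Lbx k) : Lbx.act x a = a := by
  have hc : (Lbx.act x a).c = a.c := by
    rw [act_c, ← lbx_s a, ← QuotientGroup.mk_inv, ← QuotientGroup.mk_mul, ← QuotientGroup.mk_mul,
      QuotientGroup.eq]
    have h2 : x * a.s * x⁻¹ * a.s⁻¹ ∈ F.f 2 := F.fl.com 1 1 x hx a.s (lbx_s_mem a)
    have h3 := fl_conj F.fl 2 a.s⁻¹ _ (inv_mem h2)
    have h4 : a.s⁻¹ * (x * a.s * x⁻¹ * a.s⁻¹)⁻¹ * a.s⁻¹⁻¹ = (x * a.s * x⁻¹)⁻¹ * a.s := by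
      group
    rwa [h4] at h3
  refine Lbx.ext hc (funext fun u => ?_)
  by_cases hu : u ∈ F.f (n + 1)
  · rw [act_chi x a (t := a.s) (by rw [hc, lbx_s]) hu, (F.ker x).2 hx,
      kx_id k (cmt_mem F (lbx_s_mem a) hu), add_zero]
    have h1 := lbx_inv a (inv_mem hx) hu
    rwa [inv_inv] at h1
  · rw [(Lbx.act x a).out u hu, a.out u hu]

/-- the action as a permutation -/
def Lbx.perm : P →* Equiv.Perm (Lbx k) where
  toFun x := ⟨Lbx.act x, Lbx.act x⁻¹, fun a => by rw [← act_mul, inv_mul_cancel, act_one],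
    fun a => by rw [← act_mul, mul_inv_cancel, act_one]⟩
  map_one' := Equiv.ext act_one
  map_mul' x y := Equiv.ext (act_mul x y)

/-- the action of `Qg` on the labels -/
def Lbx.qperm (k : Kx F) : Qg →* Equiv.Perm (Lbx k) :=
  F.pi.liftOfSurjective F.sur ⟨Lbx.perm, fun x hx => by
    rw [MonoidHom.mem_ker] at hx ⊢
    exact Equiv.ext (act_fix ((F.ker x).1 hx))⟩

theorem qpermx_pi (x : P) : Lbx.qperm k (F.pi x) = Lbx.perm x :=
  MonoidHom.liftOfRightInverse_comp_apply _ _ _ _ x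

instance : MulAction Qg (Lbx k) where
  smul q a := Lbx.qperm k q a
  one_smul a := by
    change Lbx.qperm k (1 : Qg) a = a
    rw [map_one]
    rfl
  mul_smul q q' a := by
    change Lbx.qperm k (q * q') a = Lbx.qperm k q (Lbx.qperm k q' a)
    rw [map_mul]
    rfl

theorem lbx_smul (x : P) (a : Lbx k) : F.pi x • a = Lbx.act x a := by
  change Lbx.qperm k (F.pi x) a = _
  rw [qpermx_pi]
  rfl

/-- the group data of the box lemma BLG -/
def Kx.lgx (k : Kx F) : LGx q n P Qg (Lbx k) where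
  D :=
    { f := F.f
      fl := F.fl
      bot := F.bot
      pp := fun i hi x hx => by
        rw [F.ex x]
        exact one_mem _
      pi := F.pi
      sur := F.sur
      ker := F.ker
      s := Lbx.s
      s_mem := lbx_s_mem
      s_act := fun x a => by
        rw [← QuotientGroup.eq_one_iff, QuotientGroup.mk_mul, QuotientGroup.mk_inv,
          QuotientGroup.mk_mul, QuotientGroup.mk_mul, QuotientGroup.mk_inv, lbx_s, lbx_s, lbx_smul, act_c]
        group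
      ch := fun _ _ => 0
      ch_add := fun _ _ _ _ _ => (add_zero 0).symm
      ch_act := fun _ _ _ _ => rfl }
  ka := k.ka
  ka_add := k.add
  ka_mul := k.mul
  ch a := a.χ
  ch_add a := a.add
  ch_bot a := a.bot
  ch_act x a y hy := by
    have h1 : x * y * x⁻¹ ∈ F.f (n + 1) := fl_conj F.fl (n + 1) x y hy
    change (F.pi x • a).χ (x * y * x⁻¹) = a.χ y + k.ka (F.pi x)
      ((F.pi x • a).s * (x * y * x⁻¹) * ((F.pi x • a).s)⁻¹ * (x * y * x⁻¹)⁻¹)
    rw [lbx_smul, act_chi x a (lbx_s _) h1]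
    congr 2
    group

theorem lgx_f (k : Kx F) : k.lgx.D.f = F.f := rfl

theorem lgx_pi (k : Kx F) : k.lgx.D.pi = F.pi := rfl

theorem lgx_s (a : Lbx k) : ((k.lgx.D.s a : P) : P ⧸ F.f 2) = a.c := lbx_s a

/-- when an element fixes a label -/
theorem lbx_fix (x : P) (a : Lbx k) {t : P} (ht : (t : P ⧸ F.f 2) = a.c) :
    F.pi x • a = a ↔ x * t * x⁻¹ * t⁻¹ ∈ F.f 2 ∧
      ∀ u ∈ F.f (n + 1), a.χ u = a.χ (x⁻¹ * u * x) + k.ka (F.pi x) (t * u * t⁻¹ * u⁻¹) := by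
  have h0 : (Lbx.act x a).c = a.c ↔ x * t * x⁻¹ * t⁻¹ ∈ F.f 2 := by
    rw [act_c, ← ht, ← QuotientGroup.eq_one_iff, QuotientGroup.mk_mul, QuotientGroup.mk_mul,
      QuotientGroup.mk_mul, QuotientGroup.mk_inv, QuotientGroup.mk_inv]
    exact mul_inv_eq_one.symm
  rw [lbx_smul]
  constructor
  · intro h
    have h1 : (Lbx.act x a).c = a.c := by rw [h]
    refine ⟨h0.1 h1, fun u hu => ?_⟩
    rw [← act_chi x a (by rw [ht, h1]) hu, h]
  · rintro ⟨h1, h2⟩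
    have h3 := h0.2 h1
    refine Lbx.ext h3 (funext fun u => ?_)
    by_cases hu : u ∈ F.f (n + 1)
    · rw [act_chi x a (by rw [ht, h3]) hu, ← h2 u hu]
    · rw [(Lbx.act x a).out u hu, a.out u hu]

/-- the label given by an element of `f 1` and a character of `f (n + 1)` which is trivial on `f (n + 2)` -/
def lbxL (k : Kx F) (g : P) (χ : P → ZMod q) (hg : g ∈ F.f 1)
    (hadd : ∀ u ∈ F.f (n + 1), ∀ v ∈ F.f (n + 1), χ (u * v) = χ u + χ v)
    (hbot : ∀ u ∈ F.f (n + 2), χ u = 0) : Lbx k where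
  c := (g : P ⧸ F.f 2)
  χ u := if u ∈ F.f (n + 1) then χ u else 0
  mem := ⟨g, hg, rfl⟩
  add u hu v hv := by
    rw [if_pos hu, if_pos hv, if_pos (mul_mem hu hv)]
    exact hadd u hu v hv
  bot u hu := by
    rw [if_pos (fl_anti F.fl (Nat.le_succ _) hu)]
    exact hbot u hu
  out u hu := if_neg hu

variable {g : P} {χ : P → ZMod q} {hg : g ∈ F.f 1}
  {hadd : ∀ u ∈ F.f (n + 1), ∀ v ∈ F.f (n + 1), χ (u * v) = χ u + χ v}
  {hbot : ∀ u ∈ F.f (n + 2), χ u = 0}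

theorem lbxL_ch {u : P} (hu : u ∈ F.f (n + 1)) :
    k.lgx.ch (lbxL k g χ hg hadd hbot) u = χ u := if_pos hu

theorem lbxL_s : g * (k.lgx.D.s (lbxL k g χ hg hadd hbot))⁻¹ ∈ k.lgx.D.f 2 := by
  change g * (k.lgx.D.s (lbxL k g χ hg hadd hbot))⁻¹ ∈ F.f 2
  rw [← QuotientGroup.eq_one_iff, QuotientGroup.mk_mul, QuotientGroup.mk_inv, lgx_s]
  exact mul_inv_cancel _

/-- when an element fixes the label `lbxL` -/
theorem lbxL_fix (x : P) : F.pi x • lbxL k g χ hg hadd hbot = lbxL k g χ hg hadd hbot ↔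
    x * g * x⁻¹ * g⁻¹ ∈ F.f 2 ∧
      ∀ u ∈ F.f (n + 1), χ u = χ (x⁻¹ * u * x) + k.ka (F.pi x) (g * u * g⁻¹ * u⁻¹) := by
  rw [lbx_fix x (lbxL k g χ hg hadd hbot) (t := g) rfl]
  refine and_congr_right fun _ => forall₂_congr fun u hu => ?_
  have h1 : x⁻¹ * u * x ∈ F.f (n + 1) := by simpa using fl_conj F.fl (n + 1) x⁻¹ u hu
  change (if u ∈ F.f (n + 1) then χ u else 0) = (if x⁻¹ * u * x ∈ F.f (n + 1) then χ (x⁻¹ * u * x) else 0) + _ ↔ _
  rw [if_pos hu, if_pos h1]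

/-- when two labels `lbxL` are equal -/
theorem lbxL_eq {g' : P} {χ' : P → ZMod q} {hg' : g' ∈ F.f 1}
    {hadd' : ∀ u ∈ F.f (n + 1), ∀ v ∈ F.f (n + 1), χ' (u * v) = χ' u + χ' v}
    {hbot' : ∀ u ∈ F.f (n + 2), χ' u = 0} (h1 : g * g'⁻¹ ∈ F.f 2) (h2 : ∀ u ∈ F.f (n + 1), χ u = χ' u) :
    lbxL k g χ hg hadd hbot = lbxL k g' χ' hg' hadd' hbot' := by
  refine Lbx.ext ?_ (funext fun u => ?_)
  · change (g : P ⧸ F.f 2) = (g' : P ⧸ F.f 2)
    rw [← QuotientGroup.eq_one_iff, QuotientGroup.mk_mul, QuotientGroup.mk_inv] at h1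
    exact mul_inv_eq_one.1 h1
  · change (if u ∈ F.f (n + 1) then χ u else 0) = (if u ∈ F.f (n + 1) then χ' u else 0)
    by_cases hu : u ∈ F.f (n + 1)
    · rw [if_pos hu, if_pos hu, h2 u hu]
    · rw [if_neg hu, if_neg hu]

end

end H42.BX
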