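import Pool.Agent.H42.BX.Lam
import Pool.Agent.H62.BM.ComE
import Pool.Agent.H93.BY.Df

/-!
# [BLG LGX] equivariance and Lie projection of the functionals of `LGx` (H93/BY/Df)

* `lam_act`: `lam (z w) = lam w - ka z⁻¹ (rw w)`.
* `kbp_inv`: `kbp l₀` is invariant under the elements which fix `l₀`. `kbp_br`: `kbp l₀ (br v) = kp l₀ (br v)`, any order of the indices.
* `kbp_gl`, `kbp_rel`: `kbp l₀ x.c = kp l₀ x.c` for the values `x` of `rel` if the lower coefficients (words without the index `0`) vanish.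
* `kp_eq`: `kp l₀ (br v)` from `lam`.
-/

set_option autoImplicit false

open scoped Classical

noncomputable section

namespace H42.BX

open H62.BL H93.BY

section any

variable {Q L : Type} [Group Q] [MulAction Q L] {p n : ℕ}

theorem map_rn {G H : Type} [Group G] [Group H] (F : G →* H) : ∀ l : List G, F (rn l) = rn (l.map F)
  | [] => map_one F
  | [a] => rfl
  | a :: b :: w => by
    have ih := map_rn F (b :: w)
    rw [List.map_cons] at ih
    rw [List.map_cons, List.map_cons, rn, rn, map_mul, map_mul, map_mul, map_inv, map_inv, ih]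

theorem wn_nodup {I : Type} {S : Set I} {m : ℕ} : ∀ w ∈ (WN Q L S m).s, (w.map Lr.i).Nodup := fun _ h => h.2.1

variable [Fintype L]

/-- `k` and `kl k` have the same value on brackets, any order of the indices -/
theorem kl_brP [NeZero p] (k : List (Lr (Fin (n + 2)) L) → ZMod p) (τ : Equiv.Perm (Fin (n + 1))) (l : Fin (n + 1) → L) :
    ∑ t : Fin (n + 1) → Lr (Fin (n + 2)) L,
        br (List.ofFn fun i : Fin (n + 1) => (⟨(τ i).succ, l i⟩ : Lr (Fin (n + 2)) L)) (List.ofFn t) *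
          kl k (List.ofFn t) =
      ∑ t : Fin (n + 1) → Lr (Fin (n + 2)) L,
        br (List.ofFn fun i : Fin (n + 1) => (⟨(τ i).succ, l i⟩ : Lr (Fin (n + 2)) L)) (List.ofFn t) *
          k (List.ofFn t) := by
  -- the trivial group acts on the labels
  let _ : MulAction (Multiplicative (Fin 1)) L :=
    { smul := fun _ a => a
      one_smul := fun _ => rfl
      mul_smul := fun _ _ _ => rfl }
  obtain ⟨y, hy⟩ : ∃ y : Fin (n + 1) → UG (Multiplicative (Fin 1)) (Lr (Fin (n + 2)) L) (ZMod p)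
      (WN (Multiplicative (Fin 1)) L {i | i ≠ 0} (n + 1)), y = fun i => lt ⟨(τ i).succ, l i⟩ 1 := ⟨_, rfl⟩
  have hc : ∀ (i : Fin (n + 1)) (w : List (Lr (Fin (n + 2)) L)), w ≠ [] →
      (y i).c w = if w = [⟨(τ i).succ, l i⟩] then 1 else 0 := by
    intro i w hw
    rw [hy]
    change tr _ (e1 + (1 : ZMod p) • el (⟨(τ i).succ, l i⟩ : Lr (Fin (n + 2)) L)) w = _
    by_cases h : w ∈ (WN (Multiplicative (Fin 1)) L {i : Fin (n + 2) | i ≠ 0} (n + 1)).s
    · rw [tr_of h, Pi.add_apply, one_smul, e1, if_neg hw, zero_add]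
      rfl
    · rw [tr_out h, if_neg]
      rintro rfl
      refine h ⟨by simp, by simp, ?_⟩
      intro a ha
      rw [List.mem_singleton] at ha
      rw [ha]
      exact Fin.succ_ne_zero _
  have h3 := H62.BM.comm_topP (p := p) τ l (fun _ => 1) y (fun i => by rw [hy]; rfl)
    (fun i w hw h => by
      rw [hc i w hw, if_neg]
      rintro rfl
      exact h ⟨(τ i).succ, l i⟩ (by simp) rfl)
    (fun i a => by
      rw [hc i [a] (by simp)]
      simp only [List.cons.injEq, and_true])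
  obtain ⟨g, hg⟩ : ∃ g, g = rn (List.ofFn y) := ⟨_, rfl⟩
  obtain ⟨v, hv⟩ : ∃ v, v = List.ofFn fun i : Fin (n + 1) => (⟨(τ i).succ, l i⟩ : Lr (Fin (n + 2)) L) := ⟨_, rfl⟩
  rw [← hg, ← hv, Finset.prod_const_one, one_smul] at h3
  rw [← hv]
  have hgl : Gl 1 g := by
    have h4 : g = FreeGroup.lift y (rn (List.ofFn fun i => FreeGroup.of i)) := by
      rw [map_rn, List.map_ofFn, hg]
      congr 2
      funext i
      simp
    rw [h4]
    refine gl_free wn_nodup _ (fun i => Or.inl ⟨⟨(τ i).succ, l i⟩, 1, ?_⟩) _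
    rw [FreeGroup.lift_apply_of, hy]
  have hvl : v.length = n + 1 := by rw [hv, List.length_ofFn]
  have hb : ∀ u : List (Lr (Fin (n + 2)) L), u.length ≠ n + 1 →
      (br v : List (Lr (Fin (n + 2)) L) → ZMod p) u = 0 := by
    intro u hu
    by_contra h
    exact hu (by rw [(br_perm v u h).length_eq, hvl])
  have h5 := kl_top k g hgl fun u hu hl => by
    rw [h3.2, Pi.add_apply, hb u (by omega), add_zero]
    exact if_neg hu
  have h6 : ∀ t : Fin (n + 1) → Lr (Fin (n + 2)) L, g.c (List.ofFn t) = br v (List.ofFn t) := by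
    intro t
    rw [h3.2, Pi.add_apply]
    have h7 : (e1 : List (Lr (Fin (n + 2)) L) → ZMod p) (List.ofFn t) = 0 := by
      refine if_neg fun h => ?_
      have h8 := congrArg List.length h
      rw [List.length_ofFn, List.length_nil] at h8
      omega
    rw [h7, zero_add]
  simp only [h6] at h5
  exact h5

end any

section lgx

variable {q n : ℕ} {P Qg Lm : Type} [Group P] [Group Qg] [MulAction Qg Lm]

/-- the twisted characters of `LGx` -/
def twx (Dx : LGx q n P Qg Lm) : Tw Dx.D where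
  ka := Dx.ka
  ka_add := Dx.ka_add
  ka_mul z z' x hx u hu := by
    rw [← hx]
    exact Dx.ka_mul x z' u hu
  ch := Dx.ch
  ch_add := Dx.ch_add
  ch_zero := Dx.ch_bot
  ch_act := Dx.ch_act

variable (Dx : LGx q n P Qg Lm)

theorem lam_tw : (twx Dx).Lam = Dx.lam := by
  funext w
  cases w <;> rfl

theorem kw_tw (l₀ : Lm) : (twx Dx).Kw l₀ = Dx.kw l₀ := by
  funext w
  cases w <;> rfl

/-- EQUIVARIANCE of `lam` -/
theorem lam_act (z : Qg) (w : List (Lr (Fin (n + 2)) Lm)) :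
    Dx.lam (w.map fun a => z • a) = Dx.lam w -
      (if (w.map Lr.i).Nodup ∧ w.length = n + 2 ∧ (w.map Lr.i).getLast? = some 0 then Dx.ka z⁻¹ (Dx.D.rw w) else 0) := by
  rw [← lam_tw]
  exact (twx Dx).lam_act z w

theorem ka_conj (x : P) {u : P} (hu : u ∈ Dx.D.f (n + 2)) :
    Dx.ka (Dx.D.pi x) (x * u * x⁻¹) = -Dx.ka (Dx.D.pi x)⁻¹ u := (twx Dx).ka_conj x hu

variable [Fintype Lm]

theorem kb_kl (l₀ : Lm) : Dx.kb l₀ = kl (Dx.kw l₀) := rfl

/-- `kp` of a bracket from `lam` -/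
theorem kp_eq (l₀ : Lm) (v : List (Lr (Fin (n + 2)) Lm))
    (h1 : (v.map Lr.i).Nodup) (h2 : v.length = n + 1) (h3 : ∀ b ∈ v, b.i ≠ 0)
    (h4 : (v.map Lr.i).getLast? = some 1) :
    Dx.kp l₀ (br v) = Dx.ch l₀ (Dx.D.rw v) +
      ∑ t : Fin (n + 1) → Lr (Fin (n + 2)) Lm, br v (List.ofFn t) * Dx.lam (List.ofFn t ++ [⟨0, l₀⟩]) := by
  have h5 := (twx Dx).kp_eq l₀ v h1 h2 h3 h4
  rw [lam_tw] at h5
  have h6 : (twx Dx).Kp l₀ (br v) = Dx.kp l₀ (br v) := by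
    unfold Tw.Kp LGx.kp
    rw [kw_tw]
  rw [← h6, h5]
  rfl

/-- INVARIANCE -/
theorem kbp_inv (l₀ : Lm) (f : Qg) (hf : f • l₀ = l₀) (c : List (Lr (Fin (n + 2)) Lm) → ZMod q) :
    Dx.kbp l₀ (qa f c) = Dx.kbp l₀ c := by
  unfold LGx.kbp
  rw [kb_kl, ← kw_tw]
  exact (twx Dx).inv_kl l₀ f hf c

theorem kbp_br [NeZero q] (l₀ : Lm) (τ : Equiv.Perm (Fin (n + 1))) (l : Fin (n + 1) → Lm) :
    Dx.kbp l₀ (br (List.ofFn fun i : Fin (n + 1) => (⟨(τ i).succ, l i⟩ : Lr (Fin (n + 2)) Lm))) =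
      Dx.kp l₀ (br (List.ofFn fun i : Fin (n + 1) => (⟨(τ i).succ, l i⟩ : Lr (Fin (n + 2)) Lm))) := by
  unfold LGx.kbp LGx.kp
  rw [kb_kl]
  exact kl_brP (Dx.kw l₀) τ l

omit [Fintype Lm] in
theorem kw_out (l₀ : Lm) (w : List (Lr (Fin (n + 2)) Lm))
    (h : ¬ ((w.map Lr.i).Nodup ∧ w.length = n + 1 ∧ ∀ b ∈ w, b.i ≠ 0)) : Dx.kw l₀ w = 0 := by
  rw [← kw_tw]
  exact (twx Dx).kw_out l₀ w h

/-- `kb` vanishes on the words with an index `0` -/
theorem kb_out (l₀ : Lm) (w : List (Lr (Fin (n + 2)) Lm))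
    (h : ¬ ((w.map Lr.i).Nodup ∧ w.length = n + 1 ∧ ∀ b ∈ w, b.i ≠ 0)) : Dx.kb l₀ w = 0 := by
  unfold LGx.kb
  by_cases h1 : (w.map Lr.i).getLast? = some 1
  · rw [if_pos h1]
    unfold LGx.kp
    refine Finset.sum_eq_zero fun t _ => ?_
    by_cases h2 : (br w : List (Lr (Fin (n + 2)) Lm) → ZMod q) (List.ofFn t) = 0
    · rw [h2, zero_mul]
    · have h3 := br_perm w _ h2
      rw [kw_out, mul_zero]
      rintro ⟨h4, h5, h6⟩
      refine h ⟨((h3.map Lr.i).nodup_iff).1 h4, by rw [← h3.length_eq, h5], fun b hb => h6 b (h3.mem_iff.2 hb)⟩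
  · rw [if_neg h1]

/-- the truncation to the words without the index `0` does not change `kp` -/
theorem kp_tr (l₀ : Lm) (c : List (Lr (Fin (n + 2)) Lm) → ZMod q) :
    Dx.kp l₀ (tr (WN Qg Lm {i | i ≠ 0} (n + 1)) c) = Dx.kp l₀ c := by
  unfold LGx.kp
  refine Finset.sum_congr rfl fun t _ => ?_
  by_cases h : List.ofFn t ∈ (WN Qg Lm {i : Fin (n + 2) | i ≠ 0} (n + 1)).s
  · rw [tr_of h]
  · rw [kw_out Dx l₀ (List.ofFn t), mul_zero, mul_zero]
    rintro ⟨h1, h2, h3⟩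
    exact h ⟨h2.le, h1, h3⟩

theorem kbp_tr (l₀ : Lm) (c : List (Lr (Fin (n + 2)) Lm) → ZMod q) :
    Dx.kbp l₀ (tr (WN Qg Lm {i | i ≠ 0} (n + 1)) c) = Dx.kbp l₀ c := by
  unfold LGx.kbp
  refine Finset.sum_congr rfl fun t _ => ?_
  by_cases h : List.ofFn t ∈ (WN Qg Lm {i : Fin (n + 2) | i ≠ 0} (n + 1)).s
  · rw [tr_of h]
  · rw [kb_out Dx l₀ (List.ofFn t), mul_zero, mul_zero]
    rintro ⟨h1, h2, h3⟩
    exact h ⟨h2.le, h1, h3⟩

/-- `kbp = kp` on the top part of a group-like element -/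
theorem kbp_gl (l₀ : Lm) (g : UGd q n Qg Lm) (hg : Gl 1 g) (h0 : ∀ u, u ≠ [] → u.length ≤ n → g.c u = 0) :
    Dx.kbp l₀ g.c = Dx.kp l₀ g.c := by
  unfold LGx.kbp LGx.kp
  rw [kb_kl]
  exact kl_top (Dx.kw l₀) g hg h0

omit [Fintype Lm] in
/-- the values of `rel` are group-like -/
theorem gl_rel {I : Type} {W : WSet Qg (Lr I Lm)} (hW : ∀ w ∈ W.s, (w.map Lr.i).Nodup) {R : Type} [CommRing R]
    {Gn : Type} (kd : Gn → Option (I × Bool)) (bs : Gn → Qg) (lam : I → Lm) (i₁ : I) (z : FreeGroup Gn) :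
    Gl i₁ (rel W kd bs lam z : UG Qg (Lr I Lm) R W) := by
  refine gl_free hW _ (fun x => ?_) z
  unfold rel unh
  rw [FreeGroup.lift_apply_of]
  rcases kd x with _ | ⟨j, b⟩
  · exact Or.inr ⟨_, rfl⟩
  · exact Or.inl ⟨_, _, rfl⟩

/-- `kbp = kp` on the values of `rel`, words in the indices of `S` -/
theorem kbp_rel (l₀ : Lm) (S : Set (Fin (n + 2))) (hS : ∀ i, i ≠ 0 → i ∈ S)
    {Gn : Type} (kd : Gn → Option (Fin (n + 2) × Bool)) (bs : Gn → Qg) (lam : Fin (n + 2) → Lm) (z : FreeGroup Gn)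
    (h0 : ∀ u, u ≠ [] → u.length ≤ n → (∀ a ∈ u, a.i ≠ 0) →
      (rel (WN Qg Lm S (n + 1)) kd bs lam z : UG Qg (Lr (Fin (n + 2)) Lm) (ZMod q) _).c u = 0) :
    Dx.kbp l₀ (rel (WN Qg Lm S (n + 1)) kd bs lam z : UG Qg (Lr (Fin (n + 2)) Lm) (ZMod q) _).c =
      Dx.kp l₀ (rel (WN Qg Lm S (n + 1)) kd bs lam z : UG Qg (Lr (Fin (n + 2)) Lm) (ZMod q) _).c := by
  have hsub : (WN Qg Lm {i : Fin (n + 2) | i ≠ 0} (n + 1)).s ⊆ (WN Qg Lm S (n + 1)).s :=
    fun w hw => ⟨hw.1, hw.2.1, fun a ha => hS _ (hw.2.2 a ha)⟩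
  obtain ⟨g, hg⟩ : ∃ g : UG Qg (Lr (Fin (n + 2)) Lm) (ZMod q) (WN Qg Lm S (n + 1)),
    g = rel (WN Qg Lm S (n + 1)) kd bs lam z := ⟨_, rfl⟩
  rw [← hg] at h0 ⊢
  have h1 : (trh hsub g : UGd q n Qg Lm).c = tr (WN Qg Lm {i | i ≠ 0} (n + 1)) g.c := rfl
  rw [← kbp_tr, ← kp_tr, ← h1]
  refine kbp_gl Dx l₀ _ ?_ fun u hu hl => ?_
  · have h2 : (trh hsub g : UGd q n Qg Lm) = ((trh hsub).comp (rel (WN Qg Lm S (n + 1)) kd bs lam) : FreeGroup Gn →* UGd q n Qg Lm) z := by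
      rw [hg]
      rfl
    rw [h2]
    refine gl_free wn_nodup _ (fun x => ?_) z
    rw [MonoidHom.comp_apply]
    unfold rel unh
    rw [FreeGroup.lift_apply_of]
    rcases kd x with _ | ⟨j, b⟩
    · refine Or.inr ⟨bs x, UG.ext rfl ?_⟩
      exact tr_e1
    · refine Or.inl ⟨⟨j, lam j⟩, if b then 1 else -1, UG.ext rfl ?_⟩
      change tr (WN Qg Lm {i | i ≠ 0} (n + 1)) (tr (WN Qg Lm S (n + 1)) _) = tr (WN Qg Lm {i | i ≠ 0} (n + 1)) _
      funext w
      by_cases hw : w ∈ (WN Qg Lm {i : Fin (n + 2) | i ≠ 0} (n + 1)).s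
      · rw [tr_of hw, tr_of hw, tr_of (hsub hw)]
      · rw [tr_out hw, tr_out hw]
  · rw [h1]
    by_cases hw : u ∈ (WN Qg Lm {i : Fin (n + 2) | i ≠ 0} (n + 1)).s
    · rw [tr_of hw]
      exact h0 u hu hl hw.2.2
    · exact tr_out hw

end lgx

end H42.BX
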