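import Pool.Agent.H93.BX.Df
import Pool.Agent.H62.BM.EpsE
import Pool.Agent.H42.BX.Brx

/-!
# [BLX REC] reciprocity for the relative homomorphism

Port of `H62/BL/Rec.lean`. `rec0`: the hypotheses on the relative evaluation and on `Ψ` are explicit (they are the outputs of `Hn`, `Clo`).
-/

set_option autoImplicit false

open scoped NumberField
open IsDedekindDomain
open scoped Classical

noncomputable section

namespace H42.BX

open H63.MA H38.BB H38.BG H57.PC H57.BRA H77.WD H77.WE H77.GL H57.AN H35.UB H24.RK H93.BX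
open H62.BL hiding relq reld thq aq Wy Rd Fq Cel cel Hd Uf

variable {K : Type} [Field K] [NumberField K] {Ω : Type} [Field Ω] [Algebra K Ω]
  {p : ℕ} {ζ : K} {D : RD0 K p ζ} {q n : ℕ} {J P Qg Lm : Type} [Group P] [Group Qg] [MulAction Qg Lm]
  {A : GS D Ω}

private theorem rc_relq (Dg : LG q n P Qg Lm) (r : Rd A J P Qg) (v : Vd n P Qg Lm)
    (q0 q1 : Fin (n + 2) → Pl K) (x : Pl K ⊕ Fin A.g) :
    relq Dg r v q0 q1 (FreeGroup.of x) = match kdq A id q0 q1 x with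
      | none => qi (Dg.pi (r.bs x))
      | some (j, b) => lt ⟨j, v.lam j⟩ (if b then 1 else -1) := by
  unfold relq rel unh
  rw [FreeGroup.lift_apply_of]
  rcases kdq A id q0 q1 x with _ | ⟨j, b⟩ <;> rfl

theorem rc_t0 (Dg : LG q n P Qg Lm) (r : Rd A J P Qg) (v : Vd n P Qg Lm)
    {q0 q1 : Fin (n + 2) → Pl K} (h : ND r.T q0 q1) (k : Fin (n + 2)) :
    relq Dg r v q0 q1 (FreeGroup.of (Sum.inl (q0 k))) = lt ⟨k, v.lam k⟩ (-1) := by
  have h1 : ∃ k', q0 k' = q0 k := ⟨k, rfl⟩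
  have h2 : kdq A id q0 q1 (Sum.inl (q0 k)) = some (k, false) := by
    show (if h : ∃ k', q0 k' = q0 k then some (id h.choose, false) else
      if h : ∃ k', q1 k' = q0 k then some (id h.choose, true) else none) = some (k, false)
    rw [dif_pos h1, id, h.1.1 h1.choose_spec]
  rw [rc_relq, h2]
  rfl

theorem rc_t1 (Dg : LG q n P Qg Lm) (r : Rd A J P Qg) (v : Vd n P Qg Lm)
    {q0 q1 : Fin (n + 2) → Pl K} (h : ND r.T q0 q1) (k : Fin (n + 2)) :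
    relq Dg r v q0 q1 (FreeGroup.of (Sum.inl (q1 k))) = lt ⟨k, v.lam k⟩ 1 := by
  have h1 : ∃ k', q1 k' = q1 k := ⟨k, rfl⟩
  have h0 : ¬ ∃ k', q0 k' = q1 k := fun ⟨k', hk'⟩ => h.2.2 k' k hk'
  have h2 : kdq A id q0 q1 (Sum.inl (q1 k)) = some (k, true) := by
    show (if h : ∃ k', q0 k' = q1 k then some (id h.choose, false) else
      if h : ∃ k', q1 k' = q1 k then some (id h.choose, true) else none) = some (k, true)
    rw [dif_neg h0, dif_pos h1, id, h.2.1.1 h1.choose_spec]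
  rw [rc_relq, h2]
  rfl

theorem rc_tn (Dg : LG q n P Qg Lm) (r : Rd A J P Qg) (v : Vd n P Qg Lm)
    {q0 q1 : Fin (n + 2) → Pl K} {w : Pl K} (h0 : ∀ k, q0 k ≠ w) (h1 : ∀ k, q1 k ≠ w) :
    relq Dg r v q0 q1 (FreeGroup.of (Sum.inl w)) = qi (Dg.pi (r.bs (Sum.inl w))) := by
  have h2 : kdq A id q0 q1 (Sum.inl w) = none := by
    show (if h : ∃ k', q0 k' = w then some (id h.choose, false) else
      if h : ∃ k', q1 k' = w then some (id h.choose, true) else none) = none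
    rw [dif_neg fun ⟨k, hk⟩ => h0 k hk, dif_neg fun ⟨k, hk⟩ => h1 k hk]
  rw [rc_relq, h2]

/-- in a `p`-group of order at most `p ^ k` -/
theorem pg_pow {H : Type} [Group H] [Finite H] (hp : p.Prime) (hH : IsPGroup p H) {k : ℕ}
    (hk : Nat.card H ≤ p ^ k) (x : H) : x ^ (p ^ k) = 1 := by
  have hF : Fact p.Prime := ⟨hp⟩
  obtain ⟨j, hj⟩ := IsPGroup.iff_card.1 hH
  rw [hj] at hk
  have h1 : j ≤ k := (Nat.pow_le_pow_iff_right hp.one_lt).1 hk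
  have h2 : x ^ (p ^ j) = 1 := by
    rw [← hj]
    exact pow_card_eq_one'
  obtain ⟨i, hi⟩ := Nat.pow_dvd_pow p h1
  rw [hi, pow_mul, h2, one_pow]

theorem rec0 [IsAlgClosure K Ω] [Finite Qg] [Fintype Lm] (hp : p.Prime) (hp2 : MOne p K)
    (hζ : IsPrimitiveRoot ζ p) {κ N : ℕ} {z : K} (Q : DP K Ω) (y : Wy D A J)
    {Dg : LG (p ^ κ) n P Qg Lm}
    (hy : y.Ok Q P Qg Lm κ n N z) {r : Rd A J P Qg} {v : Vd n P Qg Lm}
    (hr : r.Ok y.L Dg y.Z) (hv : v.Ok Dg) {q0 q1 : Fin (n + 2) → Pl K} (h : ND r.T q0 q1)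
    (hq : ∀ k, q0 k ∈ y.Z ∧ q1 k ∈ y.Z)
    (hfin : Finite (UGm (p ^ κ) n Qg Lm)) (hpg : IsPGroup p (UGm (p ^ κ) n Qg Lm))
    (Ψ : Gal(Ω/K) →* UGm (p ^ κ) n Qg Lm)
    (hΨ : Unz y.L (r.T ∪ Finset.univ.image q0 ∪ Finset.univ.image q1) Ψ)
    (hhat : hat y.L A Ψ = relq Dg r v q0 q1)
    (hteq : ∀ w ∈ D.S0, ∀ σ ∈ dec (K := K) (Q.P w), ∃ x : Qg, Ψ σ = qi x)
    (hT : ∀ w ∈ r.T, ∃ x : Qg, relq Dg r v q0 q1 (y.wv w) = qi x)
    (hfix : ∀ (k : Fin (n + 2)) (b : Bool),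
      (relq Dg r v q0 q1 (y.wv (if b then q1 k else q0 k))).q = v.f k) :
    ∑ k, ∑ b : Bool, (if b then 1 else -1) * ∑ t : Fin (n + 1) → Lr (Fin (n + 2)) Lm,
      (relq Dg r v q0 q1 (y.wv (if b then q1 k else q0 k))).c (List.ofFn t) *
        (Dg.eps (List.ofFn t ++ [⟨k, v.lam k⟩]) - Dg.eps (⟨k, v.lam k⟩ :: List.ofFn t)) = 0 := by
  have hne : NeZero (p ^ κ) := ⟨(pow_pos hp.pos _).ne'⟩
  obtain ⟨k, hk2, hκk, hkN, hMk⟩ := hy.rts.k
  have hsub : r.T ∪ Finset.univ.image q0 ∪ Finset.univ.image q1 ⊆ y.Z := by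
    intro w hw
    simp only [Finset.mem_union, Finset.mem_image, Finset.mem_univ, true_and] at hw
    rcases hw with (hw | ⟨k, rfl⟩) | ⟨k, rfl⟩
    · exact hr.sub hw
    · exact (hq k).1
    · exact (hq k).2
  have hΨZ : Unz y.L y.Z Ψ := ⟨hΨ.1, fun w hw hwZ => hΨ.2 w hw fun h' => hwZ (hsub h')⟩
  have hF : ∀ w ∈ y.Z, Ψ (y.Fr.F w) = relq Dg r v q0 q1 (y.wv w) := by
    intro w hw
    rw [← hhat]
    exact (hy.val.v _ hpg hy.cm Ψ hΨZ w hw).symm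
  have ht : ∀ w, Ψ (y.L.t w) = relq Dg r v q0 q1 (FreeGroup.of (Sum.inl w)) := by
    intro w
    rw [← hhat, hat_inl]
  have hTF : ∀ w ∈ r.T, ∃ x : Qg, Ψ (y.Fr.F w) = qi x := by
    intro w hw
    rw [hF w (hr.sub hw)]
    exact hT w hw
  have hTt : ∀ w ∈ r.T, ∃ x : Qg, Ψ (y.L.t w) = qi x := by
    intro w hw
    rw [ht]
    exact ⟨_, rc_tn Dg r v (fun k hk => h.1.2 k (hk ▸ hw)) (fun k hk => h.2.1.2 k (hk ▸ hw))⟩
  obtain ⟨T', hT'⟩ : ∃ T' : Finset (Pl K), T' = r.T ∪ (Finset.univ.image q0 ∪ Finset.univ.image q1) :=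
    ⟨_, rfl⟩
  have hsum := brgx hp hy.rts.mm hp2 hζ hy.rts.hz hy.rts.hzζ hy.rts.nl Q y.Fr
    (κ := κ) (k := k) (by rw [max_eq_left hκk]; exact hkN) (e := Dg.cc)
    ⟨H62.BM.cc_l1 Dg, H62.BM.cc_r1 Dg, H62.BM.cc_co Dg⟩ hΨ.1
    (fun w hw σ hσ τ hτ => by
      obtain ⟨a, ha⟩ := hteq w hw σ hσ
      obtain ⟨b, hb⟩ := hteq w hw τ hτ
      rw [ha, hb, H62.BM.cc_qi])
    (fun w hw τ hτ => pg_pow hp hpg (hy.cm.trans hMk) _)
    T' (fun w hw => by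
      rw [hT', Finset.mem_union, Finset.mem_union] at hw
      rcases hw with hw | hw | hw
      · exact hr.out w hw
      · obtain ⟨k, -, rfl⟩ := Finset.mem_image.1 hw
        exact hy.out _ (hq k).1
      · obtain ⟨k, -, rfl⟩ := Finset.mem_image.1 hw
        exact hy.out _ (hq k).2)
    (fun w hw hwT => hΨ.2 w hw fun hw' => hwT (by
      rw [hT', ← Finset.union_assoc]
      exact hw'))
  have hd1 : Disjoint r.T (Finset.univ.image q0 ∪ Finset.univ.image q1) := by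
    rw [Finset.disjoint_left]
    intro w hw hw'
    rw [Finset.mem_union] at hw'
    rcases hw' with hw' | hw'
    · obtain ⟨k, -, rfl⟩ := Finset.mem_image.1 hw'
      exact h.1.2 k hw
    · obtain ⟨k, -, rfl⟩ := Finset.mem_image.1 hw'
      exact h.2.1.2 k hw
  have hd2 : Disjoint (Finset.univ.image q0) (Finset.univ.image q1) := by
    rw [Finset.disjoint_left]
    intro w hw hw'
    obtain ⟨j, -, rfl⟩ := Finset.mem_image.1 hw
    obtain ⟨k, -, hk⟩ := Finset.mem_image.1 hw'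
    exact h.2.2 j k hk.symm
  rw [hT', Finset.sum_union hd1, Finset.sum_union hd2, Finset.sum_image (fun a _ b _ hab => h.1.1 hab),
    Finset.sum_image (fun a _ b _ hab => h.2.1.1 hab)] at hsum
  have hz0 : ∑ w ∈ r.T, (Dg.cc (Ψ (y.Fr.F w)) (Ψ (y.L.t w)) - Dg.cc (Ψ (y.L.t w)) (Ψ (y.Fr.F w))) = 0 := by
    refine Finset.sum_eq_zero fun w hw => ?_
    obtain ⟨a, ha⟩ := hTF w hw
    obtain ⟨b, hb⟩ := hTt w hw
    rw [ha, hb, H62.BM.cc_qi, H62.BM.cc_qi, sub_zero]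
  rw [hz0, zero_add] at hsum
  have e0 : ∀ k, Dg.cc (Ψ (y.Fr.F (q0 k))) (Ψ (y.L.t (q0 k))) - Dg.cc (Ψ (y.L.t (q0 k))) (Ψ (y.Fr.F (q0 k))) =
      -1 * ∑ t : Fin (n + 1) → Lr (Fin (n + 2)) Lm,
        (relq Dg r v q0 q1 (y.wv (q0 k))).c (List.ofFn t) *
        (Dg.eps (List.ofFn t ++ [⟨k, v.lam k⟩]) - Dg.eps (⟨k, v.lam k⟩ :: List.ofFn t)) := by
    intro k
    rw [hF _ (hq k).1, ht, rc_t0 Dg r v h]
    exact H62.BM.cc_iv Dg _ k (v.lam k) (by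
      have h2 : (relq Dg r v q0 q1 (y.wv (q0 k))).q = v.f k := hfix k false
      rw [h2]
      exact hv.f k) (-1)
  have e1 : ∀ k, Dg.cc (Ψ (y.Fr.F (q1 k))) (Ψ (y.L.t (q1 k))) - Dg.cc (Ψ (y.L.t (q1 k))) (Ψ (y.Fr.F (q1 k))) =
      1 * ∑ t : Fin (n + 1) → Lr (Fin (n + 2)) Lm,
        (relq Dg r v q0 q1 (y.wv (q1 k))).c (List.ofFn t) *
        (Dg.eps (List.ofFn t ++ [⟨k, v.lam k⟩]) - Dg.eps (⟨k, v.lam k⟩ :: List.ofFn t)) := by
    intro k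
    rw [hF _ (hq k).2, ht, rc_t1 Dg r v h]
    exact H62.BM.cc_iv Dg _ k (v.lam k) (by
      have h2 : (relq Dg r v q0 q1 (y.wv (q1 k))).q = v.f k := hfix k true
      rw [h2]
      exact hv.f k) 1
  rw [Finset.sum_congr rfl fun k _ => e0 k, Finset.sum_congr rfl fun k _ => e1 k,
    ← Finset.sum_add_distrib] at hsum
  rw [← hsum]
  refine Finset.sum_congr rfl fun k _ => ?_
  rw [Fintype.sum_bool, add_comm]
  rfl

end H42.BX
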