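import Pool.Agent.H42.WM.RelC

/-!
# [BLG TPL] the top part of a group-like element of `UG` is a Lie element

Letters `Lr I L`, words with distinct indices, `i₁` a fixed index.
* `d1 i₁`: the derivation which counts the letters of index `i₁`. `Sp i₁ W`: the span of the right normed brackets of the words with the last
  index `i₁`. `Gl i₁ g`: `d1 g = s g` with `s ∈ Sp`, and `g Sp ⊆ Sp g`; closed under products; `gl_lt`, `gl_qi`, `gl_free`.
* `top_mem`: `i₁ = 1`, words of length at most `n + 1` in the indices `1, .., n + 1`: if the lower coefficients of a group-like `g` vanish then its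
  coefficients of length `n + 1` are those of an element of `Sp`.
* `kl k`: the functional `w ↦ k (br w)` if the last index of `w` is `1`, otherwise `0`. `kl_top`: it has the same value as `k` on the top parts of
  group-like elements; `kl_br`: the same for brackets.
-/

set_option autoImplicit false

open scoped Classical

noncomputable section

namespace H42.BX

open H62.BL

section

variable {Q I L R : Type} [Group Q] [MulAction Q L] [CommRing R]

/-- the derivation which counts the letters of index `i₁` -/
def d1 (i₁ : I) (c : List (Lr I L) → R) : List (Lr I L) → R :=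
  fun w => if ∃ a ∈ w, a.i = i₁ then c w else 0

/-- the span of the brackets of the words with the last index `i₁` -/
def Sp (i₁ : I) (W : WSet Q (Lr I L)) : Submodule R (List (Lr I L) → R) :=
  Submodule.span R {y | ∃ t : List (Lr I L), (t.map Lr.i).getLast? = some i₁ ∧ y = tr W (br t)}

/-- the product of functions, truncated -/
def mm (W : WSet Q (Lr I L)) (a b : List (Lr I L) → R) : List (Lr I L) → R := tr W (cv a b)

/-- group-like elements -/
structure Gl (i₁ : I) {W : WSet Q (Lr I L)} (g : UG Q (Lr I L) R W) : Prop where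
  a : ∃ s ∈ Sp i₁ W, d1 i₁ g.c = mm W s g.c
  b : ∀ s ∈ Sp i₁ W, ∃ s' ∈ Sp i₁ W, mm W g.c (qa g.q s) = mm W s' g.c

variable {W : WSet Q (Lr I L)} {i₁ : I}

theorem mm_assoc (a b c : List (Lr I L) → R) : mm W (mm W a b) c = mm W a (mm W b c) := by
  unfold mm
  rw [tr_cv_left, tr_cv_right]
  funext w
  by_cases h : w ∈ W.s
  · rw [tr_of h, tr_of h, cv_assoc]
  · rw [tr_out h, tr_out h]

theorem mm_add (a b c : List (Lr I L) → R) : mm W (a + b) c = mm W a c + mm W b c := by
  funext w
  rw [Pi.add_apply]
  unfold mm
  by_cases h : w ∈ W.s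
  · rw [tr_of h, tr_of h, tr_of h]
    exact cv_add_left a b c w
  · rw [tr_out h, tr_out h, tr_out h, add_zero]

theorem mm_qa (q : Q) (a b : List (Lr I L) → R) : qa q (mm W a b) = mm W (qa q a) (qa q b) := by
  unfold mm
  rw [← tr_qa, qa_cv]

theorem qa_el (q : Q) (a : Lr I L) : qa q (el a : List (Lr I L) → R) = el (q • a) := by
  funext w
  unfold qa el
  have h1 : (w.map fun b => q⁻¹ • b) = [a] ↔ w = [q • a] := by
    constructor
    · intro h
      have h2 := congrArg (List.map fun b => q • b) h
      rw [List.map_map] at h2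
      have h3 : ((fun b : Lr I L => q • b) ∘ fun b => q⁻¹ • b) = id := by
        funext b
        exact smul_inv_smul _ _
      rw [h3, List.map_id] at h2
      rw [h2, List.map_cons, List.map_nil]
    · rintro rfl
      rw [List.map_cons, List.map_nil, inv_smul_smul]
  simp only [h1]

theorem qa_br (q : Q) : ∀ t : List (Lr I L), qa q (br t : List (Lr I L) → R) = br (t.map fun a => q • a)
  | [] => by
    funext w
    rfl
  | [a] => by
    rw [br, qa_el]
    rfl
  | a :: b :: w => by
    have ih := qa_br q (b :: w)
    have h1 : qa q (br (a :: b :: w) : List (Lr I L) → R) =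
        qa q (cv (el a) (br (b :: w))) - qa q (cv (br (b :: w)) (el a)) := rfl
    rw [h1, qa_cv, qa_cv, ih, qa_el]
    rfl

theorem d1_qa (q : Q) (c : List (Lr I L) → R) : d1 i₁ (qa q c) = qa q (d1 i₁ c) := by
  funext w
  unfold d1 qa
  have h1 : (∃ a ∈ w.map fun b : Lr I L => q⁻¹ • b, a.i = i₁) ↔ ∃ a ∈ w, a.i = i₁ := by
    constructor
    · rintro ⟨a, ha, h⟩
      obtain ⟨b, hb, rfl⟩ := List.mem_map.1 ha
      exact ⟨b, hb, h⟩
    · rintro ⟨a, ha, h⟩
      exact ⟨q⁻¹ • a, List.mem_map.2 ⟨a, ha, rfl⟩, h⟩
  simp only [h1]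

/-- the Leibniz rule -/
theorem d1_mm (hW : ∀ w ∈ W.s, (w.map Lr.i).Nodup) (a b : List (Lr I L) → R) :
    d1 i₁ (mm W a b) = mm W (d1 i₁ a) b + mm W a (d1 i₁ b) := by
  funext w
  rw [Pi.add_apply]
  by_cases h : w ∈ W.s
  · have h1 : d1 i₁ (mm W a b) w = if ∃ a ∈ w, a.i = i₁ then cv a b w else 0 := by
      unfold d1 mm
      rw [tr_of h]
    have h2 : mm W (d1 i₁ a) b w = cv (d1 i₁ a) b w := tr_of h
    have h3 : mm W a (d1 i₁ b) w = cv a (d1 i₁ b) w := tr_of h
    rw [h1, h2, h3, cv_eq, cv_eq, cv_eq, ← Finset.sum_add_distrib]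
    have h4 : ∀ i, (if ∃ a ∈ w, a.i = i₁ then a (w.take i) * b (w.drop i) else 0) =
        d1 i₁ a (w.take i) * b (w.drop i) + a (w.take i) * d1 i₁ b (w.drop i) := by
      intro i
      have hn := hW w h
      obtain ⟨u, hu⟩ : ∃ u, u = w.take i := ⟨_, rfl⟩
      obtain ⟨v, hv⟩ : ∃ v, v = w.drop i := ⟨_, rfl⟩
      have hw : w = u ++ v := by rw [hu, hv, List.take_append_drop]
      rw [← hu, ← hv]
      rw [hw, List.map_append, List.nodup_append] at hn
      unfold d1
      by_cases h5 : ∃ a ∈ u, a.i = i₁
      · have h6 : ¬ ∃ a ∈ v, a.i = i₁ := by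
          rintro ⟨y, hy, hy1⟩
          obtain ⟨x, hx, hx1⟩ := h5
          exact hn.2.2 _ (List.mem_map.2 ⟨x, hx, rfl⟩) _ (List.mem_map.2 ⟨y, hy, rfl⟩) (by rw [hx1, hy1])
        have h7 : ∃ a ∈ w, a.i = i₁ := by
          obtain ⟨x, hx, hx1⟩ := h5
          exact ⟨x, by rw [hw]; exact List.mem_append_left _ hx, hx1⟩
        rw [if_pos h5, if_neg h6, if_pos h7, mul_zero, add_zero]
      · by_cases h6 : ∃ a ∈ v, a.i = i₁
        · have h7 : ∃ a ∈ w, a.i = i₁ := by
            obtain ⟨x, hx, hx1⟩ := h6
            exact ⟨x, by rw [hw]; exact List.mem_append_right _ hx, hx1⟩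
          rw [if_neg h5, if_pos h6, if_pos h7, zero_mul, zero_add]
        · have h7 : ¬ ∃ a ∈ w, a.i = i₁ := by
            rintro ⟨x, hx, hx1⟩
            rw [hw, List.mem_append] at hx
            rcases hx with hx | hx
            · exact h5 ⟨x, hx, hx1⟩
            · exact h6 ⟨x, hx, hx1⟩
          rw [if_neg h5, if_neg h6, if_neg h7, mul_zero, zero_mul, add_zero]
    rw [Finset.sum_congr rfl fun i _ => (h4 i).symm]
    by_cases h8 : ∃ a ∈ w, a.i = i₁
    · simp only [if_pos h8]
    · simp only [if_neg h8, Finset.sum_const_zero]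
  · have h1 : d1 i₁ (mm W a b) w = 0 := by
      unfold d1 mm
      rw [tr_out h, ite_self]
    rw [h1]
    unfold mm
    rw [tr_out h, tr_out h, add_zero]

theorem gl_mul (hW : ∀ w ∈ W.s, (w.map Lr.i).Nodup) {g g' : UG Q (Lr I L) R W} (hg : Gl i₁ g) (hg' : Gl i₁ g') :
    Gl i₁ (g * g') := by
  have hc : (g * g').c = mm W g.c (qa g.q g'.c) := rfl
  have key : ∀ s' ∈ Sp i₁ W, ∃ s'' ∈ Sp i₁ W, mm W g.c (qa g.q (mm W s' g'.c)) = mm W s'' (g * g').c := by
    intro s' hs'
    obtain ⟨s'', hs'', h2⟩ := hg.b s' hs'
    refine ⟨s'', hs'', ?_⟩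
    rw [mm_qa, ← mm_assoc, h2, mm_assoc, hc]
  constructor
  · obtain ⟨s, hs, h1⟩ := hg.a
    obtain ⟨s', hs', h2⟩ := hg'.a
    obtain ⟨s'', hs'', h3⟩ := key s' hs'
    refine ⟨s + s'', Submodule.add_mem _ hs hs'', ?_⟩
    rw [mm_add, ← h3, hc, d1_mm hW, d1_qa, h1, h2, mm_assoc]
  · intro s hs
    obtain ⟨s', hs', h1⟩ := hg'.b s hs
    obtain ⟨s'', hs'', h2⟩ := key s' hs'
    refine ⟨s'', hs'', ?_⟩
    rw [← h2, ← h1, hc]
    have h3 : qa (g * g').q s = qa g.q (qa g'.q s) := qa_mul g.q g'.q s
    rw [h3, mm_assoc, mm_qa]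

theorem sp_qa (q : Q) (s : List (Lr I L) → R) (hs : s ∈ Sp i₁ W) : qa q s ∈ Sp i₁ W := by
  unfold Sp at hs ⊢
  induction hs using Submodule.span_induction with
  | mem y hy =>
    obtain ⟨t, ht, rfl⟩ := hy
    refine Submodule.subset_span ⟨t.map fun a => q • a, ?_, ?_⟩
    · rw [List.map_map]
      exact ht
    · rw [← tr_qa, qa_br]
  | zero => exact Submodule.zero_mem _
  | add y z _ _ hy hz => exact Submodule.add_mem _ hy hz
  | smul r y _ hy => exact Submodule.smul_mem _ r hy

theorem gl_qi (q : Q) : Gl i₁ (qi q : UG Q (Lr I L) R W) := by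
  constructor
  · refine ⟨0, Submodule.zero_mem _, ?_⟩
    funext w
    have h1 : mm W 0 (qi q : UG Q (Lr I L) R W).c w = 0 := by
      unfold mm
      by_cases h : w ∈ W.s
      · rw [tr_of h]
        exact cv_zero_left _ _
      · exact tr_out h
    rw [h1]
    unfold d1
    by_cases h2 : ∃ a ∈ w, a.i = i₁
    · rw [if_pos h2]
      refine if_neg ?_
      rintro rfl
      obtain ⟨a, ha, _⟩ := h2
      simp at ha
    · rw [if_neg h2]
  · intro s hs
    refine ⟨qa q s, sp_qa q s hs, ?_⟩
    change mm W e1 (qa q s) = mm W (qa q s) e1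
    unfold mm
    congr 1
    funext w
    rw [cv_one_left, cv_one_right]

/-- the bracket with a letter -/
theorem sp_br (a : Lr I L) (s : List (Lr I L) → R) (hs : s ∈ Sp i₁ W) :
    mm W (el a) s - mm W s (el a) ∈ Sp i₁ W := by
  unfold Sp at hs ⊢
  induction hs using Submodule.span_induction with
  | mem y hy =>
    obtain ⟨t, ht, rfl⟩ := hy
    cases t with
    | nil => simp at ht
    | cons b t =>
      refine Submodule.subset_span ⟨a :: b :: t, ?_, ?_⟩
      · rw [List.map_cons, List.map_cons, List.getLast?_cons_cons, ← List.map_cons]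
        exact ht
      · unfold mm
        rw [tr_cv_right, tr_cv_left]
        funext w
        by_cases h : w ∈ W.s
        · rw [Pi.sub_apply, tr_of h, tr_of h, tr_of h]
          rfl
        · rw [Pi.sub_apply, tr_out h, tr_out h, tr_out h, sub_zero]
  | zero =>
    have h1 : mm W (el a) (0 : List (Lr I L) → R) - mm W 0 (el a) = 0 := by
      funext w
      unfold mm
      rw [Pi.sub_apply]
      by_cases h : w ∈ W.s
      · rw [tr_of h, tr_of h]
        have h2 : cv (el a) (0 : List (Lr I L) → R) w = 0 := cv_zero_right _ _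
        have h3 : cv (0 : List (Lr I L) → R) (el a) w = 0 := cv_zero_left _ _
        rw [h2, h3, sub_zero]
        rfl
      · rw [tr_out h, tr_out h, sub_zero]
        rfl
    rw [h1]
    exact Submodule.zero_mem _
  | add y z _ _ hy hz =>
    have h1 : mm W (el a) (y + z) - mm W (y + z) (el a) =
        (mm W (el a) y - mm W y (el a)) + (mm W (el a) z - mm W z (el a)) := by
      funext w
      unfold mm
      simp only [Pi.sub_apply, Pi.add_apply]
      by_cases h : w ∈ W.s
      · simp only [tr_of h]
        have h2 : cv (el a) (y + z) w = cv (el a) y w + cv (el a) z w := cv_add_right _ _ _ _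
        have h3 : cv (y + z) (el a) w = cv y (el a) w + cv z (el a) w := cv_add_left _ _ _ _
        rw [h2, h3]
        ring
      · simp only [tr_out h]
        ring
    rw [h1]
    exact Submodule.add_mem _ hy hz
  | smul r y _ hy =>
    have h1 : mm W (el a) (r • y) - mm W (r • y) (el a) = r • (mm W (el a) y - mm W y (el a)) := by
      funext w
      unfold mm
      simp only [Pi.sub_apply, Pi.smul_apply, smul_eq_mul]
      by_cases h : w ∈ W.s
      · simp only [tr_of h]
        have h2 : cv (el a) (r • y) w = r * cv (el a) y w := cv_smul_right _ _ _ _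
        have h3 : cv (r • y) (el a) w = r * cv y (el a) w := cv_smul_left _ _ _ _
        rw [h2, h3]
        ring
      · simp only [tr_out h]
        ring
    rw [h1]
    exact Submodule.smul_mem _ r hy

private theorem twice (hW : ∀ w ∈ W.s, (w.map Lr.i).Nodup) (a : Lr I L) (y : List (Lr I L) → R) {w : List (Lr I L)}
    (hw : w ∈ W.s) (hy : ∀ v, v ++ [a] = w → (∀ b ∈ v, b ≠ a) → y v = 0) : cv y (el a) w = 0 := by
  by_cases h : ∃ v, w = v ++ [a]
  · obtain ⟨v, hv⟩ := h
    rw [cv_el_right a y w v hv]
    refine hy v hv.symm fun b hb h1 => ?_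
    have h2 := hW w hw
    rw [hv, List.map_append, List.nodup_append] at h2
    exact h2.2.2 _ (List.mem_map.2 ⟨b, hb, rfl⟩) a.i (by simp) (by rw [h1])
  · push Not at h
    exact cv_el_right' a y w h

theorem gl_lt (hW : ∀ w ∈ W.s, (w.map Lr.i).Nodup) (a : Lr I L) (s : R) : Gl i₁ (lt a s : UG Q (Lr I L) R W) := by
  have hr : ∀ (y : List (Lr I L) → R) (w : List (Lr I L)), w ∈ W.s →
      mm W y (lt a s : UG Q (Lr I L) R W).c w = y w + s * cv y (el a) w := by
    intro y w hw
    unfold mm
    rw [lt_c, tr_cv_right, tr_of hw]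
    have h1 : cv y (e1 + s • el a) w = cv y e1 w + cv y (fun v => s * el a v) w := cv_add_right y e1 _ w
    rw [h1, cv_one_right, cv_smul_right]
  have hl : ∀ (y : List (Lr I L) → R) (w : List (Lr I L)), w ∈ W.s →
      mm W (lt a s : UG Q (Lr I L) R W).c y w = y w + s * cv (el a) y w := by
    intro y w hw
    unfold mm
    rw [lt_c, tr_cv_left, tr_of hw]
    have h1 : cv (e1 + s • el a) y w = cv e1 y w + cv (fun v => s * el a v) y w := cv_add_left e1 _ y w
    rw [h1, cv_one_left, cv_smul_left]
  constructor
  · by_cases ha : a.i = i₁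
    · refine ⟨s • tr W (br [a]), Submodule.smul_mem _ _ (Submodule.subset_span ⟨[a], ?_, rfl⟩), ?_⟩
      · simp [ha]
      · funext w
        by_cases hw : w ∈ W.s
        · rw [hr _ w hw]
          have h1 : cv (s • tr W (br [a] : List (Lr I L) → R)) (el a) w = 0 := by
            refine twice hW a _ hw fun v hv h2 => ?_
            rw [Pi.smul_apply, smul_eq_mul]
            have h3 : (tr W (br [a]) : List (Lr I L) → R) v = 0 := by
              by_cases hv1 : v ∈ W.s
              · rw [tr_of hv1]
                refine if_neg fun h4 => ?_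
                exact h2 a (by rw [h4]; simp) rfl
              · exact tr_out hv1
            rw [h3, mul_zero]
          rw [h1, mul_zero, add_zero, Pi.smul_apply, tr_of hw, smul_eq_mul]
          unfold d1
          rw [lt_c, tr_of hw]
          by_cases h2 : ∃ b ∈ w, b.i = i₁
          · rw [if_pos h2]
            have h3 : (e1 : List (Lr I L) → R) w = 0 := by
              refine if_neg ?_
              rintro rfl
              obtain ⟨b, hb, _⟩ := h2
              simp at hb
            rw [Pi.add_apply, h3, zero_add]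
            rfl
          · rw [if_neg h2]
            have h3 : (br [a] : List (Lr I L) → R) w = 0 := by
              refine if_neg fun h4 => h2 ⟨a, ?_, ha⟩
              rw [h4]
              simp
            rw [h3, mul_zero]
        · have h1 : mm W (s • tr W (br [a])) (lt a s : UG Q (Lr I L) R W).c w = 0 := tr_out hw
          rw [h1]
          unfold d1
          rw [(lt a s : UG Q (Lr I L) R W).out w hw, ite_self]
    · refine ⟨0, Submodule.zero_mem _, ?_⟩
      funext w
      by_cases hw : w ∈ W.s
      · rw [hr _ w hw]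
        have h1 : cv (0 : List (Lr I L) → R) (el a) w = 0 := cv_zero_left _ _
        rw [h1, mul_zero, add_zero]
        unfold d1
        by_cases h2 : ∃ b ∈ w, b.i = i₁
        · rw [if_pos h2, lt_c, tr_of hw]
          obtain ⟨b, hb, hb1⟩ := h2
          have h3 : (e1 : List (Lr I L) → R) w = 0 := by
            refine if_neg ?_
            rintro rfl
            simp at hb
          have h4 : (el a : List (Lr I L) → R) w = 0 := by
            refine if_neg ?_
            rintro rfl
            rw [List.mem_singleton] at hb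
            rw [hb] at hb1
            exact ha hb1
          rw [Pi.add_apply, Pi.smul_apply, h3, h4, smul_zero, add_zero]
          rfl
        · rw [if_neg h2]
          rfl
      · have h1 : mm W 0 (lt a s : UG Q (Lr I L) R W).c w = 0 := tr_out hw
        rw [h1]
        unfold d1
        rw [(lt a s : UG Q (Lr I L) R W).out w hw, ite_self]
  · intro y hy
    refine ⟨y + s • (mm W (el a) y - mm W y (el a)),
      Submodule.add_mem _ hy (Submodule.smul_mem _ _ (sp_br a y hy)), ?_⟩
    have h0 : qa (lt a s : UG Q (Lr I L) R W).q y = y := qa_one y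
    rw [h0]
    funext w
    by_cases hw : w ∈ W.s
    · rw [hl _ w hw, hr _ w hw]
      have h1 : cv (y + s • (mm W (el a) y - mm W y (el a))) (el a) w = cv y (el a) w +
          s * (cv (mm W (el a) y) (el a) w - cv (mm W y (el a)) (el a) w) := by
        have h2 : cv (y + s • (mm W (el a) y - mm W y (el a))) (el a) w = cv y (el a) w +
            cv (fun v => s * (mm W (el a) y v - mm W y (el a) v)) (el a) w := cv_add_left y _ _ w
        rw [h2, cv_smul_left, cv_sub_left]
      have h3 : cv (mm W (el a) y) (el a) w = 0 := by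
        refine twice hW a _ hw fun v hv h4 => ?_
        have h5 : v ∈ W.s := W.left v [a] (by rw [hv]; exact hw)
        unfold mm
        rw [tr_of h5]
        refine (cv_el_left a y v).trans ?_
        cases v with
        | nil => rfl
        | cons b v => exact if_neg (h4 b (by simp))
      have h6 : cv (mm W y (el a)) (el a) w = 0 := by
        refine twice hW a _ hw fun v hv h4 => ?_
        have h5 : v ∈ W.s := W.left v [a] (by rw [hv]; exact hw)
        unfold mm
        rw [tr_of h5]
        exact cv_el_right' a y v fun v' hv' => h4 a (by rw [hv']; simp) rfl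
      rw [h1, h3, h6]
      simp only [Pi.add_apply, Pi.smul_apply, Pi.sub_apply, smul_eq_mul]
      unfold mm
      rw [tr_of hw, tr_of hw]
      ring
    · have h1 : mm W (lt a s : UG Q (Lr I L) R W).c y w = 0 := tr_out hw
      rw [h1]
      exact (tr_out hw).symm

/-- homomorphisms from a free group -/
theorem gl_free {X : Type} (hW : ∀ w ∈ W.s, (w.map Lr.i).Nodup) (F : FreeGroup X →* UG Q (Lr I L) R W)
    (h : ∀ x, (∃ a s, F (FreeGroup.of x) = lt a s) ∨ ∃ q, F (FreeGroup.of x) = qi q) (z : FreeGroup X) :
    Gl i₁ (F z) := by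
  have haa : ∀ a : Lr I L, [a, a] ∉ W.s := fun a ha => by
    have h1 := hW _ ha
    simp at h1
  induction z using FreeGroup.induction_on with
  | C1 =>
    rw [map_one]
    exact gl_qi 1
  | of x =>
    rcases h x with ⟨a, s, h1⟩ | ⟨q, h1⟩
    · have h2 : F (FreeGroup.of x) = lt a s := h1
      rw [h2]
      exact gl_lt hW a s
    · have h2 : F (FreeGroup.of x) = qi q := h1
      rw [h2]
      exact gl_qi q
  | inv_of x _ =>
    rcases h x with ⟨a, s, h1⟩ | ⟨q, h1⟩
    · have h2 : F (FreeGroup.of x)⁻¹ = lt a (-s) := by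
        have h3 : F (FreeGroup.of x) = lt a s := h1
        rw [map_inv, h3]
        refine inv_eq_of_mul_eq_one_right ?_
        rw [lt_mul_lt (haa a), add_neg_cancel, lt_zero]
      rw [h2]
      exact gl_lt hW a (-s)
    · have h2 : F (FreeGroup.of x)⁻¹ = qi q⁻¹ := by
        have h3 : F (FreeGroup.of x) = qi q := h1
        rw [map_inv, h3]
        exact (map_inv (qh : Q →* UG Q (Lr I L) R W) q).symm
      rw [h2]
      exact gl_qi _
  | mul x y hx hy =>
    rw [map_mul]
    exact gl_mul hW hx hy

/-! ### supports -/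

theorem sp_nil (s : List (Lr I L) → R) (hs : s ∈ Sp i₁ W) : s [] = 0 := by
  unfold Sp at hs
  induction hs using Submodule.span_induction with
  | mem y hy =>
    obtain ⟨t, ht, rfl⟩ := hy
    rw [tr_of W.nil]
    cases t with
    | nil => rfl
    | cons a t =>
      cases t with
      | nil => exact if_neg (c := ([] : List (Lr I L)) = [a]) (t := (1 : R)) (List.cons_ne_nil a []).symm
      | cons b t =>
        have h1 : (br (a :: b :: t) : List (Lr I L) → R) [] =
            cv (el a) (br (b :: t)) [] - cv (br (b :: t)) (el a) [] := rfl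
        have h2 : (el a : List (Lr I L) → R) [] = 0 := if_neg (by simp)
        rw [h1, cv_nil, cv_nil, h2, zero_mul, mul_zero, sub_zero]
  | zero => rfl
  | add y z _ _ hy hz => rw [Pi.add_apply, hy, hz, add_zero]
  | smul r y _ hy => rw [Pi.smul_apply, hy, smul_zero]

theorem sp_out (s : List (Lr I L) → R) (hs : s ∈ Sp i₁ W) (w : List (Lr I L)) (hw : w ∉ W.s) : s w = 0 := by
  unfold Sp at hs
  induction hs using Submodule.span_induction with
  | mem y hy =>
    obtain ⟨t, ht, rfl⟩ := hy
    exact tr_out hw
  | zero => rfl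
  | add y z _ _ hy hz => rw [Pi.add_apply, hy, hz, add_zero]
  | smul r y _ hy => rw [Pi.smul_apply, hy, smul_zero]

theorem br_perm : ∀ (v : List (Lr I L)) (t : List (Lr I L)), (br v : List (Lr I L) → R) t ≠ 0 → t.Perm v
  | [], t => fun h => absurd rfl h
  | [a], t => fun h => by
    by_cases h1 : t = [a]
    · rw [h1]
    · exact absurd (if_neg h1) h
  | a :: b :: w, t => fun h => by
    have ih := br_perm (b :: w)
    have h1 : (br (a :: b :: w) : List (Lr I L) → R) t =
        cv (el a) (br (b :: w)) t - cv (br (b :: w)) (el a) t := rfl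
    by_cases h2 : ∃ t', t = a :: t' ∧ (br (b :: w) : List (Lr I L) → R) t' ≠ 0
    · obtain ⟨t', rfl, h3⟩ := h2
      exact (ih t' h3).cons a
    · by_cases h4 : ∃ t', t = t' ++ [a] ∧ (br (b :: w) : List (Lr I L) → R) t' ≠ 0
      · obtain ⟨t', rfl, h5⟩ := h4
        exact (List.perm_append_singleton a t').trans ((ih t' h5).cons a)
      · exfalso
        push Not at h2 h4
        apply h
        have h6 : cv (el a) (br (b :: w)) t = (0 : R) := by
          rw [cv_el_left]
          cases t with
          | nil => rfl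
          | cons c t =>
            by_cases hc : c = a
            · exact (if_pos hc).trans (h2 t (by rw [hc]))
            · exact if_neg hc
        have h7 : cv (br (b :: w)) (el a) t = (0 : R) := by
          by_cases h8 : ∃ t', t = t' ++ [a]
          · obtain ⟨t', h8⟩ := h8
            rw [cv_el_right a _ t t' h8]
            exact h4 t' h8
          · push Not at h8
            exact cv_el_right' a _ t h8
        rw [h1, h6, h7, sub_zero]

/-- the coefficients at the words with the last index `i₁` -/
theorem br_dual : ∀ (v : List (Lr I L)), (v.map Lr.i).Nodup → (v.map Lr.i).getLast? = some i₁ →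
    ∀ u : List (Lr I L), (u.map Lr.i).getLast? = some i₁ →
      (br v : List (Lr I L) → R) u = if u = v then 1 else 0
  | [], _, h, _, _ => by simp at h
  | [a], _, _, u, _ => rfl
  | a :: b :: w, hn, hl, u, hu => by
    have hn' : ((b :: w).map Lr.i).Nodup := by
      rw [List.map_cons] at hn
      exact hn.of_cons
    have hl' : ((b :: w).map Lr.i).getLast? = some i₁ := by
      rw [List.map_cons, List.map_cons, List.getLast?_cons_cons, ← List.map_cons] at hl
      exact hl
    have ih := br_dual (b :: w) hn' hl'
    have hai : a.i ≠ i₁ := by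
      intro h
      rw [List.map_cons, List.nodup_cons] at hn
      apply hn.1
      rw [h]
      exact List.mem_of_getLast? hl'
    have h1 : (br (a :: b :: w) : List (Lr I L) → R) u =
        cv (el a) (br (b :: w)) u - cv (br (b :: w)) (el a) u := rfl
    have h7 : cv (br (b :: w)) (el a) u = (0 : R) := by
      refine cv_el_right' a _ u fun v' hv' => ?_
      rw [hv', List.map_append] at hu
      simp at hu
      exact hai hu
    rw [h1, h7, sub_zero, cv_el_left]
    cases u with
    | nil => simp at hu
    | cons c u =>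
      by_cases hc : c = a
      · rw [hc]
        refine (if_pos rfl).trans ?_
        cases u with
        | nil =>
          exfalso
          rw [hc] at hu
          simp at hu
          exact hai hu
        | cons d u =>
          rw [List.map_cons, List.map_cons, List.getLast?_cons_cons, ← List.map_cons] at hu
          rw [ih (d :: u) hu]
          simp only [List.cons.injEq, true_and]
      · refine (if_neg hc).trans (if_neg fun h => hc ?_).symm
        exact (List.cons.inj h).1

end

private theorem ex_ofFn {X : Type} {m : ℕ} (v : List X) (h : v.length = m) : ∃ v0 : Fin m → X, v = List.ofFn v0 := by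
  subst h
  exact ⟨v.get, (List.ofFn_get v).symm⟩

section top

variable {Q L R : Type} [Group Q] [MulAction Q L] [CommRing R] {n : ℕ}

/-- all words of length `n + 1` contain the index `1` -/
private theorem has_one {t : List (Lr (Fin (n + 2)) L)} (ht : t ∈ (WN Q L {i : Fin (n + 2) | i ≠ 0} (n + 1)).s)
    (hl : t.length = n + 1) : ∃ a ∈ t, a.i = 1 := by
  obtain ⟨_, h2, h3⟩ := ht
  have h4 : (t.map Lr.i).toFinset ⊆ Finset.univ.erase 0 := by
    intro x hx
    rw [List.mem_toFinset] at hx
    obtain ⟨a, ha, rfl⟩ := List.mem_map.1 hx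
    exact Finset.mem_erase.2 ⟨h3 a ha, Finset.mem_univ _⟩
  have h5 : (t.map Lr.i).toFinset = Finset.univ.erase 0 := by
    refine Finset.eq_of_subset_of_card_le h4 ?_
    rw [List.toFinset_card_of_nodup h2, List.length_map, hl, Finset.card_erase_of_mem (Finset.mem_univ _),
      Finset.card_univ, Fintype.card_fin]
    omega
  have h6 : (1 : Fin (n + 2)) ∈ (t.map Lr.i).toFinset := by
    rw [h5]
    exact Finset.mem_erase.2 ⟨by simp, Finset.mem_univ _⟩
  rw [List.mem_toFinset] at h6
  obtain ⟨a, ha, h7⟩ := List.mem_map.1 h6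
  exact ⟨a, ha, h7⟩

/-- the top part of a group-like element with vanishing lower coefficients -/
theorem top_mem (g : UG Q (Lr (Fin (n + 2)) L) R (WN Q L {i | i ≠ 0} (n + 1))) (hg : Gl 1 g)
    (h0 : ∀ u, u ≠ [] → u.length ≤ n → g.c u = 0) :
    ∃ s ∈ Sp 1 (WN Q L {i : Fin (n + 2) | i ≠ 0} (n + 1)), ∀ t : List (Lr (Fin (n + 2)) L),
      t.length = n + 1 → g.c t = s t := by
  obtain ⟨s, hs, h1⟩ := hg.a
  refine ⟨s, hs, fun t ht => ?_⟩
  by_cases hw : t ∈ (WN Q L {i : Fin (n + 2) | i ≠ 0} (n + 1)).s
  · have h2 := congrFun h1 t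
    unfold d1 mm at h2
    rw [if_pos (has_one hw ht), tr_of hw, cv_eq, Finset.sum_range_succ, List.take_length, List.drop_length, g.one,
      mul_one] at h2
    rw [h2, Finset.sum_eq_zero, zero_add]
    intro i hi
    rw [Finset.mem_range] at hi
    by_cases hi0 : i = 0
    · rw [hi0, List.take_zero, sp_nil s hs, zero_mul]
    · rw [h0, mul_zero]
      · intro h
        have h3 := congrArg List.length h
        rw [List.length_drop, List.length_nil] at h3
        omega
      · rw [List.length_drop]
        omega
  · rw [g.out t hw, sp_out s hs t hw]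

variable [Fintype L]

/-- the functional `w ↦ k (br w)` if the last index of `w` is `1`, otherwise `0` -/
def kl (k : List (Lr (Fin (n + 2)) L) → R) : List (Lr (Fin (n + 2)) L) → R :=
  fun w => if (w.map Lr.i).getLast? = some 1 then
    ∑ t : Fin (n + 1) → Lr (Fin (n + 2)) L, br w (List.ofFn t) * k (List.ofFn t) else 0

theorem sp_kl (k : List (Lr (Fin (n + 2)) L) → R) (s : List (Lr (Fin (n + 2)) L) → R)
    (hs : s ∈ Sp 1 (WN Q L {i : Fin (n + 2) | i ≠ 0} (n + 1))) :
    ∑ t : Fin (n + 1) → Lr (Fin (n + 2)) L, s (List.ofFn t) * kl k (List.ofFn t) =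
      ∑ t : Fin (n + 1) → Lr (Fin (n + 2)) L, s (List.ofFn t) * k (List.ofFn t) := by
  unfold Sp at hs
  induction hs using Submodule.span_induction with
  | mem y hy =>
    obtain ⟨v, hv, rfl⟩ := hy
    by_cases hw : v ∈ (WN Q L {i : Fin (n + 2) | i ≠ 0} (n + 1)).s
    · have htr : ∀ t, (tr (WN Q L {i : Fin (n + 2) | i ≠ 0} (n + 1)) (br v) : List (Lr (Fin (n + 2)) L) → R) t = br v t := by
        intro t
        by_cases ht : t ∈ (WN Q L {i : Fin (n + 2) | i ≠ 0} (n + 1)).s
        · exact tr_of ht
        · rw [tr_out ht]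
          by_contra h1
          have h2 := br_perm v t (Ne.symm h1)
          refine ht ⟨?_, ?_, ?_⟩
          · rw [h2.length_eq]
            exact hw.1
          · exact ((h2.map Lr.i).nodup_iff).2 hw.2.1
          · intro a ha
            exact hw.2.2 a (h2.mem_iff.1 ha)
      simp only [htr]
      by_cases hl : v.length = n + 1
      · obtain ⟨v0, rfl⟩ := ex_ofFn v hl
        rw [Finset.sum_eq_single v0]
        · unfold kl
          rw [if_pos hv, br_dual _ hw.2.1 hv _ hv, if_pos rfl, one_mul]
        · intro u _ hu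
          unfold kl
          by_cases h1 : ((List.ofFn u).map Lr.i).getLast? = some 1
          · rw [br_dual _ hw.2.1 hv _ h1, if_neg, zero_mul]
            exact fun h => hu (List.ofFn_injective h)
          · rw [if_neg h1, mul_zero]
        · intro h
          exact absurd (Finset.mem_univ _) h
      · have h0 : ∀ t : Fin (n + 1) → Lr (Fin (n + 2)) L, (br v : List (Lr (Fin (n + 2)) L) → R) (List.ofFn t) = 0 := by
          intro t
          by_contra h1
          have h2 := (br_perm v _ h1).length_eq
          rw [List.length_ofFn] at h2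
          exact hl h2.symm
        simp only [h0, zero_mul]
    · have htr : ∀ t, (tr (WN Q L {i : Fin (n + 2) | i ≠ 0} (n + 1)) (br v) : List (Lr (Fin (n + 2)) L) → R) t = 0 := by
        intro t
        by_cases ht : t ∈ (WN Q L {i : Fin (n + 2) | i ≠ 0} (n + 1)).s
        · rw [tr_of ht]
          by_contra h1
          have h2 := br_perm v t h1
          refine hw ⟨?_, ?_, ?_⟩
          · rw [← h2.length_eq]
            exact ht.1
          · exact ((h2.map Lr.i).nodup_iff).1 ht.2.1
          · intro a ha
            exact ht.2.2 a (h2.mem_iff.2 ha)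
        · exact tr_out ht
      simp only [htr, zero_mul]
  | zero => simp
  | add y z _ _ hy hz =>
    simp only [Pi.add_apply, add_mul, Finset.sum_add_distrib]
    rw [hy, hz]
  | smul r y _ hy =>
    simp only [Pi.smul_apply, smul_eq_mul, mul_assoc, ← Finset.mul_sum]
    rw [hy]

/-- `k` and `kl k` have the same value on the top part of a group-like element -/
theorem kl_top (k : List (Lr (Fin (n + 2)) L) → R)
    (g : UG Q (Lr (Fin (n + 2)) L) R (WN Q L {i | i ≠ 0} (n + 1))) (hg : Gl 1 g)
    (h0 : ∀ u, u ≠ [] → u.length ≤ n → g.c u = 0) :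
    ∑ t : Fin (n + 1) → Lr (Fin (n + 2)) L, g.c (List.ofFn t) * kl k (List.ofFn t) =
      ∑ t : Fin (n + 1) → Lr (Fin (n + 2)) L, g.c (List.ofFn t) * k (List.ofFn t) := by
  obtain ⟨s, hs, h1⟩ := top_mem g hg h0
  have h2 : ∀ t : Fin (n + 1) → Lr (Fin (n + 2)) L, g.c (List.ofFn t) = s (List.ofFn t) := fun t =>
    h1 _ (List.length_ofFn)
  simp only [h2]
  exact sp_kl k s hs

/-- `k` and `kl k` have the same value on the brackets of the words with the last index `1` -/
theorem kl_br (k : List (Lr (Fin (n + 2)) L) → R) (v : List (Lr (Fin (n + 2)) L)) (hn : (v.map Lr.i).Nodup)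
    (hv : (v.map Lr.i).getLast? = some 1) (hl : v.length = n + 1) :
    ∑ t : Fin (n + 1) → Lr (Fin (n + 2)) L, br v (List.ofFn t) * kl k (List.ofFn t) =
      ∑ t : Fin (n + 1) → Lr (Fin (n + 2)) L, br v (List.ofFn t) * k (List.ofFn t) := by
  obtain ⟨v0, rfl⟩ := ex_ofFn v hl
  rw [Finset.sum_eq_single v0]
  · unfold kl
    rw [if_pos hv, br_dual _ hn hv _ hv, if_pos rfl, one_mul]
  · intro u _ hu
    unfold kl
    by_cases h1 : ((List.ofFn u).map Lr.i).getLast? = some 1
    · rw [br_dual _ hn hv _ h1, if_neg, zero_mul]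
      exact fun h => hu (List.ofFn_injective h)
    · rw [if_neg h1, mul_zero]
  · intro h
    exact absurd (Finset.mem_univ _) h

end top

end H42.BX
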